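import Mathlib

open Filter Topology

namespace Pool.Agent.RW

/-- The window length. -/
def LL (B n : ℕ) : ℕ := B * (Nat.log 2 n + 1)

noncomputable def ll (n : ℕ) : ℝ := Real.log (Real.log n)

/-- The depth scale. -/
noncomputable def sc (s : ℝ) (n : ℕ) : ℝ := (n / ll n) ^ s⁻¹

theorem LL_mono (B : ℕ) {g n : ℕ} (h : g ≤ n) : LL B g ≤ LL B n :=
  Nat.mul_le_mul_left _ (Nat.succ_le_succ (Nat.log_mono_right h))

theorem le_LL (B n : ℕ) : B ≤ LL B n := Nat.le_mul_of_pos_right _ (Nat.succ_pos _)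

theorem tendsto_ll : Tendsto ll atTop atTop :=
  Real.tendsto_log_atTop.comp (Real.tendsto_log_atTop.comp tendsto_natCast_atTop_atTop)

theorem ev_ll : ∀ᶠ n in atTop, 1 ≤ ll n := tendsto_ll.eventually_ge_atTop 1

theorem ll_mono {g n : ℕ} (hg : 2 ≤ g) (h : g ≤ n) : ll g ≤ ll n := by
  have h1 : (1 : ℝ) < g := by exact_mod_cast hg
  exact Real.log_le_log (Real.log_pos h1) (Real.log_le_log (by linarith) (by exact_mod_cast h))

theorem tendsto_natlog : Tendsto (Nat.log 2) atTop atTop :=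
  tendsto_atTop.2 fun j => (eventually_ge_atTop (2 ^ j)).mono fun _ hn =>
    Nat.le_log_of_pow_le one_lt_two hn

theorem ev_LL_le (B k : ℕ) (C : ℝ) {p : ℝ} (hp : 0 < p) :
    ∀ᶠ n : ℕ in atTop, C * (LL B n : ℝ) ^ k ≤ (n : ℝ) ^ p := by
  have hx : 1 < (2 : ℝ) ^ p := Real.one_lt_rpow one_lt_two hp
  have h1 := (tendsto_pow_const_div_const_pow_of_one_lt k hx).comp (tendsto_add_atTop_nat 1)
  have h2 := (h1.const_mul (C * B ^ k * 2 ^ p)).eventually_le_const (show C * B ^ k * 2 ^ p * 0 < 1 by simp)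
  filter_upwards [tendsto_natlog.eventually h2, eventually_gt_atTop 0] with n hn hn0
  have h3 : ((2 : ℝ) ^ p) ^ Nat.log 2 n ≤ (n : ℝ) ^ p := by
    rw [← Real.rpow_natCast, ← Real.rpow_mul zero_le_two, mul_comm, Real.rpow_mul zero_le_two,
      Real.rpow_natCast]
    refine Real.rpow_le_rpow (by positivity) ?_ hp.le
    exact_mod_cast Nat.pow_log_le_self 2 hn0.ne'
  refine le_trans ?_ h3
  simp only [Function.comp] at hn
  rw [← mul_div_assoc, div_le_one (by positivity), pow_succ] at hn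
  refine le_of_mul_le_mul_right ?_ (zero_lt_one.trans hx)
  refine le_trans (le_of_eq ?_) hn
  rw [LL, Nat.cast_mul, mul_pow]
  ring

theorem ev_LL_lin (B : ℕ) {c : ℝ} (hc : 0 < c) : ∀ᶠ n : ℕ in atTop, (LL B n : ℝ) ≤ c * n := by
  filter_upwards [ev_LL_le B 1 c⁻¹ one_pos] with n hn
  rwa [pow_one, Real.rpow_one, inv_mul_le_iff₀ hc] at hn

theorem ll_le {n : ℕ} (hn : 2 ≤ n) : ll n ≤ LL 1 n := by
  have h1 : (1 : ℝ) < n := by exact_mod_cast hn
  have h2 : (n : ℝ) ≤ 2 ^ (Nat.log 2 n + 1) := by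
    exact_mod_cast (Nat.lt_pow_succ_log_self one_lt_two n).le
  have h3 := Real.log_le_log (by linarith) h2
  rw [Real.log_pow] at h3
  have h4 := Real.log_le_self (Real.log_pos h1).le
  have h5 : Real.log 2 ≤ 1 := by linarith [Real.log_le_sub_one_of_pos two_pos]
  have h6 := mul_le_mul_of_nonneg_left h5 (Nat.cast_nonneg (α := ℝ) (Nat.log 2 n + 1))
  rw [ll, LL, one_mul]
  linarith

variable {s : ℝ}

theorem ev_le_sc (hs : 1 < s) (B k : ℕ) (C : ℝ) :
    ∀ᶠ n : ℕ in atTop, C * (LL B n : ℝ) ^ k ≤ sc s n := by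
  have hs0 : 0 < s⁻¹ := inv_pos.2 (zero_lt_one.trans hs)
  filter_upwards [ev_LL_le B k C (p := 1 / 2 * s⁻¹) (by positivity), ev_ll,
    ev_LL_le 1 1 1 (p := 1 / 2) (by norm_num), eventually_ge_atTop 2] with n h1 h2 h3 h4
  have hn : (0 : ℝ) < n := by positivity
  refine h1.trans ?_
  rw [Real.rpow_mul hn.le]
  refine Real.rpow_le_rpow (by positivity) ?_ hs0.le
  rw [le_div_iff₀ (by linarith)]
  have h5 := mul_le_mul_of_nonneg_left ((ll_le h4).trans (by simpa using h3))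
    (show 0 ≤ (n : ℝ) ^ (1 / 2 : ℝ) by positivity)
  refine h5.trans_eq ?_
  rw [← Real.rpow_add hn]
  norm_num

theorem ev_sc_le (hs : 1 < s) {c : ℝ} (hc : 0 < c) : ∀ᶠ n : ℕ in atTop, sc s n ≤ c * n := by
  have hs0 : 0 < s⁻¹ := inv_pos.2 (zero_lt_one.trans hs)
  have hs1 : 0 < 1 - s⁻¹ := sub_pos.2 (inv_lt_one_of_one_lt₀ hs)
  have h0 := ((tendsto_rpow_atTop hs1).comp tendsto_natCast_atTop_atTop).eventually_ge_atTop c⁻¹
  filter_upwards [h0, ev_ll, eventually_gt_atTop 0] with n h1 h2 h3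
  have hn : (0 : ℝ) < n := by positivity
  have h4 : sc s n ≤ (n : ℝ) ^ s⁻¹ :=
    Real.rpow_le_rpow (div_nonneg hn.le (by linarith)) (div_le_self hn.le h2) hs0.le
  refine h4.trans ?_
  simp only [Function.comp] at h1
  rw [Real.rpow_sub hn, Real.rpow_one, le_div_iff₀ (by positivity), inv_mul_le_iff₀ hc] at h1
  exact h1

theorem sc_pos {n : ℕ} (hn : 0 < n) (h : 1 ≤ ll n) : 0 < sc s n :=
  Real.rpow_pos_of_pos (div_pos (by positivity) (by linarith)) _

theorem sc_rpow (hs : 1 < s) {n : ℕ} (h : 1 ≤ ll n) : sc s n ^ s = n / ll n :=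
  Real.rpow_inv_rpow (div_nonneg (by positivity) (by linarith)) (by linarith)

theorem div_sc {n : ℕ} (hn : 0 < n) (h : 1 ≤ ll n) :
    n / sc s n = (n : ℝ) ^ (1 - 1 / s) * ll n ^ (1 / s) := by
  have hn' : (0 : ℝ) < n := by positivity
  rw [sc, Real.div_rpow hn'.le (by linarith), Real.rpow_sub hn', Real.rpow_one, one_div]
  field_simp

theorem sc_le_two (hs : 1 < s) {g n : ℕ} (hg : 2 ≤ g) (h : 1 ≤ ll g) (h1 : g ≤ n) (h2 : n ≤ 2 * g) :
    sc s n ≤ 2 * sc s g := by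
  have hs0 : 0 < s⁻¹ := inv_pos.2 (zero_lt_one.trans hs)
  have h3 := ll_mono hg h1
  have h4 : (n : ℝ) / ll n ≤ 2 * (g / ll g) := by
    rw [← mul_div_assoc]
    exact div_le_div₀ (by positivity) (by exact_mod_cast h2) (by linarith) h3
  have h5 : (0 : ℝ) ≤ g / ll g := div_nonneg (by positivity) (by linarith)
  refine (Real.rpow_le_rpow (div_nonneg (by positivity) (by linarith)) h4 hs0.le).trans ?_
  rw [Real.mul_rpow zero_le_two h5]
  refine mul_le_mul_of_nonneg_right ?_ (Real.rpow_nonneg h5 _)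
  simpa using Real.rpow_le_rpow_of_exponent_le one_le_two (inv_le_one_of_one_le₀ hs.le)

theorem pow_LL_le {θ : ℝ} (h0 : 0 ≤ θ) {B : ℕ} (hB : θ ^ B ≤ 1 / 32) {n : ℕ} (hn : 0 < n) :
    θ ^ LL B n ≤ ((n : ℝ) ^ 5)⁻¹ := by
  have h2 : (n : ℝ) ≤ 2 ^ (Nat.log 2 n + 1) := by
    exact_mod_cast (Nat.lt_pow_succ_log_self one_lt_two n).le
  rw [LL, pow_mul]
  refine (pow_le_pow_left₀ (by positivity) hB _).trans ?_
  rw [one_div, inv_pow, show (32 : ℝ) = 2 ^ 5 by norm_num, ← pow_mul, mul_comm, pow_mul]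
  exact inv_anti₀ (by positivity) (pow_le_pow_left₀ (by positivity) h2 5)

end Pool.Agent.RW
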