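import Pool.Agent.P.MP_4175a8_pr.Low

open Finset MeasureTheory ProbabilityTheory

namespace Pool.Agent.RW

/-- Independent bounded positive variables with mean `θ < 1` and `s`-th moment one. -/
structure IE {Ω ι : Type*} [mΩ : MeasurableSpace Ω] (P : Measure Ω) (r : ι → Ω → ℝ)
    (F : Set ι → MeasurableSpace Ω) (κ θ s : ℝ) : Prop where
  le : ∀ S, F S ≤ mΩ
  mono : ∀ S T, S ⊆ T → F S ≤ F T
  ind : ∀ S T, Disjoint S T → Indep (F S) (F T) P
  meas : ∀ i, Measurable[F {i}] (r i)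
  pos : ∀ i ω, 0 < r i ω
  bd : ∀ i ω, r i ω ≤ κ
  m1 : ∀ i, ∫ ω, r i ω ∂P = θ
  ms : ∀ i, ∫ ω, r i ω ^ s ∂P = 1
  hκ : 1 ≤ κ
  hθ0 : 0 < θ
  hθ : θ < 1
  hs : 1 < s

/-- The product of the first `k` variables. -/
def pr {Ω : Type*} (r : ℕ → Ω → ℝ) (k : ℕ) (ω : Ω) : ℝ := ∏ i ∈ range k, r i ω

theorem meas_pr {Ω : Type*} {m : MeasurableSpace Ω} {r : ℕ → Ω → ℝ} {k : ℕ}
    (h : ∀ i < k, Measurable (r i)) : Measurable (pr r k) :=
  Finset.measurable_prod _ fun i hi => h i (mem_range.1 hi)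

theorem pr_add {Ω : Type*} (r : ℕ → Ω → ℝ) (j k : ℕ) (ω : Ω) :
    pr r (j + k) ω = pr r j ω * pr (fun i => r (j + i)) k ω := prod_range_add _ _ _

theorem pr_succ {Ω : Type*} (r : ℕ → Ω → ℝ) (j : ℕ) (ω : Ω) :
    pr r (j + 1) ω = pr r j ω * r j ω := prod_range_succ _ _

theorem integrable_bd {Ω : Type*} [MeasurableSpace Ω] {P : Measure Ω} [IsFiniteMeasure P]
    {f : Ω → ℝ} (hf : Measurable f) (C : ℝ) (h0 : ∀ ω, 0 ≤ f ω) (h : ∀ ω, f ω ≤ C) :
    Integrable f P :=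
  Integrable.of_bound hf.aestronglyMeasurable C (ae_of_all _ fun ω => by
    rw [Real.norm_of_nonneg (h0 ω)]
    exact h ω)

theorem rmono {Ω : Type*} [MeasurableSpace Ω] {P : Measure Ω} [IsFiniteMeasure P] {S T : Set Ω}
    (h : S ⊆ T) : P.real S ≤ P.real T := measureReal_mono h (measure_ne_top _ _)

theorem geom_tail {θ : ℝ} (h0 : 0 ≤ θ) (h1 : θ < 1) (m l : ℕ) :
    ∑ k ∈ Ico m l, θ ^ k ≤ θ ^ m / (1 - θ) := geom_sum_Ico_le_of_lt_one h0 h1

namespace IE

variable {Ω ι : Type*} [mΩ : MeasurableSpace Ω] {P : Measure Ω} [IsProbabilityMeasure P]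
  {κ θ s : ℝ}

section gen

variable {r : ι → Ω → ℝ} {F : Set ι → MeasurableSpace Ω} (h : IE P r F κ θ s)
include h

omit [IsProbabilityMeasure P] in
theorem comp {ι' : Type*} (φ : ι' → ι) (hφ : Function.Injective φ) :
    IE P (fun i => r (φ i)) (fun S => F (φ '' S)) κ θ s where
  le S := h.le _
  mono S T hST := h.mono _ _ (Set.image_mono hST)
  ind S T hST := h.ind _ _ ((Set.disjoint_image_iff hφ).2 hST)
  meas i := by
    rw [Set.image_singleton]
    exact h.meas _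
  pos i := h.pos _
  bd i := h.bd _
  m1 i := h.m1 _
  ms i := h.ms _
  hκ := h.hκ
  hθ0 := h.hθ0
  hθ := h.hθ
  hs := h.hs

omit [IsProbabilityMeasure P] in
theorem measS {S : Set ι} {i : ι} (hi : i ∈ S) : Measurable[F S] (r i) :=
  (h.meas i).mono (h.mono _ _ (Set.singleton_subset_iff.2 hi)) le_rfl

omit [IsProbabilityMeasure P] in
theorem up {S : Set ι} {f : Ω → ℝ} (hf : Measurable[F S] f) : Measurable f :=
  hf.mono (h.le S) le_rfl

omit [IsProbabilityMeasure P] in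
theorem measurable (i : ι) : Measurable (r i) := h.up (h.meas i)

omit [IsProbabilityMeasure P] in
theorem int_mul {S T : Set ι} (hST : Disjoint S T) {f g : Ω → ℝ} (hf : Measurable[F S] f)
    (hg : Measurable[F T] g) : ∫ ω, f ω * g ω ∂P = (∫ ω, f ω ∂P) * ∫ ω, g ω ∂P := by
  have hi : IndepFun f g P := by
    rw [IndepFun_iff_Indep]
    exact indep_of_indep_of_le (h.ind S T hST) hf.comap_le hg.comap_le
  exact hi.integral_fun_mul_eq_mul_integral (h.up hf).aestronglyMeasurable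
    (h.up hg).aestronglyMeasurable

omit [IsProbabilityMeasure P] in
theorem real_inter {S T : Set ι} (hST : Disjoint S T) {C D : Set Ω} (hC : MeasurableSet[F S] C)
    (hD : MeasurableSet[F T] D) : P.real (C ∩ D) = P.real C * P.real D := by
  have := (Indep_iff _ _ _).1 (h.ind S T hST) C D hC hD
  simp only [Measure.real, this, ENNReal.toReal_mul]

omit [IsProbabilityMeasure P] in
theorem setInt_mul {S T : Set ι} (hST : Disjoint S T) {C : Set Ω} (hC : MeasurableSet[F S] C)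
    {f g : Ω → ℝ} (hf : Measurable[F S] f) (hg : Measurable[F T] g) :
    ∫ ω in C, f ω * g ω ∂P = (∫ ω in C, f ω ∂P) * ∫ ω, g ω ∂P := by
  rw [← integral_indicator (h.le S _ hC), ← integral_indicator (h.le S _ hC),
    ← h.int_mul hST (hf.indicator hC) hg]
  congr 1
  funext ω
  by_cases hω : ω ∈ C <;> simp [hω]

end gen

variable {r : ℕ → Ω → ℝ} {F : Set ℕ → MeasurableSpace Ω} (h : IE P r F κ θ s)
include h

omit [IsProbabilityMeasure P] in
theorem shift (j : ℕ) : IE P (fun i => r (j + i)) (fun S => F ((fun i => j + i) '' S)) κ θ s :=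
  h.comp _ (add_right_injective j)

omit [IsProbabilityMeasure P] in
theorem pr_pos (k : ℕ) (ω : Ω) : 0 < pr r k ω := prod_pos fun i _ => h.pos i ω

omit [IsProbabilityMeasure P] in
theorem pr_le (k : ℕ) (ω : Ω) : pr r k ω ≤ κ ^ k := by
  have := prod_le_prod (s := range k) (fun i _ => (h.pos i ω).le) fun i _ => h.bd i ω
  simpa [pr] using this

omit [IsProbabilityMeasure P] in
theorem mpr {k j : ℕ} (hk : k ≤ j) : Measurable[F (Set.Iio j)] (pr r k) :=
  meas_pr fun _ hi => h.measS (lt_of_lt_of_le hi hk)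

omit [IsProbabilityMeasure P] in
theorem mpr' (k : ℕ) : Measurable (pr r k) := h.up (h.mpr le_rfl)

omit [IsProbabilityMeasure P] in
theorem mprS (j k : ℕ) : Measurable[F (Set.Ici j)] (pr (fun i => r (j + i)) k) :=
  meas_pr fun i _ => h.measS (Nat.le_add_right j i)

theorem int_pr (k : ℕ) : Integrable (pr r k) P :=
  integrable_bd (h.mpr' k) _ (fun ω => (h.pr_pos k ω).le) (h.pr_le k)

theorem int_prs (k : ℕ) : Integrable (fun ω => pr r k ω ^ s) P :=
  integrable_bd ((h.mpr' k).pow_const s) ((κ ^ k) ^ s)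
    (fun ω => Real.rpow_nonneg (h.pr_pos k ω).le _)
    fun ω => Real.rpow_le_rpow (h.pr_pos k ω).le (h.pr_le k ω) (zero_le_one.trans h.hs.le)

theorem e_pr (k : ℕ) : ∫ ω, pr r k ω ∂P = θ ^ k := by
  induction k with
  | zero => simp [pr]
  | succ k ih =>
    simp only [pr_succ]
    rw [h.int_mul (S := Set.Iio k) (T := {k}) (by simp) (h.mpr le_rfl) (h.meas k), ih, h.m1,
      pow_succ]

omit [IsProbabilityMeasure P] in
theorem mart {j : ℕ} {C : Set Ω} (hC : MeasurableSet[F (Set.Iio j)] C) :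
    ∫ ω in C, pr r (j + 1) ω ^ s ∂P = ∫ ω in C, pr r j ω ^ s ∂P := by
  have e : ∀ ω, pr r (j + 1) ω ^ s = pr r j ω ^ s * r j ω ^ s := fun ω => by
    rw [pr_succ, Real.mul_rpow (h.pr_pos j ω).le (h.pos j ω).le]
  simp only [e]
  rw [h.setInt_mul (S := Set.Iio j) (T := {j}) (by simp) hC ((h.mpr le_rfl).pow_const s)
    ((h.meas j).pow_const s), h.ms, mul_one]

theorem e_prs (k : ℕ) : ∫ ω, pr r k ω ^ s ∂P = 1 := by
  induction k with
  | zero => simp [pr]
  | succ k ih =>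
    have := h.mart (j := k) (C := Set.univ) MeasurableSet.univ
    rw [Measure.restrict_univ] at this
    rw [this, ih]

theorem markov {c : ℝ} (hc : 0 < c) (k : ℕ) : P.real {ω | c ≤ pr r k ω} ≤ θ ^ k / c := by
  have := mul_meas_ge_le_integral_of_nonneg (ae_of_all P fun ω => (h.pr_pos k ω).le) (h.int_pr k) c
  rw [h.e_pr] at this
  rw [le_div_iff₀ hc, mul_comm]
  exact this

theorem tail {c : ℝ} (hc : 0 < c) (m l : ℕ) :
    P.real {ω | ∃ k ∈ Ico m l, c ≤ pr r k ω} ≤ θ ^ m / (c * (1 - θ)) := by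
  have e : {ω | ∃ k ∈ Ico m l, c ≤ pr r k ω} = ⋃ k ∈ Ico m l, {ω | c ≤ pr r k ω} := by
    ext ω
    simp
  rw [e]
  refine (measureReal_biUnion_finset_le _ _).trans ((sum_le_sum fun k _ => h.markov hc k).trans ?_)
  rw [← sum_div, mul_comm, ← div_div]
  exact div_le_div_of_nonneg_right (geom_tail h.hθ0.le h.hθ m l) hc.le

theorem doob {M : ℝ} (hM : 0 < M) (d : ℕ) : ∀ (j : ℕ) (C : Set Ω),
    MeasurableSet[F (Set.Iio j)] C →
      M ^ s * P.real (C ∩ {ω | ∃ k ≤ d, M ≤ pr r (j + k) ω}) ≤ ∫ ω in C, pr r j ω ^ s ∂P := by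
  have hs0 : 0 ≤ s := zero_le_one.trans h.hs.le
  have one : ∀ (j : ℕ) (C : Set Ω), MeasurableSet[F (Set.Iio j)] C →
      M ^ s * P.real (C ∩ {ω | M ≤ pr r j ω}) ≤ ∫ ω in C ∩ {ω | M ≤ pr r j ω}, pr r j ω ^ s ∂P := by
    intro j C hC
    have hm : MeasurableSet (C ∩ {ω | M ≤ pr r j ω}) :=
      (h.le _ _ hC).inter (measurableSet_le measurable_const (h.mpr' j))
    have := setIntegral_mono_on (μ := P) (f := fun _ => M ^ s) (g := fun ω => pr r j ω ^ s)
      (integrableOn_const (by finiteness)) (h.int_prs j).integrableOn hm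
      fun ω hω => Real.rpow_le_rpow hM.le hω.2 hs0
    rwa [setIntegral_const, smul_eq_mul, mul_comm] at this
  have nn : ∀ (j : ℕ) (C : Set Ω), 0 ≤ ∫ ω in C, pr r j ω ^ s ∂P := fun j C =>
    integral_nonneg fun ω => Real.rpow_nonneg (h.pr_pos j ω).le _
  have sp : ∀ (j : ℕ) (C : Set Ω), ∫ ω in C, pr r j ω ^ s ∂P =
      (∫ ω in C ∩ {ω | M ≤ pr r j ω}, pr r j ω ^ s ∂P) +
        ∫ ω in C \ {ω | M ≤ pr r j ω}, pr r j ω ^ s ∂P := fun j C =>
    (integral_inter_add_sdiff (measurableSet_le measurable_const (h.mpr' j))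
      (h.int_prs j).integrableOn).symm
  induction d with
  | zero =>
    intro j C hC
    have e : {ω | ∃ k ≤ 0, M ≤ pr r (j + k) ω} = {ω | M ≤ pr r j ω} := by
      ext ω
      simp
    rw [e, sp]
    linarith [one j C hC, nn j (C \ {ω | M ≤ pr r j ω})]
  | succ d ih =>
    intro j C hC
    have hC' : MeasurableSet[F (Set.Iio j)] (C \ {ω | M ≤ pr r j ω}) :=
      hC.diff (measurableSet_le measurable_const (h.mpr le_rfl))
    have h1 := ih (j + 1) _ (h.mono _ _ (Set.Iio_subset_Iio (Nat.le_succ j)) _ hC')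
    rw [h.mart hC'] at h1
    have h2 : C ∩ {ω | ∃ k ≤ d + 1, M ≤ pr r (j + k) ω} ⊆ (C ∩ {ω | M ≤ pr r j ω}) ∪
        ((C \ {ω | M ≤ pr r j ω}) ∩ {ω | ∃ k ≤ d, M ≤ pr r (j + 1 + k) ω}) := by
      rintro ω ⟨hω, k, hk, hk'⟩
      by_cases h0 : M ≤ pr r j ω
      · exact Or.inl ⟨hω, h0⟩
      · refine Or.inr ⟨⟨hω, h0⟩, k - 1, by omega, ?_⟩
        have : k ≠ 0 := by
          rintro rfl
          exact h0 hk'
        rwa [show j + 1 + (k - 1) = j + k by omega]
    have h3 := (measureReal_mono (μ := P) h2).trans (measureReal_union_le _ _)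
    have h4 := mul_le_mul_of_nonneg_left h3 (Real.rpow_nonneg hM.le s)
    rw [sp]
    linarith [one j C hC]

theorem doob0 {M : ℝ} (hM : 0 < M) (d : ℕ) :
    P.real {ω | ∃ k ≤ d, M ≤ pr r k ω} ≤ (M ^ s)⁻¹ := by
  have := h.doob hM d 0 Set.univ MeasurableSet.univ
  simp only [Set.univ_inter, zero_add, Measure.restrict_univ, h.e_prs] at this
  rw [← one_div, le_div_iff₀ (Real.rpow_pos_of_pos hM s), mul_comm]
  exact this

omit [IsProbabilityMeasure P] in
theorem mset_ex {M : ℝ} {d j : ℕ} (hd : d ≤ j) :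
    MeasurableSet[F (Set.Iio j)] {ω | ∃ k ≤ d, M ≤ pr r k ω} := by
  have e : {ω | ∃ k ≤ d, M ≤ pr r k ω} = ⋃ k, ⋃ (_ : k ≤ d), {ω | M ≤ pr r k ω} := by
    ext ω
    simp
  rw [e]
  exact MeasurableSet.iUnion fun k => MeasurableSet.iUnion fun hk =>
    measurableSet_le measurable_const (h.mpr (hk.trans hd))

theorem rdoob {M : ℝ} (hM : 1 ≤ M) (d : ℕ) :
    1 ≤ (κ * M) ^ s * P.real {ω | ∃ k ≤ d, M ≤ pr r k ω} + M ^ (s - 1) * θ ^ d := by
  have hs0 : 0 ≤ s := zero_le_one.trans h.hs.le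
  have hM0 : 0 < M := zero_lt_one.trans_le hM
  have hκ0 : 0 ≤ κ := zero_le_one.trans h.hκ
  set B : ℕ → Set Ω := fun d => {ω | ∃ k ≤ d, M ≤ pr r k ω} with hB
  have hBm : ∀ d, MeasurableSet (B d) := fun d => h.le _ _ (h.mset_ex le_rfl)
  have cst : ∀ (j : ℕ) (C : Set Ω), MeasurableSet C → (∀ ω ∈ C, pr r j ω ≤ κ * M) →
      ∫ ω in C, pr r j ω ^ s ∂P ≤ (κ * M) ^ s * P.real C := by
    intro j C hC hb
    have := setIntegral_mono_on (μ := P) (g := fun _ => (κ * M) ^ s) (f := fun ω => pr r j ω ^ s)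
      (h.int_prs j).integrableOn (integrableOn_const (by finiteness)) hC
      fun ω hω => Real.rpow_le_rpow (h.pr_pos j ω).le (hb ω hω) hs0
    rwa [setIntegral_const, smul_eq_mul, mul_comm] at this
  have key : ∀ d, ∫ ω in B d, pr r d ω ^ s ∂P ≤ (κ * M) ^ s * P.real (B d) := by
    intro d
    induction d with
    | zero =>
      refine cst 0 _ (hBm 0) fun ω _ => ?_
      simpa [pr] using one_le_mul_of_one_le_of_one_le h.hκ hM
    | succ d ih =>
      have hsub : B (d + 1) ∩ B d = B d :=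
        Set.inter_eq_right.2 fun ω ⟨k, hk, hk'⟩ => ⟨k, by omega, hk'⟩
      have h1 := integral_inter_add_sdiff (μ := P) (s := B (d + 1)) (hBm d)
        (h.int_prs (d + 1)).integrableOn
      have h2 := measureReal_inter_add_sdiff (μ := P) (s := B (d + 1)) (hBm d)
      rw [hsub] at h1 h2
      have h3 := cst (d + 1) (B (d + 1) \ B d) ((hBm _).diff (hBm _)) fun ω hω => by
        have h4 : pr r d ω ≤ M := (not_le.1 fun h5 => hω.2 ⟨d, le_rfl, h5⟩).le
        rw [pr_succ, mul_comm]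
        exact mul_le_mul (h.bd d ω) h4 (h.pr_pos d ω).le hκ0
      rw [← h1, ← h2, h.mart (h.mset_ex le_rfl), mul_add]
      linarith
  have h1 := integral_add_compl (μ := P) (hBm d) (h.int_prs d)
  rw [h.e_prs] at h1
  have h2 : ∫ ω in (B d)ᶜ, pr r d ω ^ s ∂P ≤ ∫ ω in (B d)ᶜ, M ^ (s - 1) * pr r d ω ∂P :=
    setIntegral_mono_on (h.int_prs d).integrableOn ((h.int_pr d).const_mul _).integrableOn
      (hBm d).compl fun ω hω => by
        have h4 : pr r d ω ≤ M := (not_le.1 fun h5 => hω ⟨d, le_rfl, h5⟩).le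
        have h5 : pr r d ω ^ s = pr r d ω ^ (s - 1) * pr r d ω := by
          rw [Real.rpow_sub_one (h.pr_pos d ω).ne', div_mul_cancel₀ _ (h.pr_pos d ω).ne']
        rw [h5]
        exact mul_le_mul_of_nonneg_right
          (Real.rpow_le_rpow (h.pr_pos d ω).le h4 (by linarith [h.hs])) (h.pr_pos d ω).le
  have h3 : ∫ ω in (B d)ᶜ, M ^ (s - 1) * pr r d ω ∂P ≤ ∫ ω, M ^ (s - 1) * pr r d ω ∂P :=
    setIntegral_le_integral ((h.int_pr d).const_mul _) (ae_of_all _ fun ω =>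
      mul_nonneg (Real.rpow_nonneg hM0.le _) (h.pr_pos d ω).le)
  rw [integral_const_mul (μ := P), h.e_pr] at h3
  linarith [key d]

end IE

end Pool.Agent.RW
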