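import Pool.Agent.P.MP_4175a8_pr.Speed

open Finset MeasureTheory ProbabilityTheory Filter Topology

namespace Pool.Agent.RW

/-- The elliptic region. -/
def EE (ε : ℝ) : Set (ℝ × ℝ) := {z | ε < z.1 ∧ ε < z.2 ∧ z.1 + z.2 ≤ 1}

theorem mEE (ε : ℝ) : MeasurableSet (EE ε) :=
  (measurableSet_lt measurable_const measurable_fst).inter
    ((measurableSet_lt measurable_const measurable_snd).inter
      (measurableSet_le (measurable_fst.add measurable_snd) measurable_const))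

open Classical in
/-- Projection to the elliptic region. -/
noncomputable def cl (ε : ℝ) (z : ℝ × ℝ) : ℝ × ℝ := if z ∈ EE ε then z else (1 / 2, 1 / 2)

theorem mcl (ε : ℝ) : Measurable (cl ε) := Measurable.ite (mEE ε) measurable_id measurable_const

theorem cl_mem {ε : ℝ} (hε : ε < 1 / 2) (z : ℝ × ℝ) : cl ε z ∈ EE ε := by
  unfold cl
  split_ifs with h
  · exact h
  · exact ⟨hε, hε, by norm_num⟩

theorem cl_eq {ε : ℝ} {z : ℝ × ℝ} (h : z ∈ EE ε) : cl ε z = z := if_pos h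

theorem setup {Ω : Type*} [mΩ : MeasurableSpace Ω] (P : Measure Ω) [IsProbabilityMeasure P]
    (w : ℤ → Ω → ℝ × ℝ) (hw : ∀ x, Measurable (w x)) (hind : iIndepFun w P)
    (hid : ∀ x, IdentDistrib (w x) (w 0) P P) {ε : ℝ} (hε : 0 < ε) (hell : ∀ᵐ ω ∂P, w 0 ω ∈ EE ε)
    (hmin : P {ω | (w 0 ω).2 / (w 0 ω).1 < 1} ≠ 0) {s : ℝ} (hs : 1 < s)
    (hms : ∫ ω, ((w 0 ω).2 / (w 0 ω).1) ^ s ∂P = 1) :
    ∃ (e : Ω → ℤ → ℝ × ℝ) (F : Set ℤ → MeasurableSpace Ω) (κ θ am : ℝ),
      (∀ᵐ ω ∂P, e ω = fun x => w x ω) ∧ (∀ ω, Ell (e ω)) ∧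
        IE P (fun x ω => rr (e ω) x) F κ θ s ∧ IA P (fun x ω => aa (e ω) x) F κ am := by
  have hε2 : ε < 1 / 2 := by
    obtain ⟨ω, h1, h2, h3⟩ := hell.exists
    linarith
  have hall : ∀ᵐ ω ∂P, ∀ x, w x ω ∈ EE ε :=
    ae_all_iff.2 fun x => (hid x).symm.ae_mem_snd (mEE ε) hell
  set f : ℝ × ℝ → ℝ := fun z => (cl ε z).2 / (cl ε z).1 with hf
  set g : ℝ × ℝ → ℝ := fun z => (cl ε z).1⁻¹ with hg
  have mf : Measurable f := (mcl ε).snd.div (mcl ε).fst
  have mg : Measurable g := (mcl ε).fst.inv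
  have hp : ∀ z, 0 < (cl ε z).1 := fun z => hε.trans (cl_mem hε2 z).1
  have hq : ∀ z, 0 < (cl ε z).2 := fun z => hε.trans (cl_mem hε2 z).2.1
  have f0 : ∀ z, 0 < f z := fun z => div_pos (hq z) (hp z)
  have g1 : ∀ z, g z ≤ ε⁻¹ := fun z => inv_anti₀ hε (cl_mem hε2 z).1.le
  have f1 : ∀ z, f z ≤ ε⁻¹ := fun z => by
    refine le_trans ?_ (g1 z)
    simp only [hf, hg, div_eq_mul_inv]
    exact mul_le_of_le_one_left (inv_pos.2 (hp z)).le (by linarith [hp z, (cl_mem hε2 z).2.2])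
  have hE : ∀ ω, Ell fun x => cl ε (w x ω) := fun ω x => ⟨hp _, hq _, (cl_mem hε2 _).2.2⟩
  have mF : ∀ (i : ℤ) {φ : ℝ × ℝ → ℝ}, Measurable φ →
      Measurable[⨆ j ∈ ({i} : Set ℤ), MeasurableSpace.comap (w j) inferInstance]
        fun ω => φ (w i ω) := fun i φ hφ =>
    hφ.comp ((comap_measurable (w i)).mono (le_iSup₂_of_le i (Set.mem_singleton i) le_rfl) le_rfl)
  have hf0 : ∀ᵐ ω ∂P, f (w 0 ω) = (w 0 ω).2 / (w 0 ω).1 := by
    filter_upwards [hell] with ω h
    simp only [hf, cl_eq h]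
  have hms' : ∫ ω, f (w 0 ω) ^ s ∂P = 1 := by
    rw [← hms]
    refine integral_congr_ae ?_
    filter_upwards [hf0] with ω h
    rw [h]
  have i1 : Integrable (fun ω => f (w 0 ω)) P :=
    integrable_bd (mf.comp (hw 0)) _ (fun ω => (f0 _).le) fun ω => f1 _
  have i2 : Integrable (fun ω => f (w 0 ω) ^ s) P :=
    integrable_bd ((mf.comp (hw 0)).pow_const s) (ε⁻¹ ^ s) (fun ω => Real.rpow_nonneg (f0 _).le _)
      fun ω => Real.rpow_le_rpow (f0 _).le (f1 _) (by linarith)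
  refine ⟨fun ω x => cl ε (w x ω), fun S => ⨆ j ∈ S, MeasurableSpace.comap (w j) inferInstance,
    ε⁻¹, ∫ ω, f (w 0 ω) ∂P, ∫ ω, g (w 0 ω) ∂P, ?_, hE,
    ⟨fun S => iSup₂_le fun j _ => (hw j).comap_le, fun S T h => biSup_mono h,
      fun S T h => indep_iSup_of_disjoint (fun j => (hw j).comap_le) hind.iIndep h,
      fun i => mF i mf, fun i ω => f0 _, fun i ω => f1 _, fun i => ((hid i).comp mf).integral_eq,
      fun i => (((hid i).comp (mf.pow_const s)).integral_eq).trans hms',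
      (one_le_inv₀ hε).2 (by linarith), ?_, ?_, hs⟩,
    ⟨fun i => mF i mg, fun i ω => (hE ω).one_le_aa i, fun i ω => g1 _,
      fun i => ((hid i).comp mg).integral_eq⟩⟩
  · filter_upwards [hall] with ω h
    exact funext fun x => cl_eq (h x)
  · rw [integral_pos_iff_support_of_nonneg (fun ω => (f0 _).le) i1,
      Set.eq_univ_of_forall (s := Function.support _) fun ω => (f0 (w 0 ω)).ne']
    simp
  · have h1 : ∀ ω, 0 ≤ f (w 0 ω) ^ s - (1 + s * (f (w 0 ω) - 1)) := fun ω => by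
      have := one_add_mul_self_le_rpow_one_add (s := f (w 0 ω) - 1) (by linarith [f0 (w 0 ω)]) hs.le
      rw [add_sub_cancel] at this
      linarith
    have i4 : Integrable (fun ω => s * (f (w 0 ω) - 1)) P :=
      (i1.sub (integrable_const 1)).const_mul s
    have i3 : Integrable (fun ω => 1 + s * (f (w 0 ω) - 1)) P := (integrable_const 1).add i4
    have h2 := (integral_pos_iff_support_of_nonneg h1 (i2.sub i3)).2 (pos_iff_ne_zero.2 fun h0 =>
      hmin (measure_mono_null_ae ?_ h0))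
    · rw [integral_sub i2 i3, hms', integral_add (integrable_const 1) i4, integral_const_mul,
        integral_sub i1 (integrable_const 1)] at h2
      simp only [integral_const, probReal_univ, smul_eq_mul, mul_one] at h2
      nlinarith
    · filter_upwards [hf0] with ω h h3
      have h4 : f (w 0 ω) < 1 := h ▸ h3
      have := one_add_mul_self_lt_rpow_one_add (s := f (w 0 ω) - 1) (by linarith [f0 (w 0 ω)])
        (by linarith) hs
      rw [add_sub_cancel] at this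
      exact (sub_pos.2 this).ne'

end Pool.Agent.RW
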