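import Pool.Agent.P.MP_4175a8_pr.TailD

open Finset MeasureTheory ProbabilityTheory Filter

namespace Pool.Agent.RW

/-- None of the first `j` events occurs. -/
def NN {Ω : Type*} (E : ℕ → Set Ω) (j : ℕ) : Set Ω := {ω | ∀ i < j, ω ∉ E i}

theorem mNN {Ω : Type*} {m : MeasurableSpace Ω} {E : ℕ → Set Ω} {j : ℕ}
    (h : ∀ i < j, MeasurableSet (E i)) : MeasurableSet (NN E j) := by
  have e : NN E j = ⋂ i, ⋂ (_ : i < j), (E i)ᶜ := by
    ext ω
    simp [NN]
  rw [e]
  exact MeasurableSet.iInter fun i => MeasurableSet.iInter fun hi => (h i hi).compl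

variable {Ω : Type*} [MeasurableSpace Ω] {P : Measure Ω} [IsProbabilityMeasure P]
  {E : ℕ → Set Ω}

theorem NN_zero : P.real (NN E 0) = 1 := by
  have e : NN E 0 = Set.univ := by
    ext ω
    simp [NN]
  rw [e, probReal_univ]

theorem NN_succ {j : ℕ} (h : MeasurableSet (E j)) :
    P.real (NN E (j + 1)) = P.real (NN E j) - P.real (E j ∩ NN E j) := by
  have e : NN E (j + 1) = NN E j \ E j := by
    ext ω
    simp only [NN, Set.mem_ofPred_eq, Set.mem_sdiff, Nat.forall_lt_succ_right]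
  rw [e, Set.inter_comm, ← measureReal_inter_add_sdiff (μ := P) (s := NN E j) h]
  ring

theorem prod_ind {q : ℕ → ℝ} (J : ℕ) (hm : ∀ j, MeasurableSet (E j))
    (h : ∀ j < J, q j * P.real (NN E j) ≤ P.real (E j ∩ NN E j)) :
    P.real (NN E J) ≤ Real.exp (-∑ j ∈ range J, q j) := by
  induction J with
  | zero => simp [NN_zero]
  | succ J ih =>
    have h1 := ih fun j hj => h j (by omega)
    have h2 := h J (Nat.lt_succ_self J)
    have h3 := mul_le_mul_of_nonneg_right (Real.add_one_le_exp (-q J))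
      (measureReal_nonneg (μ := P) (s := NN E J))
    have h4 := mul_le_mul_of_nonneg_left h1 (Real.exp_pos (-q J)).le
    rw [NN_succ (hm J), sum_range_succ, neg_add, Real.exp_add]
    nlinarith

theorem one_dep {p : ℝ} (hp : p ≤ 1 / 4) (hp0 : 0 ≤ p) (hm : ∀ j, MeasurableSet (E j))
    (h0 : P.real (E 0) ≤ p) (h : ∀ j, P.real (E (j + 1) ∩ NN E j) ≤ p * P.real (NN E j)) (J : ℕ) :
    Real.exp (-(4 * p * J)) ≤ P.real (NN E J) := by
  have key : ∀ j, (1 - 2 * p) * P.real (NN E j) ≤ P.real (NN E (j + 1)) := by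
    intro j
    induction j with
    | zero =>
      have := rmono (P := P) (Set.inter_subset_left (s := E 0) (t := NN E 0))
      rw [NN_succ (hm 0), NN_zero]
      linarith
    | succ j ih =>
      have h1 : P.real (E (j + 1) ∩ NN E (j + 1)) ≤ P.real (E (j + 1) ∩ NN E j) :=
        rmono fun ω hω => ⟨hω.1, fun i hi => hω.2 i (by omega)⟩
      have h2 := h j
      have h3 : 0 ≤ P.real (NN E j) := measureReal_nonneg
      have h4 : P.real (NN E j) ≤ 2 * P.real (NN E (j + 1)) := by nlinarith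
      rw [NN_succ (hm (j + 1))]
      nlinarith [mul_le_mul_of_nonneg_left h4 hp0]
  have h1 : Real.exp (-(4 * p)) ≤ 1 - 2 * p := by
    rw [Real.exp_neg, inv_le_iff_one_le_mul₀ (Real.exp_pos _)]
    nlinarith [Real.add_one_le_exp (4 * p)]
  induction J with
  | zero => simp [NN_zero]
  | succ J ih =>
    refine le_trans ?_ (key J)
    push_cast
    rw [mul_add, mul_one, neg_add, Real.exp_add, mul_comm]
    exact mul_le_mul h1 ih (Real.exp_pos _).le (by linarith)

theorem bonf (Q : ℕ) (hm : ∀ j, MeasurableSet (E j))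
    (h : ∀ m < Q, ∑ i ∈ range m, P.real (E i ∩ E m) ≤ P.real (E m) / 2) :
    P.real (NN E Q) ≤ 1 - (∑ m ∈ range Q, P.real (E m)) / 2 := by
  induction Q with
  | zero => simp [NN_zero]
  | succ Q ih =>
    have h1 := ih fun m hm => h m (by omega)
    have h2 := h Q (Nat.lt_succ_self Q)
    have h3 : E Q ⊆ (E Q ∩ NN E Q) ∪ ⋃ i ∈ range Q, E i ∩ E Q := by
      intro ω hω
      by_cases h4 : ω ∈ NN E Q
      · exact Or.inl ⟨hω, h4⟩
      · simp only [NN, Set.mem_ofPred_eq, not_forall, not_not] at h4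
        obtain ⟨i, hi, h5⟩ := h4
        exact Or.inr (Set.mem_iUnion₂.2 ⟨i, mem_range.2 hi, h5, hω⟩)
    have h4 := (rmono (P := P) h3).trans ((measureReal_union_le _ _).trans
      (add_le_add le_rfl (measureReal_biUnion_finset_le _ _)))
    rw [NN_succ (hm Q), sum_range_succ]
    linarith

theorem bc1 {b : ℕ → ℝ} (hb : Summable b) (h : ∀ᶠ k in atTop, P.real (E k) ≤ b k) :
    ∀ᵐ ω ∂P, ∀ᶠ k in atTop, ω ∉ E k := by
  obtain ⟨N, hN⟩ := eventually_atTop.1 h
  have h1 : Summable fun k => P.real (E (k + N)) :=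
    Summable.of_nonneg_of_le (fun _ => measureReal_nonneg) (fun k => hN _ (Nat.le_add_left _ _))
      ((summable_nat_add_iff N).2 hb)
  have h2 : ∑' k, P (E (k + N)) ≠ ⊤ := by
    have e : ∀ k, P (E (k + N)) = ENNReal.ofReal (P.real (E (k + N))) := fun k =>
      (ofReal_measureReal (measure_ne_top _ _)).symm
    simp only [e]
    exact h1.tsum_ofReal_ne_top
  filter_upwards [ae_eventually_notMem h2] with ω hω
  obtain ⟨K, hK⟩ := eventually_atTop.1 hω
  filter_upwards [eventually_ge_atTop (K + N)] with k hk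
  have := hK (k - N) (by omega)
  rwa [show k - N + N = k by omega] at this

/-- the second Borel-Cantelli lemma in the form used here -/
theorem bc2 (hm : ∀ j, MeasurableSet (E j)) (k₀ : ℕ)
    (h : ∀ a, k₀ ≤ a → ∀ j, ((a + j : ℕ) : ℝ)⁻¹ * P.real (NN (fun i => E (a + i)) j) ≤
      P.real (E (a + j) ∩ NN (fun i => E (a + i)) j)) :
    ∀ᵐ ω ∂P, ∃ᶠ k in atTop, ω ∈ E k := by
  have key : ∀ a, ∀ᵐ ω ∂P, k₀ ≤ a → ∃ j, ω ∈ E (a + j) := by
    intro a
    by_cases ha : k₀ ≤ a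
    · have h1 : ∀ J, P.real {ω | ¬ (k₀ ≤ a → ∃ j, ω ∈ E (a + j))} ≤
          Real.exp (-∑ j ∈ range J, ((a + j : ℕ) : ℝ)⁻¹) := fun J =>
        le_trans (rmono (T := NN (fun i => E (a + i)) J) fun ω hω i _ hi => hω fun _ => ⟨i, hi⟩)
          (prod_ind (E := fun i => E (a + i)) J (fun j => hm _) fun j _ => h a ha j)
      have h2 : ¬ Summable fun j : ℕ => ((a + j : ℕ) : ℝ)⁻¹ := by
        simp only [add_comm a]
        rw [summable_nat_add_iff (f := fun j : ℕ => (j : ℝ)⁻¹)]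
        exact Real.not_summable_natCast_inv
      have h3 := (not_summable_iff_tendsto_nat_atTop_of_nonneg fun j => by positivity).1 h2
      have h4 := Real.tendsto_exp_neg_atTop_nhds_zero.comp h3
      have h5 := ge_of_tendsto' h4 h1
      rw [ae_iff]
      exact (measureReal_eq_zero_iff (measure_ne_top _ _)).1 (le_antisymm h5 measureReal_nonneg)
    · exact ae_of_all _ fun ω h => absurd h ha
  filter_upwards [ae_all_iff.2 key] with ω hω
  refine frequently_atTop.2 fun a => ?_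
  obtain ⟨j, hj⟩ := hω (max a k₀) (le_max_right _ _)
  exact ⟨_, (le_max_left _ _).trans (Nat.le_add_right _ _), hj⟩

omit [IsProbabilityMeasure P] in
theorem grid_ae {Q : ℕ → Ω → Prop} (h : ∀ c, 0 < c → ∀ᵐ ω ∂P, ∀ᶠ j in atTop, Q (c * 2 ^ j) ω)
    {r : ℕ} (hr : 0 < r) : ∀ᵐ ω ∂P, ∀ᶠ n in atTop,
      (∃ g, Q g ω ∧ g ≤ n ∧ r * n ≤ (r + 1) * g) ∧ ∃ g, Q g ω ∧ n ≤ g ∧ r * g ≤ (r + 1) * n := by
  have h1 : ∀ᵐ ω ∂P, ∀ c, 0 < c → ∀ᶠ j in atTop, Q (c * 2 ^ j) ω :=
    ae_all_iff.2 fun c => by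
      by_cases hc : 0 < c
      · filter_upwards [h c hc] with ω hω _ using hω
      · exact ae_of_all _ fun ω h => absurd h hc
  filter_upwards [h1] with ω hω
  have h2 : ∀ᶠ j in atTop, ∀ c ∈ Icc r (2 * r), Q (c * 2 ^ j) ω :=
    (eventually_all_finset _).2 fun c hc => hω c (hr.trans_le (mem_Icc.1 hc).1)
  obtain ⟨J, hJ⟩ := eventually_atTop.1 h2
  filter_upwards [eventually_ge_atTop (r * 2 ^ J)] with n hn
  have h3 : 2 ^ J ≤ n / r := (Nat.le_div_iff_mul_le hr).2 (by rwa [mul_comm])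
  have h4 : n / r ≠ 0 := (lt_of_lt_of_le (by positivity) h3).ne'
  set j := Nat.log 2 (n / r)
  have h5 : J ≤ j := Nat.le_log_of_pow_le one_lt_two h3
  have h6 : 2 ^ j ≤ n / r := Nat.pow_log_le_self 2 h4
  have h7 : n / r < 2 ^ (j + 1) := Nat.lt_pow_succ_log_self one_lt_two _
  have hp : 0 < 2 ^ j := by positivity
  have h8 : r ≤ n / 2 ^ j := (Nat.le_div_iff_mul_le hp).2
    (by rw [mul_comm]; exact (Nat.le_div_iff_mul_le hr).1 h6)
  have h9 : n / 2 ^ j < 2 * r := (Nat.div_lt_iff_lt_mul hp).2 (by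
    have := (Nat.div_lt_iff_lt_mul hr).1 h7
    rw [pow_succ] at this
    nlinarith)
  have h10 := Nat.div_mul_le_self n (2 ^ j)
  have h11 := Nat.lt_div_mul_add (a := n) hp
  set c := n / 2 ^ j
  refine ⟨⟨c * 2 ^ j, hJ j h5 c (mem_Icc.2 ⟨h8, h9.le⟩), h10, by nlinarith⟩,
    (c + 1) * 2 ^ j, hJ j h5 (c + 1) (mem_Icc.2 ⟨by omega, h9⟩), by nlinarith, by nlinarith⟩

end Pool.Agent.RW
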