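import Pool.Agent.P.MP_4175a8_pr.Ev

open Finset MeasureTheory ProbabilityTheory Filter

namespace Pool.Agent.RW

/-- The sparse sequence of times. -/
def nn (k : ℕ) : ℕ := 2 ^ k ^ 2

theorem nn_mono {i k : ℕ} (h : i ≤ k) : nn i ≤ nn k :=
  Nat.pow_le_pow_right two_pos (Nat.pow_le_pow_left h 2)

theorem nn_pos (k : ℕ) : 0 < nn k := Nat.two_pow_pos _

theorem tendsto_nn : Tendsto nn atTop atTop :=
  tendsto_atTop_mono (fun k => (Nat.le_self_pow two_ne_zero k).trans Nat.lt_two_pow_self.le)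
    tendsto_id

theorem LL_nn (B k : ℕ) : LL B (nn k) = B * (k ^ 2 + 1) := by rw [LL, nn, Nat.log_pow one_lt_two]

theorem ll_nn {k : ℕ} (hk : 0 < k) : ll (nn k) ≤ 2 * Real.log k := by
  have hk' : (0 : ℝ) < k := by exact_mod_cast hk
  have h5 : Real.log 2 ≤ 1 := by linarith [Real.log_le_sub_one_of_pos two_pos]
  have h6 := Real.log_pos one_lt_two
  have e : Real.log (nn k) = (k : ℝ) ^ 2 * Real.log 2 := by
    rw [nn]
    push_cast
    rw [Real.log_pow]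
    push_cast
    rfl
  have h7 := Real.log_le_log (x := (k : ℝ) ^ 2 * Real.log 2) (y := (k : ℝ) ^ 2) (by positivity)
    (mul_le_of_le_one_right (by positivity) h5)
  rw [Real.log_pow] at h7
  rw [ll, e]
  exact_mod_cast h7

theorem nn_pred {k : ℕ} (hk : 0 < k) : nn (k - 1) * 2 ^ k ≤ nn k := by
  obtain ⟨m, rfl⟩ := Nat.exists_eq_succ_of_ne_zero hk.ne'
  rw [nn, nn, ← pow_add]
  exact Nat.pow_le_pow_right two_pos (by simp only [Nat.succ_eq_add_one, Nat.add_sub_cancel]; nlinarith)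

/-- A deep trap in the `j`-th block, when that block lies in `S`. -/
def GG {Ω : Type*} (r : ℤ → Ω → ℝ) (S : Set ℤ) (y : ℤ) (L : ℕ) (t : ℝ) (j : ℕ) : Set Ω :=
  {ω | (∀ i < 4 * L, y + (2 * j * L : ℕ) + (i : ℕ) ∈ S) ∧ ω ∈ Bad r (y + (2 * j * L : ℕ)) (4 * L) t}

namespace IE

variable {Ω : Type*} [mΩ : MeasurableSpace Ω] {P : Measure Ω} [IsProbabilityMeasure P]
  {κ θ s : ℝ} {r : ℤ → Ω → ℝ} {F : Set ℤ → MeasurableSpace Ω} (h : IE P r F κ θ s)
include h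

omit [IsProbabilityMeasure P] in
theorem mGG {S T : Set ℤ} {y : ℤ} {L j : ℕ} (t : ℝ)
    (hT : ∀ i < 4 * L, y + (2 * j * L : ℕ) + (i : ℕ) ∈ S → y + (2 * j * L : ℕ) + (i : ℕ) ∈ T) :
    MeasurableSet[F T] (GG r S y L t j) := by
  by_cases hS : ∀ i < 4 * L, y + (2 * j * L : ℕ) + (i : ℕ) ∈ S
  · have e : GG r S y L t j = Bad r (y + (2 * j * L : ℕ)) (4 * L) t := by
      ext ω
      exact ⟨fun h1 => h1.2, fun h1 => ⟨hS, h1⟩⟩
    rw [e]
    exact h.mBad (fun i hi => hT i hi (hS i hi)) t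
  · have e : GG r S y L t j = ∅ := Set.eq_empty_of_forall_notMem fun ω h1 => hS h1.1
    rw [e]
    exact @MeasurableSet.empty _ (F T)

theorem nodeep {p t : ℝ} {L : ℕ} (hp : p ≤ 1 / 4) (hb : ∀ y, P.real (Bad r y (4 * L) t) ≤ p)
    (S : Set ℤ) (y : ℤ) (J : ℕ) :
    Real.exp (-(4 * p * J)) ≤ P.real (NN (GG r S y L t) J) := by
  have h1 : ∀ j, P.real (GG r S y L t j) ≤ p := fun j => (rmono fun ω hω => hω.2).trans (hb _)
  refine one_dep (E := GG r S y L t) hp (measureReal_nonneg.trans (hb 0))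
    (fun j => h.le Set.univ _ (h.mGG t fun _ _ _ => trivial)) (h1 0) (fun j => ?_) J
  rw [h.real_inter (S := Set.Ici (y + (2 * (j + 1) * L : ℕ))) (T := Set.Iio (y + (2 * (j + 1) * L : ℕ)))
    (Set.Iio_disjoint_Ici le_rfl).symm (h.mGG t fun i _ _ => by simp)
    (mNN fun i hi => h.mGG t fun k hk _ => by
      have : 2 * i * L + k < 2 * (j + 1) * L := by nlinarith
      rw [Set.mem_Iio, add_assoc, ← Nat.cast_add]
      omega)]
  exact mul_le_mul_of_nonneg_right (h1 _) measureReal_nonneg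

theorem ev_bad {B : ℕ} (hB : 0 < B) : ∀ᶠ n : ℕ in atTop, ∀ y,
    P.real (Bad r y (4 * LL B n) ((64 * C0 κ θ s + 1) * sc s n)) ≤ LL B n * ll n / (16 * n) := by
  have hC := h.C0_nonneg
  set K := 64 * C0 κ θ s + 1 with hK
  have hK1 : 1 ≤ K := by linarith
  have hKs : K ≤ K ^ s := by simpa using Real.rpow_le_rpow_of_exponent_le hK1 h.hs.le
  filter_upwards [ev_le_sc h.hs B 6 (4 ^ 6), ev_ll, eventually_gt_atTop 0] with n h1 h2 h3 y
  have hsc := sc_pos (s := s) h3 h2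
  have hL0 : 0 < LL B n := hB.trans_le (le_LL B n)
  have hn : (0 : ℝ) < n := by exact_mod_cast h3
  have hl : 0 < ll n := by linarith
  refine (h.tailD (by omega) ?_ y).trans ?_
  · push_cast
    rw [mul_pow]
    exact h1.trans (le_mul_of_one_le_left hsc.le hK1)
  · rw [Real.mul_rpow (by linarith) hsc.le, sc_rpow h.hs h2, ← div_eq_mul_inv,
      div_le_div_iff₀ (by positivity) (by positivity)]
    have e : (LL B n : ℝ) * ll n * (K ^ s * (n / ll n)) = K ^ s * (LL B n * n) := by field_simp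
    rw [e]
    push_cast
    have : (0 : ℝ) ≤ LL B n * n := by positivity
    nlinarith

theorem outer {L n k : ℕ} {t l : ℝ} (hL : 0 < L) (hk : 0 < k)
    (h2 : ∀ y, P.real (Bad r y (4 * L) t) ≤ L * l / (16 * n)) (h3 : 4 * L ≤ n) (h4 : 1 ≤ l)
    (h5 : l ≤ L) (h6 : (L : ℝ) ^ 2 ≤ n) (h7 : l ≤ 2 * Real.log k) (S : Set ℤ) (y : ℤ) :
    (k : ℝ)⁻¹ ≤ P.real (NN (GG r S y L t) ((2 * n + 1) / (2 * L) + 1)) := by
  have hn1 : (1 : ℝ) ≤ n := by exact_mod_cast (show 1 ≤ n by omega)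
  have hn : (0 : ℝ) < n := by linarith
  have hL' : (0 : ℝ) < L := by exact_mod_cast hL
  have h3' : (4 : ℝ) * L ≤ n := by exact_mod_cast h3
  refine le_trans ?_ (h.nodeep ?_ h2 _ _ _)
  · have h9 : (2 * n + 1) / (2 * L) * (2 * L) ≤ 2 * n + 1 := Nat.div_mul_le_self _ _
    generalize (2 * n + 1) / (2 * L) = J at h9
    have h10 : (J : ℝ) * (2 * L) ≤ 2 * n + 1 := by exact_mod_cast h9
    have h8 : ((J + 1 : ℕ) : ℝ) * L ≤ 2 * n := by
      push_cast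
      linarith
    rw [← Real.exp_log (show (0 : ℝ) < k by exact_mod_cast hk), ← Real.exp_neg]
    refine Real.exp_le_exp.2 (neg_le_neg ?_)
    rw [← mul_div_assoc, div_mul_eq_mul_div, div_le_iff₀ (by positivity)]
    have h11 := mul_le_mul_of_nonneg_left h8 (show 0 ≤ l by linarith)
    have h12 := mul_le_mul_of_nonneg_right h7 hn.le
    have h13 := mul_nonneg (show 0 ≤ l by linarith) hn.le
    linarith
  · rw [div_le_iff₀ (by positivity)]
    nlinarith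

omit h [IsProbabilityMeasure P] in
theorem inner {B L n n' k : ℕ} {t l : ℝ} (hL : 0 < L) (hn' : 0 < n')
    (h2 : ∀ y, P.real (Bad r y (4 * L) t) ≤ L * l / (16 * n)) (h4 : 1 ≤ l)
    (h5 : l ≤ L) (h6 : n' * 2 ^ k ≤ n) (h7 : L ≤ 2 * B * k ^ 2) :
    P.real (⋃ y ∈ Icc (-(2 * n' + 4 * L : ℕ) : ℤ) (2 * n' : ℕ), Bad r y (4 * L) t) ≤
      8 * B ^ 3 * ((k : ℝ) ^ 6 * (1 / 2) ^ k) := by
  refine (measureReal_biUnion_finset_le _ _).trans
    ((sum_le_card_nsmul _ _ _ fun y _ => h2 y).trans ?_)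
  have e : (Icc (-(2 * n' + 4 * L : ℕ) : ℤ) (2 * n' : ℕ)).card = 4 * n' + 4 * L + 1 := by
    rw [Int.card_Icc]
    omega
  have hn : (0 : ℝ) < n := by exact_mod_cast lt_of_lt_of_le (by positivity) h6
  have hn1 : (1 : ℝ) ≤ n' := by exact_mod_cast hn'
  have hL' : (1 : ℝ) ≤ L := by exact_mod_cast hL
  have h8 : (n' : ℝ) * 2 ^ k ≤ n := by exact_mod_cast h6
  have h9 : (L : ℝ) ≤ 2 * B * k ^ 2 := by exact_mod_cast h7
  have h10 := pow_le_pow_left₀ (by linarith) h9 3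
  rw [e, nsmul_eq_mul, ← mul_div_assoc, div_le_iff₀ (by positivity)]
  push_cast
  have h11 : 4 * (n' : ℝ) + 4 * L + 1 ≤ 16 * (n' * L) := by nlinarith
  have h12 : L * l ≤ L * L := mul_le_mul_of_nonneg_left h5 (by linarith)
  have h13 := mul_le_mul h11 h12 (by positivity) (by positivity)
  have h14 : (n' : ℝ) ≤ (1 / 2) ^ k * n := by
    rwa [one_div, inv_pow, ← div_eq_inv_mul, le_div_iff₀ (by positivity)]
  have h15 := mul_le_mul h14 h10 (by positivity) (by positivity)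
  linarith

theorem ev_nodeep {B : ℕ} (hB : 0 < B) : ∀ᵐ ω ∂P, ∃ᶠ n : ℕ in atTop, ∀ j : ℕ,
    2 * j * LL B n ≤ 2 * n + 1 →
      ω ∉ Bad r (-n + (2 * j * LL B n : ℕ)) (4 * LL B n) ((64 * C0 κ θ s + 1) * sc s n) := by
  have hL : ∀ n, 0 < LL B n := fun n => hB.trans_le (le_LL B n)
  have h0 : ∀ᶠ n : ℕ in atTop, (∀ y, P.real (Bad r y (4 * LL B n)
      ((64 * C0 κ θ s + 1) * sc s n)) ≤ LL B n * ll n / (16 * n)) ∧ 4 * LL B n ≤ n ∧ 1 ≤ ll n ∧
        ll n ≤ LL B n ∧ (LL B n : ℝ) ^ 2 ≤ n := by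
    filter_upwards [h.ev_bad hB, ev_LL_lin B (show (0 : ℝ) < 1 / 4 by norm_num), ev_ll,
      ev_LL_le B 2 1 one_pos, eventually_ge_atTop 2] with n h1 h2 h3 h4 h5
    refine ⟨h1, ?_, h3, (ll_le h5).trans ?_, by simpa using h4⟩
    · have : (4 : ℝ) * LL B n ≤ n := by linarith
      exact_mod_cast this
    · exact_mod_cast Nat.mul_le_mul_right _ hB
  generalize 64 * C0 κ θ s + 1 = K at h0
  have h0' := (tendsto_nn.eventually h0).and (eventually_gt_atTop 0)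
  obtain ⟨S, hS⟩ : ∃ S : ℕ → Set ℤ, ∀ k x, x ∈ S k ↔ (x < -(2 * nn (k - 1) : ℕ) ∨
      (2 * nn (k - 1) : ℕ) < x) ∧ -(2 * nn k : ℕ) ≤ x ∧ x ≤ (2 * nn k : ℕ) :=
    ⟨fun k => {x | (x < -(2 * nn (k - 1) : ℕ) ∨ (2 * nn (k - 1) : ℕ) < x) ∧
      -(2 * nn k : ℕ) ≤ x ∧ x ≤ (2 * nn k : ℕ)}, fun _ _ => Iff.rfl⟩
  obtain ⟨E, hE⟩ : ∃ E : ℕ → Set Ω, ∀ k, E k = NN (GG r (S k) (-nn k) (LL B (nn k))
    (K * sc s (nn k))) ((2 * nn k + 1) / (2 * LL B (nn k)) + 1) := ⟨_, fun _ => rfl⟩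
  have hEm : ∀ k T, S k ⊆ T → MeasurableSet[F T] (E k) := fun k T hT => by
    rw [hE]
    exact mNN fun j _ => h.mGG _ fun i _ hi => hT hi
  obtain ⟨k₀, hk₀⟩ := eventually_atTop.1 h0'
  have h1 := bc2 (P := P) (E := E) (fun k => h.le _ _ (hEm k _ le_rfl)) k₀ fun a ha j => by
    obtain ⟨⟨h2, h3, h4, h5, h6⟩, h7⟩ := hk₀ (a + j) (ha.trans (Nat.le_add_right _ _))
    rw [h.real_inter (S := S (a + j))
      (T := Set.Icc (-(2 * nn (a + j - 1) : ℕ) : ℤ) (2 * nn (a + j - 1) : ℕ))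
      (Set.disjoint_left.2 fun x hx hx' => by
        have := ((hS _ _).1 hx).1
        have := hx'.1
        have := hx'.2
        omega) (hEm _ _ le_rfl) (mNN fun i hi => hEm _ _ fun x hx => by
        have := ((hS _ _).1 hx).2
        have := nn_mono (show a + i ≤ a + j - 1 by omega)
        exact ⟨by omega, by omega⟩), hE]
    exact mul_le_mul_of_nonneg_right (h.outer (hL _) h7 h2 h3 h4 h5 h6 (ll_nn h7) _ _)
      measureReal_nonneg
  have hsum : Summable fun k : ℕ => 8 * (B : ℝ) ^ 3 * ((k : ℝ) ^ 6 * (1 / 2) ^ k) :=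
    (summable_pow_mul_geometric_of_norm_lt_one (R := ℝ) 6 (r := 1 / 2) (by norm_num)).mul_left
      (8 * (B : ℝ) ^ 3)
  have h2 := bc1 (P := P) (E := fun k => ⋃ y ∈ Icc (-(2 * nn (k - 1) + 4 * LL B (nn k) : ℕ) : ℤ)
      (2 * nn (k - 1) : ℕ), Bad r y (4 * LL B (nn k)) (K * sc s (nn k))) hsum
    (h0'.mono fun k ⟨⟨h2, _, h4, h5, _⟩, h7⟩ => inner (hL _) (nn_pos _) h2 h4 h5 (nn_pred h7) (by
      have := Nat.mul_le_mul_left B (Nat.one_le_pow 2 k h7)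
      rw [LL_nn, mul_add, mul_assoc, two_mul]
      omega))
  filter_upwards [h1, h2] with ω h3 h4
  refine tendsto_nn.frequently ((h3.and_eventually (h4.and h0')).mono ?_)
  rintro k ⟨h5, h6, ⟨-, h7, -⟩, -⟩ j hj hb
  rw [hE] at h5
  by_cases h8 : ∀ i < 4 * LL B (nn k), (-nn k : ℤ) + (2 * j * LL B (nn k) : ℕ) + (i : ℕ) ∈ S k
  · refine h5 j (Nat.lt_succ_of_le ((Nat.le_div_iff_mul_le (by have := hL (nn k); omega)).2 ?_))
      ⟨h8, hb⟩
    rwa [← mul_assoc, mul_comm j 2]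
  · simp only [hS, not_forall] at h8
    obtain ⟨i, hi, h9⟩ := h8
    exact h6 (Set.mem_iUnion₂.2 ⟨_, mem_Icc.2 ⟨by omega, by omega⟩, hb⟩)

end IE

end Pool.Agent.RW
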