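import Mathlib

namespace Pool.Agent.RW

open Classical in
/-- `law e A n x` is the probability that the walk in the environment `e`, started at `x`, is in
`A` at time `n`.  From `x` the walk moves to `x + 1` with probability `(e x).1`, to `x - 1` with
probability `(e x).2`, and stays at `x` otherwise. -/
noncomputable def law (e : ℤ → ℝ × ℝ) (A : Set ℤ) : ℕ → ℤ → ℝ
  | 0, x => if x ∈ A then 1 else 0
  | n + 1, x => (e x).1 * law e A n (x + 1) + (e x).2 * law e A n (x - 1) +
      (1 - (e x).1 - (e x).2) * law e A n x

end Pool.Agent.RW
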