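import Pool.Agent.P.MP_4175a8_pr.Defs

open Finset

namespace Pool.Agent.RW

/-- The recursion for expected crossing times. -/
def tau (a ρ : ℕ → ℝ) : ℕ → ℝ
  | 0 => 0
  | i + 1 => a i + ρ i * tau a ρ i

theorem tau_nonneg {a ρ : ℕ → ℝ} (ha : ∀ i, 0 ≤ a i) (hρ : ∀ i, 0 ≤ ρ i) (i : ℕ) :
    0 ≤ tau a ρ i := by
  induction i with
  | zero => exact le_rfl
  | succ i ih => exact add_nonneg (ha i) (mul_nonneg (hρ i) ih)

theorem tau_eq_sum (a ρ : ℕ → ℝ) (x : ℕ) :
    tau a ρ (x + 1) = ∑ k ∈ range (x + 1), a (x - k) * ∏ i ∈ range k, ρ (x - i) := by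
  induction x with
  | zero => simp [tau]
  | succ x ih =>
    rw [tau, ih, sum_range_succ' _ (x + 1), mul_sum, add_comm]
    congr 1
    · refine sum_congr rfl fun k _ => ?_
      rw [prod_range_succ']
      simp only [Nat.add_sub_add_right, Nat.sub_zero]
      ring
    · simp

theorem tau_add (a ρ : ℕ → ℝ) (x k : ℕ) :
    tau a ρ (x + k) = tau (fun i => a (x + i)) (fun i => ρ (x + i)) k +
      (∏ i ∈ range k, ρ (x + i)) * tau a ρ x := by
  induction k with
  | zero => simp [tau]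
  | succ k ih =>
    rw [← add_assoc, tau, ih, tau, prod_range_succ]
    ring

theorem one_le_prd {ι : Type} (S : Finset ι) {g : ι → ℝ} (hg : ∀ i, 1 ≤ g i) :
    1 ≤ ∏ j ∈ S, g j := by
  have := prod_le_prod (s := S) (f := fun _ => (1 : ℝ)) (g := g) (fun _ _ => zero_le_one)
    fun i _ => hg i
  simpa using this

theorem sum_shift_le {f : ℕ → ℝ} (hf : ∀ i, 0 ≤ f i) {y L N : ℕ} (h : y + L ≤ N) :
    ∑ i ∈ range L, f (y + i) ≤ ∑ i ∈ range N, f i := by
  have h1 : ∑ i ∈ range (y + L), f i ≤ ∑ i ∈ range N, f i :=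
    sum_le_sum_of_subset_of_nonneg (range_mono h) fun i _ _ => hf i
  rw [sum_range_add] at h1
  have := sum_nonneg (s := range y) fun i _ => hf i
  linarith

theorem unroll {σ c a ρ g : ℕ → ℝ} (y : ℕ) (ha : ∀ i, 0 ≤ a i) (hρ : ∀ i, 0 ≤ ρ i)
    (hg : ∀ i, 1 ≤ g i) (h0 : 0 ≤ c 0)
    (hσ : ∀ i, σ (i + 1) ≤ (a i + ρ i * σ i) * g i)
    (hc : ∀ i, a (y + i) + ρ (y + i) * c i ≤ c (i + 1)) (k : ℕ) :
    σ (y + k) ≤ (∏ j ∈ range k, g (y + j)) * (c k + (∏ j ∈ range k, ρ (y + j)) * σ y) := by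
  induction k with
  | zero => simpa using h0
  | succ k ih =>
    have hG : 1 ≤ ∏ j ∈ range k, g (y + j) := one_le_prd _ fun j => hg _
    set G := ∏ j ∈ range k, g (y + j)
    set Q := ∏ j ∈ range k, ρ (y + j) with hQ
    rw [← add_assoc, prod_range_succ, prod_range_succ, ← hQ]
    refine (hσ _).trans ?_
    have h1 : a (y + k) + ρ (y + k) * σ (y + k) ≤ G * (c (k + 1) + Q * ρ (y + k) * σ y) := by
      have h2 := mul_le_mul_of_nonneg_left ih (hρ (y + k))
      have h3 := mul_le_mul_of_nonneg_left (hc k) (zero_le_one.trans hG)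
      have h4 := mul_le_mul_of_nonneg_right hG (ha (y + k))
      nlinarith
    calc _ ≤ G * (c (k + 1) + Q * ρ (y + k) * σ y) * g (y + k) :=
          mul_le_mul_of_nonneg_right h1 (zero_le_one.trans (hg _))
      _ = _ := by ring

/-- The sum of the fresh chain over a block. -/
def DD (ρ : ℕ → ℝ) (l : ℕ) : ℝ := ∑ x ∈ range l, tau (fun _ => 1) ρ (x + 1)

theorem window {a ρ : ℕ → ℝ} {κ ν t : ℝ} {L N : ℕ} (hL : 0 < L) (ha : ∀ i, 0 ≤ a i)
    (haκ : ∀ i, a i ≤ κ) (hρ : ∀ i, 0 ≤ ρ i) (hν0 : 0 ≤ ν) (hν : ν ≤ 1 / 2) (hLν : L * ν ≤ 1)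
    (hp : ∀ i, i + L ≤ N → ∏ j ∈ range L, ρ (i + j) ≤ ν)
    (hD : ∀ j, 2 * j * L ≤ N → DD (fun i => ρ (2 * j * L + i)) (4 * L) ≤ t) :
    ∀ y, y + L ≤ N → ∑ j ∈ range L, tau a ρ (y + j + 1) ≤ 3 * κ * t := by
  have hκ : 0 ≤ κ := (ha 0).trans (haκ 0)
  have hZ : ∀ y i, 0 ≤ tau (fun _ => 1) (fun i => ρ (y + i)) i := fun y i =>
    tau_nonneg (fun _ => zero_le_one) (fun _ => hρ _) i
  have ht : 0 ≤ t := (sum_nonneg fun x _ => hZ _ _).trans (hD 0 (by simp))
  have hτ := tau_nonneg ha hρ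
  -- one step
  have key : ∀ y0 i, i ≤ N → (y0 = 0 ∨ y0 + L ≤ i) →
      tau a ρ i ≤ κ * tau (fun _ => 1) (fun i => ρ (y0 + i)) (i - y0) +
        if L ≤ i then ν * tau a ρ (i - L) else 0 := by
    intro y0 i hi hy
    have hu : ∀ y, y0 ≤ y → ∀ k, tau a ρ (y + k) ≤
        κ * tau (fun _ => 1) (fun i => ρ (y0 + i)) (y + k - y0) +
          (∏ j ∈ range k, ρ (y + j)) * tau a ρ y := by
      intro y hy k
      have := unroll (σ := tau a ρ) (g := fun _ => 1)
        (c := fun k => κ * tau (fun _ => 1) (fun i => ρ (y0 + i)) (y + k - y0)) y ha hρ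
        (fun _ => le_rfl) (mul_nonneg hκ (hZ _ _)) (fun i => by simp [tau]) (fun i => by
          have e : y + (i + 1) - y0 = y + i - y0 + 1 := by omega
          have e' : y0 + (y + i - y0) = y + i := by omega
          simp only [e, tau, e']
          have := haκ (y + i)
          nlinarith) k
      simpa using this
    split_ifs with h
    · have h1 := hu (i - L) (by omega) L
      have e : i - L + L = i := by omega
      rw [e] at h1
      have h2 := mul_le_mul_of_nonneg_right (hp (i - L) (by omega)) (hτ (i - L))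
      linarith
    · have h0 : y0 = 0 := by omega
      have h1 := hu 0 (by omega) i
      simpa [tau] using h1
  have blk : ∀ y, y ≤ N → ∃ j, 2 * j * L ≤ y ∧ (2 * j * L = 0 ∨ 2 * j * L + L ≤ y) ∧
      y < 2 * j * L + 3 * L := by
    intro y _
    refine ⟨(y - L) / (2 * L), ?_⟩
    have h1 := Nat.div_add_mod (y - L) (2 * L)
    have h2 := Nat.mod_lt (y - L) (show 0 < 2 * L by omega)
    have e : 2 * ((y - L) / (2 * L)) * L = 2 * L * ((y - L) / (2 * L)) := by ring
    rw [e]
    omega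
  have single : ∀ i, i ≤ N → tau a ρ i ≤ 2 * κ * t := by
    intro i
    induction i using Nat.strong_induction_on with
    | _ i ih =>
      intro hi
      obtain ⟨j, h1, h2, h3⟩ := blk i hi
      have h4 := key _ i hi h2
      have h5 : tau (fun _ => 1) (fun i => ρ (2 * j * L + i)) (i - 2 * j * L) ≤ t := by
        rcases Nat.eq_zero_or_pos (i - 2 * j * L) with h | h
        · rw [h]
          exact ht
        · refine le_trans ?_ (hD j (by omega))
          have e : i - 2 * j * L = i - 2 * j * L - 1 + 1 := by omega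
          rw [e]
          exact single_le_sum (f := fun x => tau (fun _ => 1) (fun i => ρ (2 * j * L + i)) (x + 1))
            (fun x _ => hZ _ _) (mem_range.2 (by omega))
      have h6 := mul_le_mul_of_nonneg_left h5 hκ
      have hkt := mul_nonneg hκ ht
      split_ifs at h4 with h
      · have h7 := ih (i - L) (by omega) (by omega)
        have h8 := mul_le_mul hν h7 (hτ _) (by norm_num)
        linarith
      · linarith
  intro y hy
  obtain ⟨j, h1, h2, h3⟩ := blk y (by omega)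
  have hkt := mul_nonneg hκ ht
  have h4 : ∀ i ∈ range L, tau a ρ (y + i + 1) ≤
      κ * tau (fun _ => 1) (fun i => ρ (2 * j * L + i)) (y - 2 * j * L + i + 1) +
        ν * (2 * κ * t) := by
    intro i hi
    have hi' := mem_range.1 hi
    have h5 := key (2 * j * L) (y + i + 1) (by omega) (by omega)
    have e : y + i + 1 - 2 * j * L = y - 2 * j * L + i + 1 := by omega
    rw [e] at h5
    split_ifs at h5 with h
    · have := mul_le_mul_of_nonneg_left (single (y + i + 1 - L) (by omega)) hν0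
      linarith
    · have : 0 ≤ ν * (2 * κ * t) := mul_nonneg hν0 (by linarith)
      linarith
  refine (sum_le_sum h4).trans ?_
  rw [sum_add_distrib, ← mul_sum, sum_const, card_range, nsmul_eq_mul]
  have h6 : ∑ i ∈ range L, tau (fun _ => 1) (fun i => ρ (2 * j * L + i)) (y - 2 * j * L + i + 1)
      ≤ t := by
    refine le_trans ?_ (hD j (by omega))
    exact sum_shift_le (f := fun x => tau (fun _ => 1) (fun i => ρ (2 * j * L + i)) (x + 1))
      (fun x => hZ _ _) (by omega)
  have h7 := mul_le_mul_of_nonneg_left h6 hκ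
  have h8 := mul_le_mul_of_nonneg_right hLν (show 0 ≤ 2 * κ * t by linarith)
  nlinarith

end Pool.Agent.RW
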