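import Pool.Agent.P.MP_4175a8_pr.Comb

open Finset MeasureTheory ProbabilityTheory Filter

namespace Pool.Agent.RW

/-- The variables `1 / ω⁺`. -/
structure IA {Ω : Type*} [MeasurableSpace Ω] (P : Measure Ω) (a : ℤ → Ω → ℝ)
    (F : Set ℤ → MeasurableSpace Ω) (κ am : ℝ) : Prop where
  meas : ∀ i, Measurable[F {i}] (a i)
  one_le : ∀ i ω, 1 ≤ a i ω
  bd : ∀ i ω, a i ω ≤ κ
  m1 : ∀ i, ∫ ω, a i ω ∂P = am

/-- One term of the expected crossing time. -/
def tm {Ω : Type*} (a r : ℤ → Ω → ℝ) (y : ℤ) (k : ℕ) (ω : Ω) : ℝ :=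
  a (y - k) ω * pr (bw r y) k ω

/-- The truncated expected crossing time. -/
def tN {Ω : Type*} (a r : ℤ → Ω → ℝ) (N : ℕ) (y : ℤ) (ω : Ω) : ℝ := ∑ k ∈ range N, tm a r y k ω

theorem summable_pow_div {x : ℝ} (h0 : 0 < x) (h1 : x < 1) {b : ℕ} (hb : 0 < b) :
    Summable fun j : ℕ => x ^ (j / b) := by
  have hb' : (0 : ℝ) < (b : ℝ)⁻¹ := by positivity
  have hy : x ^ (b : ℝ)⁻¹ < 1 := Real.rpow_lt_one h0.le h1 hb'
  have hy0 : 0 < x ^ (b : ℝ)⁻¹ := Real.rpow_pos_of_pos h0 _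
  have e : (x ^ (b : ℝ)⁻¹) ^ b = x := Real.rpow_inv_natCast_pow h0.le hb.ne'
  refine Summable.of_nonneg_of_le (fun j => by positivity) (fun j => ?_)
    ((summable_geometric_of_lt_one hy0.le hy).mul_left x⁻¹)
  rw [le_inv_mul_iff₀ h0, ← pow_succ']
  conv_lhs => rw [← e, ← pow_mul]
  exact pow_le_pow_of_le_one hy0.le hy.le (Nat.lt_mul_div_succ j hb).le

namespace IE

variable {Ω : Type*} [mΩ : MeasurableSpace Ω] {P : Measure Ω} [IsProbabilityMeasure P]
  {κ θ s am : ℝ} {a r : ℤ → Ω → ℝ} {F : Set ℤ → MeasurableSpace Ω} (h : IE P r F κ θ s)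
  (ha : IA P a F κ am)
include h ha

omit [IsProbabilityMeasure P] in
theorem mtm {S : Set ℤ} {y : ℤ} {k : ℕ} (hS : ∀ i ≤ k, y - i ∈ S) :
    Measurable[F S] (tm a r y k) :=
  ((ha.meas _).mono (h.mono _ _ (Set.singleton_subset_iff.2 (hS k le_rfl))) le_rfl).mul
    (meas_pr fun i hi => h.measS (hS i hi.le))

omit [IsProbabilityMeasure P] in
theorem tm_nonneg (y : ℤ) (k : ℕ) (ω : Ω) : 0 ≤ tm a r y k ω :=
  mul_nonneg (zero_le_one.trans (ha.one_le _ _)) ((h.bwd y).pr_pos k ω).le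

omit [IsProbabilityMeasure P] in
theorem tm_le (y : ℤ) (k : ℕ) (ω : Ω) : tm a r y k ω ≤ κ ^ (k + 1) := by
  rw [pow_succ']
  exact mul_le_mul (ha.bd _ _) ((h.bwd y).pr_le k ω) ((h.bwd y).pr_pos k ω).le
    (zero_le_one.trans h.hκ)

theorem int_tm (y : ℤ) (k : ℕ) : Integrable (tm a r y k) P :=
  integrable_bd (h.up (h.mtm ha (S := Set.univ) fun _ _ => trivial)) _ (h.tm_nonneg ha y k)
    (h.tm_le ha y k)

theorem e_tm (y : ℤ) (k : ℕ) : ∫ ω, tm a r y k ω ∂P = am * θ ^ k := by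
  simp only [tm]
  rw [h.int_mul (S := {y - k}) (T := Set.Ioi (y - k)) (by simp) (ha.meas _)
    (meas_pr fun i hi => h.measS (show y - k < y - i by omega)), ha.m1, (h.bwd y).e_pr]

theorem one_le_am : 1 ≤ am := by
  rw [← ha.m1 0]
  simpa using integral_mono (μ := P) (integrable_const (1 : ℝ))
    (integrable_bd (h.up (ha.meas 0)) κ (fun ω => zero_le_one.trans (ha.one_le 0 ω)) (ha.bd 0))
    (ha.one_le 0)

omit [IsProbabilityMeasure P] in
theorem tN_mono {N N' : ℕ} (hN : N ≤ N') (y : ℤ) (ω : Ω) : tN a r N y ω ≤ tN a r N' y ω :=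
  sum_le_sum_of_subset_of_nonneg (range_mono hN) fun k _ _ => h.tm_nonneg ha y k ω

omit [IsProbabilityMeasure P] in
theorem tN_nonneg (N : ℕ) (y : ℤ) (ω : Ω) : 0 ≤ tN a r N y ω :=
  sum_nonneg fun k _ => h.tm_nonneg ha y k ω

theorem cheb2 {γ : ℝ} (hγ : 0 < γ) {g : ℕ} (hg : 0 < g) (l : ℕ) :
    P.real {ω | (γ * g) ^ 2 ≤
      (∑ y ∈ range g, tN a r l y ω - g * ∑ k ∈ range l, am * θ ^ k) ^ 2} ≤
      2 * l * (l * κ ^ l) ^ 2 / (γ ^ 2 * g) := by
  set B : ℝ := l * κ ^ l with hB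
  set c : ℝ := ∑ k ∈ range l, am * θ ^ k with hc
  have hb : ∀ y ω, tN a r l y ω ≤ B := fun y ω => by
    have := sum_le_card_nsmul (range l) (fun k => tm a r y k ω) (κ ^ l) fun k hk =>
      (h.tm_le ha y k ω).trans (pow_le_pow_right₀ h.hκ (mem_range.1 hk))
    simpa [tN] using this
  have hm : ∀ (S : Set ℤ) (y : ℤ), (∀ i < l, y - i ∈ S) → Measurable[F S] (tN a r l y) :=
    fun S y hS => Finset.measurable_sum (f := fun k => tm a r y k) _ fun k hk =>
      h.mtm ha fun i hi => hS i (hi.trans_lt (mem_range.1 hk))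
  have hm' : ∀ y, Measurable (tN a r l y) := fun y => h.up (hm Set.univ y fun _ _ => trivial)
  have hi : ∀ y, Integrable (tN a r l y) P := fun y =>
    integrable_bd (hm' y) _ (h.tN_nonneg ha l y) (hb y)
  have he : ∀ y, ∫ ω, tN a r l y ω ∂P = c := fun y => by
    simp only [tN]
    rw [integral_finsetSum _ fun k _ => h.int_tm ha y k]
    exact sum_congr rfl fun k _ => h.e_tm ha y k
  have hc0 : 0 ≤ c := he 0 ▸ integral_nonneg (h.tN_nonneg ha l 0)
  have hcB : c ≤ B := by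
    rw [← he 0]
    simpa using integral_mono (hi 0) (integrable_const B) (hb 0)
  set X : ℕ → Ω → ℝ := fun y ω => tN a r l y ω - c with hX
  have hXb : ∀ y y' ω, |X y ω * X y' ω| ≤ B ^ 2 := by
    have h1 : ∀ y ω, |X y ω| ≤ B := fun y ω => abs_le.2
      ⟨by simp only [hX]; linarith [h.tN_nonneg ha l y ω], by simp only [hX]; linarith [hb y ω]⟩
    intro y y' ω
    rw [abs_mul, sq]
    exact mul_le_mul (h1 y ω) (h1 y' ω) (abs_nonneg _) (hc0.trans hcB)
  have hXi : ∀ y y', Integrable (fun ω => X y ω * X y' ω) P := fun y y' =>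
    Integrable.of_bound (((hm' y).sub_const c).mul ((hm' y').sub_const c)).aestronglyMeasurable _
      (ae_of_all _ (hXb y y'))
  have hX0 : ∀ y y' : ℕ, y + l ≤ y' → ∫ ω, X y ω * X y' ω ∂P = 0 := by
    intro y y' hy
    rw [h.int_mul (S := Set.Iic (y : ℤ)) (T := Set.Ioi (y : ℤ)) (Set.Iic_disjoint_Ioi le_rfl)
      ((hm _ y fun i _ => by simp).sub_const c)
      ((hm _ y' fun i hi => show (y : ℤ) < y' - i by omega).sub_const c)]
    rw [integral_sub (hi y) (integrable_const c), he]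
    simp
  have h1 : ∀ y ∈ range g, ∑ y' ∈ range g, ∫ ω, X y ω * X y' ω ∂P ≤ 2 * l * B ^ 2 := by
    intro y _
    rw [← sum_filter_of_ne (p := fun y' => y' ∈ Ico (y - l) (y + l))]
    · have h2 := sum_le_card_nsmul ((range g).filter fun y' => y' ∈ Ico (y - l) (y + l))
        (fun y' => ∫ ω, X y ω * X y' ω ∂P) (B ^ 2) fun y' _ => by
          simpa using integral_mono (hXi y y') (integrable_const (B ^ 2))
            fun ω => (le_abs_self _).trans (hXb y y' ω)
      refine h2.trans ?_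
      rw [nsmul_eq_mul]
      refine mul_le_mul_of_nonneg_right ?_ (sq_nonneg B)
      have h3 := card_le_card (s := (range g).filter fun y' => y' ∈ Ico (y - l) (y + l))
        fun y' hy' => (mem_filter.1 hy').2
      rw [Nat.card_Ico] at h3
      exact_mod_cast h3.trans (show y + l - (y - l) ≤ 2 * l by omega)
    · intro y' _ hne
      by_contra hn
      rw [mem_Ico, not_and_or, not_le, not_lt] at hn
      rcases hn with hn | hn
      · simp only [mul_comm (X y _)] at hne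
        exact hne (hX0 y' y (by omega))
      · exact hne (hX0 y y' hn)
  have e : ∀ ω, (∑ y ∈ range g, X y ω) ^ 2 = ∑ y ∈ range g, ∑ y' ∈ range g, X y ω * X y' ω :=
    fun ω => by rw [sq, sum_mul_sum]
  have h2 := mul_meas_ge_le_integral_of_nonneg (μ := P) (f := fun ω => (∑ y ∈ range g, X y ω) ^ 2)
    (ae_of_all _ fun ω => sq_nonneg _) (by
      simp only [e]
      exact integrable_finsetSum _ fun y _ => integrable_finsetSum _ fun y' _ => hXi y y')
    ((γ * g) ^ 2)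
  have h3 : ∫ ω, (∑ y ∈ range g, X y ω) ^ 2 ∂P ≤ g * (2 * l * B ^ 2) := by
    simp only [e]
    rw [integral_finsetSum _ fun y _ => integrable_finsetSum _ fun y' _ => hXi y y']
    have := sum_le_card_nsmul _ _ _ h1
    rw [card_range, nsmul_eq_mul] at this
    refine le_trans (le_of_eq (sum_congr rfl fun y _ => ?_)) this
    exact integral_finsetSum _ fun y' _ => hXi y y'
  have hg' : (0 : ℝ) < g := by exact_mod_cast hg
  simp only [hX, sum_sub_distrib, sum_const, card_range, nsmul_eq_mul] at h2 h3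
  rw [le_div_iff₀ (by positivity)]
  refine le_of_mul_le_mul_left ?_ hg'
  nlinarith [h2.trans h3]

theorem cheb {γ : ℝ} (hγ : 0 < γ) {g : ℕ} (hg : 0 < g) (l : ℕ) :
    P.real {ω | (am / (1 - θ) + γ) * g < ∑ y ∈ range g, tN a r l y ω} ≤
      2 * l * (l * κ ^ l) ^ 2 / (γ ^ 2 * g) := by
  have hg' : (0 : ℝ) < g := by exact_mod_cast hg
  set c : ℝ := ∑ k ∈ range l, am * θ ^ k with hc
  have hcτ : c ≤ am / (1 - θ) := by
    have := geom_tail h.hθ0.le h.hθ 0 l
    rw [pow_zero, ← range_eq_Ico] at this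
    rw [hc, ← mul_sum, div_eq_mul_one_div]
    exact mul_le_mul_of_nonneg_left this (zero_le_one.trans (h.one_le_am ha))
  refine le_trans (rmono fun ω hω => ?_) (h.cheb2 ha hγ hg l)
  refine pow_le_pow_left₀ (mul_nonneg hγ.le hg'.le) ?_ 2
  have h5 : (am / (1 - θ) + γ) * g < ∑ y ∈ range g, tN a r l y ω := hω
  nlinarith [mul_le_mul_of_nonneg_left hcτ hg'.le]

theorem lln0 {γ : ℝ} (hγ : 0 < γ) {g : ℕ} (hg : 0 < g) (l N : ℕ) :
    P.real {ω | (am / (1 - θ) + 2 * γ) * g < ∑ y ∈ range g, tN a r N y ω} ≤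
      2 * l * (l * κ ^ l) ^ 2 / (γ ^ 2 * g) + am / (1 - θ) * θ ^ l / γ := by
  have hg' : (0 : ℝ) < g := by exact_mod_cast hg
  set R : Ω → ℝ := fun ω => ∑ y ∈ range g, ∑ k ∈ Ico l N, tm a r y k ω with hR
  have h1 : {ω | (am / (1 - θ) + 2 * γ) * g < ∑ y ∈ range g, tN a r N y ω} ⊆
      {ω | (am / (1 - θ) + γ) * g < ∑ y ∈ range g, tN a r l y ω} ∪ {ω | γ * g ≤ R ω} := by
    intro ω hω
    by_contra hn
    simp only [Set.mem_union, Set.mem_ofPred_eq, not_or, not_lt, not_le] at hn hω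
    have h2 : ∑ y ∈ range g, tN a r N y ω ≤ ∑ y ∈ range g, tN a r l y ω + R ω := by
      rw [hR, ← sum_add_distrib]
      refine sum_le_sum fun y _ => ?_
      rcases le_total N l with h3 | h3
      · exact le_add_of_le_of_nonneg (h.tN_mono ha h3 y ω)
          (sum_nonneg fun k _ => h.tm_nonneg ha y k ω)
      · exact (sum_range_add_sum_Ico _ h3).ge
    linarith [hn.1, hn.2]
  refine (rmono h1).trans ((measureReal_union_le _ _).trans (add_le_add (h.cheb ha hγ hg l) ?_))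
  have h2 := mul_meas_ge_le_integral_of_nonneg (μ := P) (f := R)
    (ae_of_all _ fun ω => sum_nonneg fun y _ => sum_nonneg fun k _ => h.tm_nonneg ha y k ω)
    (integrable_finsetSum _ fun y _ => integrable_finsetSum _ fun k _ => h.int_tm ha y k) (γ * g)
  have h3 : ∫ ω, R ω ∂P ≤ g * (am / (1 - θ) * θ ^ l) := by
    simp only [hR]
    rw [integral_finsetSum _ fun (y : ℕ) _ => integrable_finsetSum _ fun k _ => h.int_tm ha y k]
    have := sum_le_card_nsmul (range g) (fun y => ∫ ω, ∑ k ∈ Ico l N, tm a r y k ω ∂P)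
      (am / (1 - θ) * θ ^ l) fun y _ => by
        rw [integral_finsetSum _ fun k _ => h.int_tm ha y k]
        simp only [h.e_tm ha]
        rw [← mul_sum, div_mul_eq_mul_div, mul_div_assoc]
        exact mul_le_mul_of_nonneg_left (geom_tail h.hθ0.le h.hθ l N)
          (zero_le_one.trans (h.one_le_am ha))
    rwa [card_range, nsmul_eq_mul] at this
  rw [le_div_iff₀ hγ]
  refine le_of_mul_le_mul_left ?_ hg'
  nlinarith [h2.trans h3]

theorem lln1 {γ : ℝ} (hγ : 0 < γ) (A c : ℕ) (hc : 0 < c) : ∀ᵐ ω ∂P, ∀ᶠ j in atTop,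
    ∑ y ∈ range (c * 2 ^ j), tN a r (A * (c * 2 ^ j)) y ω ≤
      (am / (1 - θ) + 2 * γ) * (c * 2 ^ j : ℕ) := by
  obtain ⟨b, hb⟩ := pow_unbounded_of_one_lt (16 * κ ^ 2) (one_lt_two (α := ℝ))
  have hκ0 : 0 < κ := zero_lt_one.trans_le h.hκ
  have hb0 : 0 < b := Nat.pos_of_ne_zero (by
    rintro rfl
    nlinarith [h.hκ])
  have h1 := bc1 (P := P) (E := fun j => {ω | (am / (1 - θ) + 2 * γ) * (c * 2 ^ j : ℕ) <
      ∑ y ∈ range (c * 2 ^ j), tN a r (A * (c * 2 ^ j)) y ω})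
    (b := fun j => 2 / γ ^ 2 * (1 / 2) ^ (j / b) + am / (1 - θ) / γ * θ ^ (j / b))
    (((summable_pow_div (by norm_num) (by norm_num) hb0).mul_left _).add
      ((summable_pow_div h.hθ0 h.hθ hb0).mul_left _)) (Eventually.of_forall fun j => by
        refine (h.lln0 ha hγ (by positivity) (j / b) _).trans (add_le_add ?_ (le_of_eq (by ring)))
        have h2 := Nat.div_mul_le_self j b
        set l := j / b
        have h3 : (l : ℝ) ≤ 2 ^ l := by exact_mod_cast Nat.lt_two_pow_self.le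
        have h4 : (16 * κ ^ 2) ^ l ≤ (c * 2 ^ j : ℕ) := by
          refine (pow_le_pow_left₀ (by positivity) hb.le l).trans ?_
          rw [← pow_mul, mul_comm]
          exact_mod_cast (Nat.pow_le_pow_right two_pos h2).trans (Nat.le_mul_of_pos_left _ hc)
        have h5 : (l : ℝ) * (l * κ ^ l) ^ 2 ≤ (1 / 2) ^ l * (16 * κ ^ 2) ^ l := by
          calc (l : ℝ) * (l * κ ^ l) ^ 2 ≤ 2 ^ l * (2 ^ l * κ ^ l) ^ 2 := by gcongr
            _ = (1 / 2 * (16 * κ ^ 2)) ^ l := by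
              rw [show 1 / 2 * (16 * κ ^ 2) = 2 * ((2 * κ) * (2 * κ)) by ring]
              simp only [mul_pow]
              ring
            _ = _ := mul_pow _ _ _
        rw [div_le_iff₀ (by positivity)]
        have h6 := h5.trans (mul_le_mul_of_nonneg_left h4 (by positivity))
        calc _ = 2 * (l * (l * κ ^ l) ^ 2) := by ring
          _ ≤ 2 * ((1 / 2) ^ l * (c * 2 ^ j : ℕ)) := by linarith
          _ = _ := by field_simp)
  filter_upwards [h1] with ω hω
  filter_upwards [hω] with j hj using not_lt.1 hj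

end IE

end Pool.Agent.RW
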