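import Pool.Agent.P.MP_4175a8_pr.Trap
import Pool.Agent.P.MP_4175a8_pr.LLN
import Pool.Agent.P.MP_4175a8_pr.Asym

open Finset MeasureTheory ProbabilityTheory Filter

namespace Pool.Agent.RW

theorem tendsto_grid {c : ℕ} (hc : 0 < c) : Tendsto (fun j : ℕ => c * 2 ^ j) atTop atTop :=
  tendsto_atTop_mono (fun _ => (Nat.lt_two_pow_self.le).trans (Nat.le_mul_of_pos_left _ hc))
    tendsto_id

theorem exp_ll_grid {c j : ℕ} (hc : 0 < c) (hj : 0 < j) :
    Real.exp (-(2 * ll (c * 2 ^ j))) ≤ 4 * ((j : ℝ) ^ 2)⁻¹ := by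
  have hj' : (0 : ℝ) < j := by exact_mod_cast hj
  have h1 : (2 : ℝ) ^ j ≤ (c * 2 ^ j : ℕ) := by exact_mod_cast Nat.le_mul_of_pos_left _ hc
  have h2 := Real.log_le_log (by positivity) h1
  rw [Real.log_pow] at h2
  have h3 : (j : ℝ) / 2 ≤ Real.log (c * 2 ^ j : ℕ) := by nlinarith [Real.log_two_gt_d9]
  have h4 : 0 < Real.log (c * 2 ^ j : ℕ) := lt_of_lt_of_le (by positivity) h3
  rw [Real.exp_neg, two_mul, Real.exp_add, ll, Real.exp_log h4]
  calc _ ≤ ((j : ℝ) / 2 * (j / 2))⁻¹ := inv_anti₀ (by positivity) (mul_le_mul h3 h3 (by positivity) h4.le)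
    _ = _ := by field_simp; norm_num

namespace IE

variable {Ω : Type*} [mΩ : MeasurableSpace Ω] {P : Measure Ω} [IsProbabilityMeasure P]
  {κ θ s am : ℝ} {a r : ℤ → Ω → ℝ} {F : Set ℤ → MeasurableSpace Ω} (h : IE P r F κ θ s)
include h

theorem ev_prod {B : ℕ} (hB : θ ^ B ≤ 1 / 32) : ∀ᵐ ω ∂P, ∀ᶠ n : ℕ in atTop,
    ∀ y : ℤ, -n ≤ y → y ≤ n → pr (fw r y) (LL B n) ω ≤ ((n : ℝ) ^ 2)⁻¹ := by
  have h1 := bc1 (P := P)
    (E := fun n : ℕ => ⋃ y ∈ Icc (-n : ℤ) n, {ω | ((n : ℝ) ^ 2)⁻¹ ≤ pr (fw r y) (LL B n) ω})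
    (b := fun n => 3 * ((n : ℝ) ^ 2)⁻¹)
    ((Real.summable_nat_pow_inv.2 one_lt_two).mul_left _) (by
      filter_upwards [eventually_gt_atTop 0] with n hn
      have hn1 : (1 : ℝ) ≤ n := by exact_mod_cast hn
      refine (measureReal_biUnion_finset_le _ _).trans ((sum_le_card_nsmul _ _
        (((n : ℝ) ^ 5)⁻¹ / ((n : ℝ) ^ 2)⁻¹) fun y _ => ((h.fwd y).markov (by positivity) _).trans
          (div_le_div_of_nonneg_right (pow_LL_le h.hθ0.le hB hn) (by positivity))).trans ?_)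
      have e : (Icc (-n : ℤ) n).card = 2 * n + 1 := by
        rw [Int.card_Icc]
        omega
      rw [e, nsmul_eq_mul]
      push_cast
      field_simp
      linarith)
  filter_upwards [h1] with ω hω
  filter_upwards [hω] with n hn y h2 h3
  by_contra h4
  exact hn (Set.mem_iUnion₂.2 ⟨y, mem_Icc.2 ⟨h2, h3⟩, (not_le.1 h4).le⟩)

theorem ev_lln (ha : IA P a F κ am) {u γ : ℝ} (hu : 0 < u) (hγ : 0 < γ) : ∀ᵐ ω ∂P,
    ∀ᶠ n : ℕ in atTop, ∀ m : ℕ, m ≤ u * n →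
      ∑ y ∈ range m, tN a r (n + y + 1) y ω ≤ (u * (am / (1 - θ)) + γ) * n := by
  set τ := am / (1 - θ) with hτ
  have hτ0 : 0 ≤ τ := div_nonneg (zero_le_one.trans (h.one_le_am ha)) (sub_nonneg.2 h.hθ.le)
  obtain ⟨A, hA⟩ := exists_nat_ge (2 / u)
  obtain ⟨q, hq⟩ := exists_nat_gt ((2 * u * τ + γ) / γ)
  have hq0 : 0 < q := by
    have : (0 : ℝ) < q := lt_of_le_of_lt (by positivity) hq
    exact_mod_cast this
  have h1 := grid_ae (P := P) (Q := fun g ω => ∑ y ∈ range g, tN a r ((A + 1) * g) y ω ≤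
    (τ + 2 * (γ / (4 * u))) * g) (fun c hc => h.lln1 ha (by positivity) (A + 1) c hc) hq0
  have h2 : Tendsto (fun n : ℕ => u * n) atTop atTop :=
    tendsto_natCast_atTop_atTop.const_mul_atTop hu
  filter_upwards [h1] with ω hω
  filter_upwards [(tendsto_nat_floor_atTop.comp h2).eventually hω, h2.eventually_ge_atTop 2]
    with n hn h3 m hm
  obtain ⟨-, g, hg, h4, h5⟩ := hn
  simp only [Function.comp] at h4 h5
  have h6 : m ≤ ⌊u * n⌋₊ := Nat.le_floor hm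
  have h7 : (⌊u * n⌋₊ : ℝ) ≤ u * n := Nat.floor_le (by linarith)
  have h8 := Nat.lt_floor_add_one (u * n)
  have h4' : (⌊u * n⌋₊ : ℝ) ≤ g := by exact_mod_cast h4
  have h5' : (q : ℝ) * g ≤ (q + 1) * ⌊u * n⌋₊ := by exact_mod_cast h5
  have h9 : n ≤ A * g := by
    have h10 : (n : ℝ) ≤ A * g := by
      rw [div_le_iff₀ hu] at hA
      refine le_of_mul_le_mul_right ?_ hu
      have := mul_le_mul_of_nonneg_right hA (Nat.cast_nonneg (α := ℝ) g)
      nlinarith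
    exact_mod_cast h10
  have h10 : ∑ y ∈ range m, tN a r (n + y + 1) y ω ≤ ∑ y ∈ range g, tN a r ((A + 1) * g) y ω :=
    (sum_le_sum fun y hy => h.tN_mono ha (by
      have := mem_range.1 hy
      rw [add_mul]
      omega) _ _).trans (sum_le_sum_of_subset_of_nonneg (range_mono (h6.trans h4))
        fun y _ _ => h.tN_nonneg ha _ _ _)
  refine h10.trans (hg.trans ?_)
  have hq' : (0 : ℝ) < q := by exact_mod_cast hq0
  refine le_of_mul_le_mul_left ?_ hq'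
  have e : (τ + 2 * (γ / (4 * u))) * u = u * τ + γ / 2 := by field_simp; ring
  have h11 : (q : ℝ) * g ≤ (q + 1) * (u * n) :=
    h5'.trans (mul_le_mul_of_nonneg_left h7 (by positivity))
  have h12 := mul_le_mul_of_nonneg_left h11 (show 0 ≤ τ + 2 * (γ / (4 * u)) by positivity)
  rw [div_lt_iff₀ hγ] at hq
  have h13 := mul_le_mul_of_nonneg_right hq.le (Nat.cast_nonneg (α := ℝ) n)
  have e2 : (τ + 2 * (γ / (4 * u))) * ((q + 1) * (u * n)) = (u * τ + γ / 2) * ((q + 1) * n) := by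
    rw [← e]
    ring
  nlinarith

theorem ev_trap0 {v η : ℝ} (hη : 0 < η) : ∃ (B : ℕ) (c : ℝ), 0 < c ∧ θ ^ B ≤ 1 / 32 ∧
    ∀ᶠ g : ℕ in atTop, P.real {ω | ¬ ∃ j : ℕ, j ≤ η * g ∧ ∃ k ≤ LL B g,
      c * sc s g ≤ pr (fw r ((⌈v * g⌉₊ + 1 : ℕ) + j)) k ω} ≤ Real.exp (-(2 * ll g)) := by
  have hκ0 : 0 < κ := zero_lt_one.trans_le h.hκ
  have hs0 : 0 < s := zero_lt_one.trans h.hs
  have hθ1 : 0 < 1 - θ := sub_pos.2 h.hθ
  have ht := tendsto_pow_atTop_nhds_zero_of_lt_one h.hθ0.le h.hθ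
  obtain ⟨J₀, hJ, hJ0⟩ := ((ht.eventually_le_const (show 0 < (κ ^ s)⁻¹ / 4 * (1 - θ) by positivity)).and
    (eventually_gt_atTop 0)).exists
  obtain ⟨B, hB, hJB⟩ := ((ht.eventually_le_const (show (0 : ℝ) < 1 / 32 by norm_num)).and
    (eventually_ge_atTop (2 * J₀))).exists
  set D : ℝ := 32 * J₀ ^ 2 * κ ^ s with hD
  have hD0 : 0 < D := by positivity
  set c := min 1 (η / (8 * D)) with hc
  have hc0 : 0 < c := lt_min one_pos (by positivity)
  have hc1 : c ≤ 1 := min_le_left _ _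
  have hcs : c ^ s ≤ c := by
    simpa using Real.rpow_le_rpow_of_exponent_ge hc0 hc1 h.hs.le
  refine ⟨B, c, hc0, hB, ?_⟩
  filter_upwards [ev_le_sc h.hs B 1 (4 / c), ev_ll, ev_LL_lin B (show 0 < η / 4 by positivity),
    eventually_ge_atTop 2] with g h1 h2 h3 h4
  have hL0 : 0 < LL B g := lt_of_lt_of_le (by omega) (le_LL B g)
  have hL1 : (1 : ℝ) ≤ LL B g := by exact_mod_cast hL0
  have hg2 : (2 : ℝ) ≤ g := by exact_mod_cast h4
  have hsc := sc_pos (s := s) (by omega : 0 < g) h2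
  set L := LL B g with hL
  set M := c * sc s g with hM
  rw [pow_one, div_mul_eq_mul_div, div_le_iff₀' hc0, ← hM] at h1
  have hM1 : 1 ≤ M := by linarith
  have hMs : M ≤ M ^ s := by simpa using Real.rpow_le_rpow_of_exponent_le hM1 h.hs.le
  have hMe : M ^ s = c ^ s * (g / ll g) := by rw [hM, Real.mul_rpow hc0.le hsc.le, sc_rpow h.hs h2]
  have hll : (0 : ℝ) < g / ll g := div_pos (by linarith) (by linarith)
  have hM2 : M ^ s ≤ c * (g / ll g) := hMe.trans_le (mul_le_mul_of_nonneg_right hcs hll.le)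
  have hM3 : M ^ s ≤ g :=
    hM2.trans ((mul_le_of_le_one_left hll.le hc1).trans (div_le_self (by linarith) h2))
  have h5 := h.notrap (M := M) (L := L) hJ0 (by rwa [div_le_iff₀ hθ1]) hM1 (by
      have h6 : M ^ (s - 1) ≤ g :=
        (Real.rpow_le_rpow_of_exponent_le hM1 (by linarith)).trans hM3
      refine (mul_le_mul h6 (pow_LL_le h.hθ0.le hB (by omega)) (pow_nonneg h.hθ0.le _)
        (by linarith)).trans ?_
      rw [← div_eq_mul_inv, div_le_iff₀ (by positivity)]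
      have h7 : (2 : ℝ) ^ 4 ≤ g ^ 4 := pow_le_pow_left₀ zero_le_two hg2 4
      nlinarith)
    (hJB.trans (le_LL B g)) (by
      rw [← div_eq_mul_inv, div_le_iff₀ (by linarith)]
      linarith) (⌈v * g⌉₊ + 1 : ℕ) ⌊η * g / (2 * L)⌋₊
  set J := ⌊η * g / (2 * L)⌋₊ with hJd
  have h6 : (J : ℝ) ≤ η * g / (2 * L) := Nat.floor_le (by positivity)
  have h7 : η * g / (2 * L) < J + 1 := Nat.lt_floor_add_one _
  rw [le_div_iff₀ (by positivity)] at h6
  rw [div_lt_iff₀ (by positivity)] at h7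
  refine le_trans (rmono fun ω hω => ?_) (h5.trans (Real.exp_le_exp.2 (neg_le_neg ?_)))
  · rintro ⟨j, hj, hk⟩
    refine hω ⟨j, ?_, hk⟩
    have : (j : ℝ) ≤ 2 * J * L := by exact_mod_cast hj.le
    linarith
  · rw [← hD, ← mul_div_assoc, ← mul_assoc, le_div_iff₀ hD0, ← div_eq_mul_inv,
      le_div_iff₀ (by linarith)]
    have h8 : c ≤ η / (8 * D) := min_le_right _ _
    rw [le_div_iff₀ (by positivity)] at h8
    have h9 := mul_le_mul_of_nonneg_left hM2 (show 0 ≤ 2 * ll g * D by positivity)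
    have e : 2 * ll g * D * (c * (g / ll g)) = 2 * (c * D) * g := by field_simp
    have h10 := mul_le_mul_of_nonneg_right h8 (show (0 : ℝ) ≤ g by linarith)
    nlinarith

theorem ev_trap {v δ : ℝ} (hv : 0 < v) (hδ : 0 < δ) : ∃ (B : ℕ) (c : ℝ), 0 < c ∧ θ ^ B ≤ 1 / 32 ∧
    ∀ᵐ ω ∂P, ∀ᶠ n : ℕ in atTop, ∃ x : ℕ, (v - δ / 2) * n ≤ x ∧ x ≤ (v + δ / 2) * n ∧
      ∃ k ≤ LL B n, c * sc s n ≤ pr (fw r (x + 1)) k ω := by
  obtain ⟨B, c, hc, hB, h1⟩ := h.ev_trap0 (v := v) (show 0 < δ / 4 by positivity)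
  refine ⟨B, c / 2, by positivity, hB, ?_⟩
  obtain ⟨q, hq⟩ := exists_nat_gt (2 * v / δ)
  have hq' : (0 : ℝ) < q := lt_of_le_of_lt (by positivity) hq
  have hq0 : 0 < q := by exact_mod_cast hq'
  have h2 := grid_ae (P := P) (Q := fun g ω => (2 ≤ g ∧ 1 ≤ ll g) ∧ ∃ j : ℕ, j ≤ δ / 4 * g ∧
      ∃ k ≤ LL B g, c * sc s g ≤ pr (fw r ((⌈v * g⌉₊ + 1 : ℕ) + j)) k ω) (fun d hd => by
    have h3 := bc1 (P := P) (b := fun j => 4 * ((j : ℝ) ^ 2)⁻¹)
      ((Real.summable_nat_pow_inv.2 one_lt_two).mul_left _) (by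
        filter_upwards [(tendsto_grid hd).eventually h1, eventually_gt_atTop 0] with j h4 h5
        exact h4.trans (exp_ll_grid hd h5))
    filter_upwards [h3] with ω hω
    filter_upwards [hω, (tendsto_grid hd).eventually ((eventually_ge_atTop 2).and ev_ll)]
      with j h4 h5
    exact ⟨h5, not_not.1 h4⟩) hq0
  have h3 : Tendsto (fun n : ℕ => δ / 4 * n) atTop atTop :=
    tendsto_natCast_atTop_atTop.const_mul_atTop (by positivity)
  filter_upwards [h2] with ω hω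
  filter_upwards [hω, h3.eventually_ge_atTop 1] with n hn h4
  obtain ⟨⟨g, ⟨⟨h5, h6⟩, j, hj, k, hk, hr⟩, h7, h8⟩, -⟩ := hn
  have h7' : (g : ℝ) ≤ n := by exact_mod_cast h7
  have h8' : (q : ℝ) * n ≤ (q + 1) * g := by exact_mod_cast h8
  have h9 := Nat.le_ceil (v * g)
  have h10 := Nat.ceil_lt_add_one (show 0 ≤ v * g by positivity)
  have hj0 : (0 : ℝ) ≤ j := Nat.cast_nonneg j
  refine ⟨⌈v * g⌉₊ + j, ?_, ?_, k, hk.trans (LL_mono B h7), ?_⟩
  · push_cast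
    rw [div_lt_iff₀ hδ] at hq
    have h11 : (v - δ / 2) * n ≤ v * g := by
      refine le_of_mul_le_mul_left ?_ (show (0 : ℝ) < q + 1 by positivity)
      have := mul_le_mul_of_nonneg_left h8' hv.le
      have := mul_le_mul_of_nonneg_right hq.le (Nat.cast_nonneg (α := ℝ) n)
      have : 0 ≤ δ * n := by positivity
      nlinarith
    linarith
  · push_cast
    have := mul_le_mul_of_nonneg_left h7' hv.le
    have := mul_le_mul_of_nonneg_left h7' hδ.le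
    linarith
  · have h11 := sc_le_two h.hs h5 h6 h7 (by nlinarith)
    have e : ((⌈v * g⌉₊ + j : ℕ) : ℤ) + 1 = (⌈v * g⌉₊ + 1 : ℕ) + j := by
      push_cast
      ring
    rw [e]
    nlinarith

end IE

end Pool.Agent.RW
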