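import Pool.Agent.P.MP_4175a8_pr.IntUp

open Finset MeasureTheory ProbabilityTheory Filter

namespace Pool.Agent.RW

theorem lower_pack {e : ℤ → ℝ × ℝ} {A : Set ℤ} (he : Ell e) {M γ v δ : ℝ} {n x L k : ℕ}
    (hn : 0 < n) (hM : 2 ≤ M) (hMn : M ≤ n) (hδ : 0 < δ) (hL1 : (L : ℝ) ≤ δ / 4 * n) (hL2 : L ≤ n)
    (hx1 : (v - δ / 2) * n ≤ x) (hx2 : x ≤ (v + δ / 2) * n) (hx4 : x ≤ n) (hk : k ≤ L)
    (hr : M ≤ ∏ i ∈ range k, rr e (x + 1 + i))
    (hp : ∀ y : ℤ, -n ≤ y → y ≤ n → ∏ j ∈ range L, rr e (y + j) ≤ ((n : ℝ) ^ 2)⁻¹)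
    (hγ0 : 0 ≤ γ) (hγ : γ ≤ 1) (hS : ∑ y ∈ range x, tt e n (n + y + 1) ≤ (1 - γ) * n)
    (hA : ∀ x : ℤ, (x : ℝ) / n ∈ Set.Ioo (v - δ) (v + δ) → x ∈ A) :
    Real.exp (-(2 * (n / M))) * γ ≤ law e A n 0 := by
  have hn1 : (1 : ℝ) ≤ n := by exact_mod_cast hn
  have hn0 : (0 : ℝ) < n := by linarith
  have hδn : 0 < δ * n := by positivity
  have h12 := lower_det (A := A) (n := n) (j := x) (M := M) he (by linarith) hk hr (by
      have h13 := hp (x - L) (by omega) (by omega)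
      have e1 : ∏ i ∈ range L, rr e (x - 1 - i) = ∏ j ∈ range L, rr e (x - L + j) := by
        rw [← prod_range_reflect]
        refine prod_congr rfl fun i hi => ?_
        have := mem_range.1 hi
        rw [show (x : ℤ) - 1 - ((L - 1 - i : ℕ) : ℤ) = x - L + i by omega]
      rw [e1]
      exact h13.trans (inv_anti₀ (by linarith) (by nlinarith))) (fun z hz1 hz2 => by
      have hz3 : (x : ℝ) - L ≤ z := by exact_mod_cast hz1
      have hz4 : (z : ℝ) ≤ x + L := by exact_mod_cast hz2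
      exact hA z ⟨(lt_div_iff₀ hn0).2 (by linarith), (div_lt_iff₀ hn0).2 (by linarith)⟩)
  refine le_trans ?_ h12
  have h13 : γ ≤ 1 - (∑ y ∈ range x, tt e n (n + y + 1)) / (n + 1) := by
    rw [le_sub_comm, div_le_iff₀ (by linarith)]
    nlinarith
  have hM0 : 0 < M := by linarith
  have hi : M⁻¹ ≤ 1 / 2 := by
    rw [one_div]
    exact inv_anti₀ two_pos hM
  have hi0 : 0 < M⁻¹ := inv_pos.2 hM0
  have h15 : Real.exp (-(2 * M⁻¹)) ≤ 1 - M⁻¹ := by
    rw [Real.exp_neg, inv_le_iff_one_le_mul₀ (Real.exp_pos _)]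
    nlinarith [Real.add_one_le_exp (2 * M⁻¹)]
  have h16 := pow_le_pow_left₀ (Real.exp_pos _).le h15 n
  rw [← Real.exp_nat_mul] at h16
  rw [show -(2 * (n / M)) = n * -(2 * M⁻¹) by ring]
  exact mul_le_mul h16 h13 hγ0 (pow_nonneg (by linarith) n)

theorem bc3 {Ω : Type*} [MeasurableSpace Ω] {P : Measure Ω} [IsProbabilityMeasure P]
    {E : ℕ → Set Ω} {q : ℕ → ℝ} (hq0 : ∀ j, 0 ≤ q j) (hq : ¬ Summable q)
    (hm : ∀ j, MeasurableSet (E j))
    (h : ∀ a j, q (a + j) * P.real (NN (fun i => E (a + i)) j) ≤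
      P.real (E (a + j) ∩ NN (fun i => E (a + i)) j)) :
    ∀ᵐ ω ∂P, ∃ᶠ k in atTop, ω ∈ E k := by
  have key : ∀ a, ∀ᵐ ω ∂P, ∃ j, ω ∈ E (a + j) := by
    intro a
    have h1 : ∀ J, P.real {ω | ¬ ∃ j, ω ∈ E (a + j)} ≤ Real.exp (-∑ j ∈ range J, q (a + j)) :=
      fun J => le_trans (rmono (T := NN (fun i => E (a + i)) J) fun ω hω i _ hi => hω ⟨i, hi⟩)
        (prod_ind (E := fun i => E (a + i)) J (fun j => hm _) fun j _ => h a j)
    have h2 : ¬ Summable fun j : ℕ => q (a + j) := by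
      simp only [add_comm a]
      rwa [summable_nat_add_iff]
    have h3 := (not_summable_iff_tendsto_nat_atTop_of_nonneg fun j => hq0 _).1 h2
    have h5 := ge_of_tendsto' (Real.tendsto_exp_neg_atTop_nhds_zero.comp h3) h1
    rw [ae_iff]
    exact (measureReal_eq_zero_iff (measure_ne_top _ _)).1 (le_antisymm h5 measureReal_nonneg)
  filter_upwards [ae_all_iff.2 key] with ω hω
  refine frequently_atTop.2 fun a => ?_
  obtain ⟨j, hj⟩ := hω a
  exact ⟨_, Nat.le_add_right _ _, hj⟩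

/-- A rise of height `M` starts in the first `N` sites from `y`. -/
def TT {Ω : Type*} (r : ℤ → Ω → ℝ) (y : ℤ) (M : ℝ) (N L : ℕ) : Set Ω :=
  {ω | ∃ j < N, ∃ k ≤ L, M ≤ pr (fw r (y + j)) k ω}

namespace IE

variable {Ω : Type*} [mΩ : MeasurableSpace Ω] {P : Measure Ω} [IsProbabilityMeasure P]
  {κ θ s : ℝ} {r : ℤ → Ω → ℝ} {F : Set ℤ → MeasurableSpace Ω} (h : IE P r F κ θ s)
include h

omit [IsProbabilityMeasure P] in
theorem mTT {S : Set ℤ} {y : ℤ} {N L : ℕ} (M : ℝ) (hS : ∀ i < N + L, y + i ∈ S) :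
    MeasurableSet[F S] (TT r y M N L) := by
  have e : TT r y M N L = ⋃ j, ⋃ (_ : j < N), ⋃ k, ⋃ (_ : k ≤ L),
      {ω | M ≤ pr (fw r (y + j)) k ω} := by
    ext ω
    simp only [TT, Set.mem_ofPred_eq, Set.mem_iUnion, exists_prop]
  rw [e]
  refine MeasurableSet.iUnion fun j => MeasurableSet.iUnion fun hj => MeasurableSet.iUnion fun k =>
    MeasurableSet.iUnion fun hk => measurableSet_le measurable_const (h.mfw fun i hi => ?_)
  have := hS (j + i) (by omega)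
  rwa [Nat.cast_add, ← add_assoc] at this

theorem trap2 {η K : ℝ} (hη : 0 < η) (hK : 1 ≤ K) : ∃ (B : ℕ) (c : ℝ), 0 < c ∧ θ ^ B ≤ 1 / 32 ∧
    ∀ᶠ n : ℕ in atTop, ∀ (G : ℝ) (y : ℤ), (n : ℝ) ^ s⁻¹ ≤ G → G ^ s ≤ n ^ 2 →
      c * (n / G ^ s) ≤ P.real (TT r y (K * G) ⌊η * n⌋₊ (LL B n)) := by
  have hκ0 : 0 < κ := zero_lt_one.trans_le h.hκ
  have hs0 : 0 < s := zero_lt_one.trans h.hs
  have hθ1 : 0 < 1 - θ := sub_pos.2 h.hθ
  have hK0 : 0 < K := by linarith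
  have ht := tendsto_pow_atTop_nhds_zero_of_lt_one h.hθ0.le h.hθ
  obtain ⟨J₀, hJ, hJ0⟩ := ((ht.eventually_le_const
    (show 0 < (κ ^ s)⁻¹ / 4 * (1 - θ) by positivity)).and (eventually_gt_atTop 0)).exists
  obtain ⟨B, hB, hJB⟩ := ((ht.eventually_le_const (show (0 : ℝ) < 1 / 32 by norm_num)).and
    (eventually_ge_atTop (2 * J₀))).exists
  set D : ℝ := 32 * J₀ ^ 2 * κ ^ s with hD
  have hD0 : 0 < D := by positivity
  set c := min (1 / 2) (η / (8 * D * K ^ s)) with hc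
  have hc0 : 0 < c := lt_min one_half_pos (by positivity)
  have hc1 : c ≤ 1 / 2 := min_le_left _ _
  refine ⟨B, c, hc0, hB, ?_⟩
  filter_upwards [ev_LL_le B 1 4 (inv_pos.2 hs0), ev_LL_lin B (show 0 < η / 4 by positivity),
    eventually_ge_atTop 2, tendsto_natCast_atTop_atTop.eventually_ge_atTop (K ^ s)]
    with n h1 h3 h4 hKn G y hG1 hG2
  have hL0 : 0 < LL B n := lt_of_lt_of_le (by omega) (le_LL B n)
  have hL1 : (1 : ℝ) ≤ LL B n := by exact_mod_cast hL0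
  have hg2 : (2 : ℝ) ≤ n := by exact_mod_cast h4
  set L := LL B n with hL
  rw [pow_one] at h1
  have hG0 : 0 < G := by linarith
  have hGs : (n : ℝ) ≤ G ^ s := by
    have := Real.rpow_le_rpow (by positivity) hG1 hs0.le
    rwa [Real.rpow_inv_rpow (by positivity) hs0.ne'] at this
  set M := K * G with hM
  have hGM : G ≤ M := le_mul_of_one_le_left hG0.le hK
  have hM1 : 1 ≤ M := by linarith
  have hMs : M ≤ M ^ s := by simpa using Real.rpow_le_rpow_of_exponent_le hM1 h.hs.le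
  have hMe : M ^ s = K ^ s * G ^ s := Real.mul_rpow hK0.le hG0.le
  have hM3 : M ^ s ≤ n * n ^ 2 := hMe ▸ mul_le_mul hKn hG2 (by positivity) (by positivity)
  have h5 := h.notrap (M := M) (L := L) hJ0 (by rwa [div_le_iff₀ hθ1]) hM1 (by
      have h6 : M ^ (s - 1) ≤ n * n ^ 2 :=
        (Real.rpow_le_rpow_of_exponent_le hM1 (by linarith)).trans hM3
      refine (mul_le_mul h6 (pow_LL_le h.hθ0.le hB (by omega)) (pow_nonneg h.hθ0.le _)
        (by positivity)).trans ?_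
      rw [← div_eq_mul_inv, div_le_iff₀ (by positivity)]
      have h7 : (2 : ℝ) ≤ n ^ 2 := by nlinarith
      nlinarith [mul_le_mul_of_nonneg_left h7 (show (0 : ℝ) ≤ n ^ 3 by positivity)])
    (hJB.trans (le_LL B n)) (by
      rw [← div_eq_mul_inv, div_le_iff₀ (by linarith)]
      linarith) y ⌊η * n / (2 * L)⌋₊
  set J := ⌊η * n / (2 * L)⌋₊ with hJd
  have h6 : (J : ℝ) ≤ η * n / (2 * L) := Nat.floor_le (by positivity)
  have h7 : η * n / (2 * L) < J + 1 := Nat.lt_floor_add_one _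
  rw [le_div_iff₀ (by positivity)] at h6
  rw [div_lt_iff₀ (by positivity)] at h7
  have h8 : 2 * J * L ≤ ⌊η * n⌋₊ := Nat.le_floor (by push_cast; linarith)
  have h9 : P.real (TT r y M ⌊η * n⌋₊ L)ᶜ ≤ Real.exp (-(2 * (c * (n / G ^ s)))) := by
    refine le_trans (rmono fun ω hω => ?_) (h5.trans (Real.exp_le_exp.2 (neg_le_neg ?_)))
    · rintro ⟨j, hj, hk⟩
      exact hω ⟨j, hj.trans_le h8, hk⟩
    · have h10 : c ≤ η / (8 * D * K ^ s) := min_le_right _ _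
      rw [le_div_iff₀ (by positivity)] at h10
      have h11 := mul_le_mul_of_nonneg_right h10 (show (0 : ℝ) ≤ n by linarith)
      rw [← hD, ← mul_div_assoc, ← mul_div_assoc, ← mul_div_assoc, ← mul_assoc (J : ℝ),
        ← div_eq_mul_inv, div_div, hMe, div_le_div_iff₀ (by positivity) (by positivity)]
      have h12 : 2 * (c * n) * (K ^ s * D) ≤ J * L := by nlinarith
      nlinarith [mul_le_mul_of_nonneg_right h12 (show 0 ≤ G ^ s by positivity)]
  rw [probReal_compl_eq_one_sub (h.le Set.univ _ (h.mTT M fun _ _ => trivial))] at h9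
  have h10 : (n : ℝ) / G ^ s ≤ 1 := (div_le_one (by positivity)).2 hGs
  have h11 : 0 ≤ c * (n / G ^ s) := by positivity
  have h12 : c * (n / G ^ s) ≤ 1 / 2 := (mul_le_of_le_one_right hc0.le h10).trans hc1
  generalize c * (n / G ^ s) = q at h9 h11 h12
  have h13 : Real.exp (-(2 * q)) ≤ 1 - q := by
    rw [Real.exp_neg, inv_le_iff_one_le_mul₀ (Real.exp_pos _)]
    nlinarith [Real.add_one_le_exp (2 * q)]
  linarith

theorem ev_trap2 {v δ K C : ℝ} (hv : 0 < v) (hδ : 0 < δ) (hK : 1 ≤ K) (hC : 0 < C) {g : ℕ → ℝ}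
    (hg : ∀ n : ℕ, (n : ℝ) ^ s⁻¹ ≤ g n)
    (hsum : ¬ Summable fun k : ℕ => ((2 ^ k : ℕ) : ℝ) / g (2 ^ k) ^ s) :
    ∃ B : ℕ, θ ^ B ≤ 1 / 32 ∧ ∀ᵐ ω ∂P, ∃ᶠ n : ℕ in atTop, C * g n ≤ n ∧ ∃ x : ℕ,
      v * n ≤ x ∧ x ≤ v * n + 1 + δ / 4 * n ∧ ∃ k ≤ LL B n, K * g n ≤ pr (fw r (x + 1)) k ω := by
  classical
  have hs0 : 0 < s := zero_lt_one.trans h.hs
  set η := min (δ / 4) (v / 4) with hη
  have hη0 : 0 < η := lt_min (by positivity) (by positivity)
  obtain ⟨B, c, hc, hB, h1⟩ := h.trap2 hη0 hK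
  refine ⟨B, hB, ?_⟩
  have t1 : Tendsto (fun k : ℕ => 2 ^ k) atTop atTop := tendsto_pow_atTop_atTop_of_one_lt one_lt_two
  have h2 : ∀ᶠ n : ℕ in atTop, ⌈v * n⌉₊ + ⌊η * n⌋₊ + LL B n ≤ ⌈v * (2 * n : ℕ)⌉₊ := by
    filter_upwards [ev_LL_lin B (show 0 < v / 4 by positivity),
      (tendsto_natCast_atTop_atTop.const_mul_atTop hv).eventually_ge_atTop 2] with n h3 h4
    have h5 := Nat.ceil_lt_add_one (show 0 ≤ v * n by positivity)
    have h6 := Nat.floor_le (show 0 ≤ η * n by positivity)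
    have h7 := mul_le_mul_of_nonneg_right (min_le_right (δ / 4) (v / 4)) n.cast_nonneg
    have h8 := Nat.le_ceil (v * (2 * n : ℕ))
    have : ((⌈v * n⌉₊ + ⌊η * n⌋₊ + LL B n : ℕ) : ℝ) ≤ ⌈v * (2 * n : ℕ)⌉₊ := by
      refine le_trans ?_ h8
      push_cast
      linarith
    exact_mod_cast this
  obtain ⟨k₀, hk₀⟩ := eventually_atTop.1 (t1.eventually (h1.and h2))
  obtain ⟨G, hG⟩ : ∃ G : ℕ → Prop, ∀ k, G k ↔ k₀ ≤ k ∧ g (2 ^ k) ^ s ≤ (2 ^ k : ℕ) ^ 2 ∧
    C * g (2 ^ k) ≤ (2 ^ k : ℕ) := ⟨_, fun _ => Iff.rfl⟩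
  obtain ⟨E, hE⟩ : ∃ E : ℕ → Set Ω, ∀ k, E k = if G k then TT r (⌈v * (2 ^ k : ℕ)⌉₊ + 1)
    (K * g (2 ^ k)) ⌊η * (2 ^ k : ℕ)⌋₊ (LL B (2 ^ k)) else ∅ := ⟨_, fun _ => rfl⟩
  have hEm : ∀ k T, Set.Ioc (⌈v * (2 ^ k : ℕ)⌉₊ : ℤ) ⌈v * (2 ^ (k + 1) : ℕ)⌉₊ ⊆ T →
      MeasurableSet[F T] (E k) := fun k T hT => by
    rw [hE]
    split_ifs with h3
    · have h4 := (hk₀ k ((hG k).1 h3).1).2
      rw [← pow_succ'] at h4
      exact h.mTT _ fun i hi => hT ⟨by omega, by omega⟩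
    · exact @MeasurableSet.empty _ (F T)
  have hg0 : ∀ k : ℕ, 0 < g (2 ^ k) := fun k =>
    (Real.rpow_pos_of_pos (by positivity) _).trans_le (hg _)
  have h3 := bc3 (P := P) (E := E)
    (q := fun k => if G k then c * ((2 ^ k : ℕ) / g (2 ^ k) ^ s) else 0)
    (fun k => by
      have := hg0 k
      split_ifs <;> positivity) (fun h4 => hsum ?_)
    (fun k => h.le _ _ (hEm k _ le_rfl)) fun a j => by
      rw [h.real_inter (S := Set.Ioi (⌈v * (2 ^ (a + j) : ℕ)⌉₊ : ℤ))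
        (T := Set.Iic (⌈v * (2 ^ (a + j) : ℕ)⌉₊ : ℤ)) (Set.Iic_disjoint_Ioi le_rfl).symm
        (hEm _ _ Set.Ioc_subset_Ioi_self) (mNN fun i hi => hEm _ _ fun x hx => hx.2.trans (by
          exact_mod_cast Nat.ceil_mono (mul_le_mul_of_nonneg_left (by
            exact_mod_cast Nat.pow_le_pow_right two_pos (show a + i + 1 ≤ a + j by omega)) hv.le)))]
      refine mul_le_mul_of_nonneg_right ?_ measureReal_nonneg
      rw [hE]
      split_ifs with h4
      · exact (hk₀ _ ((hG _).1 h4).1).1 _ _ (hg _) ((hG _).1 h4).2.1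
      · exact measureReal_nonneg
  · filter_upwards [h3] with ω hω
    refine t1.frequently (hω.mono fun k hk => ?_)
    rw [hE] at hk
    split_ifs at hk with h4
    · obtain ⟨j, hj, i, hi, h5⟩ := hk
      refine ⟨((hG k).1 h4).2.2, ⌈v * (2 ^ k : ℕ)⌉₊ + j, ?_, ?_, i, hi, ?_⟩
      · rw [Nat.cast_add]
        linarith [Nat.le_ceil (v * (2 ^ k : ℕ)), Nat.cast_nonneg (α := ℝ) j]
      · have h6 := Nat.ceil_lt_add_one (show 0 ≤ v * (2 ^ k : ℕ) by positivity)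
        have h7 := Nat.floor_le (show 0 ≤ η * (2 ^ k : ℕ) by positivity)
        have h8 := mul_le_mul_of_nonneg_right (min_le_left (δ / 4) (v / 4))
          (Nat.cast_nonneg (α := ℝ) (2 ^ k))
        have h9 : (j : ℝ) ≤ ⌊η * (2 ^ k : ℕ)⌋₊ := by exact_mod_cast hj.le
        rw [Nat.cast_add]
        linarith
      · rwa [Nat.cast_add, add_right_comm]
    · exact absurd hk (Set.notMem_empty ω)
  · rw [← summable_nat_add_iff k₀]
    refine Summable.of_nonneg_of_le (fun k => by have := hg0 (k + k₀); positivity) (fun k => ?_)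
      ((summable_nat_add_iff k₀).2 (((h4.mul_left c⁻¹).add summable_geometric_two).add
        ((summable_two h.hs).mul_left (C ^ s))))
    have h5 := hg0 (k + k₀)
    have h6 : k₀ ≤ k + k₀ := Nat.le_add_left _ _
    generalize k + k₀ = m at h5 h6
    have h7 : (0 : ℝ) < (2 ^ m : ℕ) := by positivity
    have p1 : 0 ≤ (1 / 2 : ℝ) ^ m := by positivity
    have p2 : 0 ≤ C ^ s * (((2 ^ m : ℕ) : ℝ) / ((2 ^ m : ℕ) : ℝ) ^ s) := by positivity
    split_ifs with h8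
    · rw [inv_mul_cancel_left₀ hc.ne']
      linarith
    · rw [hG, not_and_or, not_and_or, not_le, not_le, not_le] at h8
      rcases h8 with h8 | h8 | h8
      · omega
      · have h9 := div_le_div_of_nonneg_left h7.le (by positivity) h8.le
        have e : ((2 ^ m : ℕ) : ℝ) / ((2 ^ m : ℕ) : ℝ) ^ 2 = (1 / 2) ^ m := by
          push_cast
          rw [one_div, inv_pow]
          field_simp
        linarith
      · have h9 := Real.rpow_le_rpow h7.le h8.le hs0.le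
        rw [Real.mul_rpow hC.le h5.le] at h9
        have h10 : ((2 ^ m : ℕ) : ℝ) / g (2 ^ m) ^ s ≤
            C ^ s * (((2 ^ m : ℕ) : ℝ) / ((2 ^ m : ℕ) : ℝ) ^ s) := by
          rw [← mul_div_assoc, div_le_div_iff₀ (by positivity) (by positivity)]
          nlinarith [mul_le_mul_of_nonneg_left h9 h7.le]
        linarith

end IE

theorem int_lower {Ω : Type*} [mΩ : MeasurableSpace Ω] {P : Measure Ω} [IsProbabilityMeasure P]
    {κ θ s am v δ : ℝ} {e : Ω → ℤ → ℝ × ℝ} {F : Set ℤ → MeasurableSpace Ω}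
    (he : ∀ ω, Ell (e ω)) (h : IE P (fun x ω => rr (e ω) x) F κ θ s)
    (ha : IA P (fun x ω => aa (e ω) x) F κ am) (hv : 0 < v) (hδ : 0 < δ)
    (hu : (v + δ) * (am / (1 - θ)) < 1) {g : ℕ → ℝ} (hg : ∀ n : ℕ, (n : ℝ) ^ s⁻¹ ≤ g n)
    (hsum : ¬ Summable fun k : ℕ => ((2 ^ k : ℕ) : ℝ) / g (2 ^ k) ^ s)
    {c : ℝ} (hc : 0 < c) : ∀ᵐ ω ∂P, ∃ᶠ n : ℕ in atTop, ∀ A : Set ℤ,
      (∀ x : ℤ, (x : ℝ) / n ∈ Set.Ioo (v - δ) (v + δ) → x ∈ A) →
        Real.exp (-(c * (n / g n))) ≤ law (e ω) A n 0 := by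
  have hu1 := u_le_one h ha hv hδ hu
  have h16 : 0 ≤ (v + δ) * (am / (1 - θ)) := mul_nonneg (by linarith)
    (div_nonneg (zero_le_one.trans (h.one_le_am ha)) (sub_nonneg.2 h.hθ.le))
  obtain ⟨γ, hγ⟩ : ∃ γ, γ = (1 - (v + δ) * (am / (1 - θ))) / 2 := ⟨_, rfl⟩
  have hγ0 : 0 < γ := by linarith
  have hK : 0 < 4 / c := by positivity
  have hK' : 0 < 2 / (c * γ) := by positivity
  obtain ⟨B, hB, h1⟩ := h.ev_trap2 hv hδ (K := 4 / c + 2) (C := 4 / c + 2 + 2 / (c * γ))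
    (by linarith) (by linarith) hg hsum
  filter_upwards [h1, h.ev_prod hB, h.ev_lln ha (show 0 < v + δ by linarith) hγ0] with ω h2 h3 h4
  refine (h2.and_eventually (h3.and (h4.and ((ev_LL_lin B
    (show 0 < min (δ / 4) 1 by positivity)).and (((tendsto_natCast_atTop_atTop.const_mul_atTop
      (show 0 < δ / 4 by positivity)).eventually_ge_atTop 1).and (eventually_gt_atTop 0)))))).mono ?_
  rintro n ⟨⟨h5, x, hx1, hx2, k, hk, hr⟩, h6, h7, h10, h11, hn⟩ A hA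
  have hn1 : (1 : ℝ) ≤ n := by exact_mod_cast hn
  have hn0 : (0 : ℝ) < n := by linarith
  have hg1 : 1 ≤ g n :=
    (Real.one_le_rpow hn1 (inv_pos.2 (zero_lt_one.trans h.hs)).le).trans (hg n)
  have hg0 : 0 < g n := by linarith
  have hL2 : LL B n ≤ n := by
    have := h10.trans (mul_le_mul_of_nonneg_right (min_le_right _ _) hn0.le)
    rw [one_mul] at this
    exact_mod_cast this
  have hx3 : (x : ℝ) ≤ (v + δ) * n := by linarith
  have hx4 : x ≤ n := by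
    have : (x : ℝ) ≤ n := hx3.trans (mul_le_of_le_one_left hn0.le hu1)
    exact_mod_cast this
  have h12 := mul_pos hK hg0
  have h13 := mul_pos hK' hg0
  refine le_trans ?_ (lower_pack (A := A) (M := (4 / c + 2) * g n) (γ := γ) (v := v) (he ω) hn
    (by linarith) (by linarith) hδ
    (h10.trans (mul_le_mul_of_nonneg_right (min_le_left _ _) hn0.le)) hL2 (by linarith)
    (by linarith) hx4 hk hr h6 hγ0.le (by linarith) (by
      simp only [tt_eq]
      exact (h7 x hx3).trans (le_of_eq (by rw [hγ]; ring))) hA)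
  have h14 : Real.exp (-(c / 2 * (n / g n))) ≤ γ := by
    have h15 : γ⁻¹ ≤ c / 2 * (n / g n) := by
      have h17 : 2 / (c * γ) ≤ n / g n := by
        rw [le_div_iff₀ hg0]
        linarith
      refine le_trans (le_of_eq ?_) (mul_le_mul_of_nonneg_left h17 (half_pos hc).le)
      field_simp
    rw [Real.exp_neg]
    exact inv_le_of_inv_le₀ hγ0 (by linarith [Real.add_one_le_exp (c / 2 * (n / g n))])
  have h15 : 2 * (n / ((4 / c + 2) * g n)) ≤ c / 2 * (n / g n) := by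
    have h17 := div_le_div_of_nonneg_left hn0.le h12 (show 4 / c * g n ≤ (4 / c + 2) * g n by linarith)
    have e : c / 2 * (n / g n) = 2 * (n / (4 / c * g n)) := by
      field_simp
      ring
    linarith
  rw [show -(c * (n / g n)) = -(c / 2 * (n / g n)) + -(c / 2 * (n / g n)) by ring, Real.exp_add]
  exact mul_le_mul (Real.exp_le_exp.2 (neg_le_neg h15)) h14 (Real.exp_pos _).le (Real.exp_pos _).le

end Pool.Agent.RW
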