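import Pool.Agent.P.MP_4175a8_pr.Up

open Finset

namespace Pool.Agent.RW

theorem upper_det2 {e : ℤ → ℝ × ℝ} {A : Set ℤ} (he : Ell e) {μ ν t γ : ℝ} {n m L T : ℕ}
    (hT : T ≤ n) (hL : 0 < L) (hLn : L ≤ 2 * n + 1)
    (hm : m ≤ n) (hμ : 0 ≤ μ) (hν : 0 ≤ ν) (hγ : γ ≤ 1)
    (hp : ∀ i, i + L ≤ 2 * n + 1 → ∏ j ∈ range L, rr e (-n + (i + j : ℕ)) ≤ ν)
    (hw : ∀ y, y + L ≤ 2 * n + 1 → ∑ j ∈ range L, tt e n (y + j + 1) ≤ t)
    (hc : Real.exp (2 * μ * t) * (1 + 2 * ν * t) ≤ 1 + γ) (hA : ∀ x ∈ A, x ≤ m) :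
    law e A T 0 ≤ Real.exp (-μ * T + μ * (1 + γ) * ∑ y ∈ range m, tt e n (n + y + 1)) := by
  set a : ℕ → ℝ := fun i => aa e (-n + i) with ha
  set ρ : ℕ → ℝ := fun i => rr e (-n + i) with hρ
  have ha1 : ∀ i, 1 ≤ a i := fun i => he.one_le_aa _
  have ha0 : ∀ i, 0 ≤ a i := fun i => zero_le_one.trans (ha1 i)
  have hρ0 : ∀ i, 0 ≤ ρ i := fun i => (he.rr_pos _).le
  have hs := sig_le hL hLn ha1 hρ0 hμ hν hγ hp hw hc
  have hτ := tau_nonneg ha0 hρ0
  have hσ := sig_nonneg ha0 hρ0 hμ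
  set F : ℕ → ℝ := fun i => ∏ j ∈ Ico i (2 * n + 2), (1 + μ * sig a ρ μ j) with hF
  have h1 : ∀ j, 1 ≤ 1 + μ * sig a ρ μ j := fun j => le_add_of_nonneg_right (mul_nonneg hμ (hσ j))
  have hF1 : ∀ i, 1 ≤ F i := fun i => one_le_prd _ h1
  have hFs : ∀ i, i < 2 * n + 2 → F i = (1 + μ * sig a ρ μ i) * F (i + 1) := fun i hi =>
    prod_eq_prod_Ico_succ_bot hi _
  have hFk : ∀ i k, i + k ≤ 2 * n + 2 →
      F i = (∏ j ∈ range k, (1 + μ * sig a ρ μ (i + j))) * F (i + k) := by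
    intro i k
    induction k with
    | zero => simp
    | succ k ih =>
      intro h
      rw [ih (by omega), hFs (i + k) (by omega), prod_range_succ, ← add_assoc]
      ring
  have key := law_super (A := A) he (f := fun x => F (x + n + 1).toNat) (lam := Real.exp (-μ))
    (c := F (n + 1 + m)) (n := n) (Real.exp_pos _).le (fun x hx1 hx2 => ?_)
    (fun x => zero_le_one.trans (hF1 _)) (fun x hx hx1 hx2 => ?_) T 0 (by omega) (by omega)
  · have e0 : ((0 : ℤ) + n + 1).toNat = n + 1 := by omega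
    simp only [e0] at key
    rw [hFk (n + 1) m (by omega), ← Real.exp_nat_mul, ← mul_assoc, mul_comm] at key
    have h2 := le_of_mul_le_mul_right key (zero_lt_one.trans_le (hF1 _))
    refine h2.trans ?_
    rw [Real.exp_add, mul_comm (T : ℝ)]
    refine mul_le_mul_of_nonneg_left ((prod_one_add_le (range m)
      (f := fun j => μ * sig a ρ μ (n + 1 + j)) fun j => mul_nonneg hμ (hσ _)).trans
      (Real.exp_le_exp.2 ?_)) (Real.exp_pos _).le
    rw [mul_sum]
    refine sum_le_sum fun j hj => ?_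
    have h3 := hs (n + 1 + j) (by have := mem_range.1 hj; omega)
    have e1 : n + j + 1 = n + 1 + j := by omega
    rw [e1, mul_assoc]
    exact mul_le_mul_of_nonneg_left h3 hμ
  · obtain ⟨i, rfl⟩ : ∃ i : ℕ, x = -n + i := ⟨(x + n).toNat, by omega⟩
    have e1 : (-(n : ℤ) + i + 1 + n + 1).toNat = i + 1 + 1 := by omega
    have e2 : (-(n : ℤ) + i - 1 + n + 1).toNat = i := by omega
    have e3 : (-(n : ℤ) + i + n + 1).toNat = i + 1 := by omega
    obtain ⟨hp0, hq0, hpq⟩ := he (-n + i)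
    simp only [PP, e1, e2, e3]
    rw [hFs i (by omega), hFs (i + 1) (by omega)]
    have hG := hF1 (i + 1 + 1)
    set G := F (i + 1 + 1)
    set p := (e (-n + i)).1
    set q := (e (-n + i)).2
    have h2 := hs (i + 1) (by omega)
    have h3 : sig a ρ μ (i + 1) ≤ 2 * tau a ρ (i + 1) := by nlinarith [hτ (i + 1)]
    have h4 : p * sig a ρ μ (i + 1) = (1 + q * sig a ρ μ i) * (1 + 2 * μ * tau a ρ (i + 1)) := by
      have ea : p * a i = 1 := mul_inv_cancel₀ hp0.ne'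
      have eb : p * ρ i = q := mul_div_cancel₀ _ hp0.ne'
      rw [sig, ← mul_assoc, mul_add p, ← mul_assoc p, ea, eb]
    set s1 := sig a ρ μ (i + 1)
    set s0 := sig a ρ μ i
    have hs0 : 0 ≤ s0 := hσ _
    have hs1 : 0 ≤ s1 := hσ _
    have h5 : (1 + q * s0) * (1 + μ * s1) ≤ p * s1 := by
      rw [h4]
      exact mul_le_mul_of_nonneg_left (by nlinarith) (by positivity)
    have h6 : p + q * ((1 + μ * s0) * (1 + μ * s1)) + (1 - p - q) * (1 + μ * s1) ≤
        (1 - μ) * (1 + μ * s1) := by nlinarith [mul_le_mul_of_nonneg_left h5 hμ]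
    have h7 : (1 - μ) * (1 + μ * s1) ≤ Real.exp (-μ) * (1 + μ * s1) :=
      mul_le_mul_of_nonneg_right (by linarith [Real.add_one_le_exp (-μ)]) (by positivity)
    nlinarith [mul_le_mul_of_nonneg_right (h6.trans h7) (zero_le_one.trans hG)]
  · have h2 := hA x hx
    have h3 := hFk (x + n + 1).toNat (n + 1 + m - (x + n + 1).toNat) (by omega)
    have e1 : (x + n + 1).toNat + (n + 1 + m - (x + n + 1).toNat) = n + 1 + m := by omega
    rw [e1] at h3
    simp only [h3]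
    exact le_mul_of_one_le_left (zero_le_one.trans (hF1 _)) (one_le_prd _ fun j => h1 _)

end Pool.Agent.RW
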