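import Pool.Agent.P.MP_4175a8_pr.Clip
import Pool.Agent.P.MP_4175a8_pr.Up2

open Finset MeasureTheory ProbabilityTheory Filter

namespace Pool.Agent.RW

theorem upper_pack {e : ℤ → ℝ × ℝ} {A : Set ℤ} (he : Ell e) {κ t γ ρ₀ : ℝ} {n N m L : ℕ}
    (hκ : ∀ x, aa e x ≤ κ) (hn : n ≤ N) (hN : 2 ≤ N) (hL : 0 < L) (hLN : L ≤ N) (hm : m ≤ N)
    (ht : 0 < t) (hγ0 : 0 < γ) (hρ : 0 ≤ ρ₀) (hγ : ρ₀ + 4 * γ ≤ 1) (htN : 18 * κ * t ≤ γ * N ^ 2)
    (hp : ∀ y : ℤ, -N ≤ y → y ≤ N → ∏ j ∈ range L, rr e (y + j) ≤ ((N : ℝ) ^ 2)⁻¹)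
    (hD : ∀ j, 2 * j * L ≤ 2 * N + 1 → DD (fun i => rr e (-N + (2 * j * L : ℕ) + i)) (4 * L) ≤ t)
    (hS : ∑ y ∈ range m, tt e N (N + y + 1) ≤ (ρ₀ + γ) * n) (hA : ∀ x ∈ A, x ≤ m) :
    law e A n 0 ≤ Real.exp (-(Real.log (1 + γ / 3) / 2 * γ / (3 * κ * t) * n)) := by
  have hκ0 : 0 < κ := zero_lt_one.trans_le ((he.one_le_aa 0).trans (hκ 0))
  have hγ1 : γ ≤ 1 := by linarith
  set α := Real.log (1 + γ / 3) / 2 with hα
  have hα0 : 0 < α := half_pos (Real.log_pos (by linarith))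
  have hn2 : (2 : ℝ) ≤ N := by exact_mod_cast hN
  have h9 : (L : ℝ) ≤ N := by exact_mod_cast hLN
  have hp' : ∀ i, i + L ≤ 2 * N + 1 →
      ∏ j ∈ range L, rr e (-N + (i + j : ℕ)) ≤ ((N : ℝ) ^ 2)⁻¹ := fun i hi => by
    refine le_trans (le_of_eq ?_) (hp (-N + i) (by omega) (by omega))
    simp only [Nat.cast_add, add_assoc]
  have hw := window (a := fun i => aa e (-N + i)) (ρ := fun i => rr e (-N + i))
    (t := t) (N := 2 * N + 1) hL (fun i => zero_le_one.trans (he.one_le_aa _))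
    (fun i => hκ _) (fun i => (he.rr_pos _).le) (by positivity) (by
      rw [one_div]
      exact inv_anti₀ two_pos (by nlinarith)) (by
      rw [← div_eq_mul_inv, div_le_one (by positivity)]
      nlinarith) hp' fun j hj => by
      refine le_trans (le_of_eq ?_) (hD j hj)
      simp only [Nat.cast_add, add_assoc]
  have h11 := upper_det2 (A := A) (μ := α / (3 * κ * t)) he hn hL (by omega) hm
    (by positivity) (by positivity) hγ1 hp' hw (by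
      have e1 : 2 * (α / (3 * κ * t)) * (3 * κ * t) = Real.log (1 + γ / 3) := by
        rw [hα]
        field_simp
      have h12 : 2 * ((N : ℝ) ^ 2)⁻¹ * (3 * κ * t) ≤ γ / 3 := by
        rw [mul_right_comm, ← div_eq_mul_inv, div_le_iff₀ (by positivity)]
        linarith
      rw [e1, Real.exp_log (by linarith)]
      nlinarith) hA
  refine h11.trans (Real.exp_le_exp.2 ?_)
  have h12 := mul_le_mul_of_nonneg_left hS (show 0 ≤ α / (3 * κ * t) * (1 + γ) by positivity)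
  have h13 : (1 + γ) * (ρ₀ + γ) ≤ 1 - γ := by nlinarith
  have h14 := mul_le_mul_of_nonneg_left h13 (show 0 ≤ α / (3 * κ * t) * n by positivity)
  rw [mul_div_right_comm α γ]
  linarith

theorem LL_two (B : ℕ) {n : ℕ} (hn : 0 < n) : LL B (2 * n) ≤ LL (2 * B) n := by
  rw [LL, LL, mul_comm 2 n, Nat.log_mul_base one_lt_two hn.ne']
  nlinarith

theorem ev_sc_g {s : ℝ} (hs : 1 < s) {g : ℕ → ℝ} (hg : ∀ n : ℕ, (n : ℝ) ^ s⁻¹ ≤ g n) :
    ∀ᶠ n in atTop, sc s n ≤ g n := by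
  filter_upwards [ev_ll] with n h2
  exact (Real.rpow_le_rpow (div_nonneg n.cast_nonneg (by linarith)) (div_le_self n.cast_nonneg h2)
    (inv_pos.2 (zero_lt_one.trans hs)).le).trans (hg n)

theorem summable_two {s : ℝ} (hs : 1 < s) :
    Summable fun k : ℕ => ((2 ^ k : ℕ) : ℝ) / ((2 ^ k : ℕ) : ℝ) ^ s := by
  have h1 : (2 : ℝ) < 2 ^ s := by simpa using Real.rpow_lt_rpow_of_exponent_lt one_lt_two hs
  refine (summable_geometric_of_lt_one (r := 2 / 2 ^ s) (by positivity)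
    ((div_lt_one (by positivity)).2 h1)).congr fun k => ?_
  rw [div_pow, Nat.cast_pow, Nat.cast_ofNat, ← Real.rpow_natCast ((2 : ℝ) ^ s),
    ← Real.rpow_mul zero_le_two, mul_comm, Real.rpow_mul zero_le_two, Real.rpow_natCast]

namespace IE

variable {Ω : Type*} [mΩ : MeasurableSpace Ω] {P : Measure Ω} [IsProbabilityMeasure P]
  {κ θ s : ℝ} {r : ℤ → Ω → ℝ} {F : Set ℤ → MeasurableSpace Ω} (h : IE P r F κ θ s)
include h

theorem anybad {L N : ℕ} {t : ℝ} (hL : 0 < L) (h3 : 4 * L ≤ N) (ht : ((4 * L : ℕ) : ℝ) ^ 6 ≤ t) :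
    P.real (⋃ j ∈ range ((2 * N + 1) / (2 * L) + 1), Bad r (-N + (2 * j * L : ℕ)) (4 * L) t) ≤
      8 * C0 κ θ s * N * (t ^ s)⁻¹ := by
  refine (measureReal_biUnion_finset_le _ _).trans
    ((sum_le_card_nsmul _ _ _ fun j _ => h.tailD (by omega) ht _).trans ?_)
  have h9 : (2 * N + 1) / (2 * L) * (2 * L) ≤ 2 * N + 1 := Nat.div_mul_le_self _ _
  rw [card_range, nsmul_eq_mul]
  generalize (2 * N + 1) / (2 * L) = J at h9
  have h8 : (J + 1) * (4 * L) ≤ 8 * N := by nlinarith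
  have h10 : ((J + 1 : ℕ) : ℝ) * (4 * L : ℕ) ≤ 8 * N := by exact_mod_cast h8
  have ht0 : 0 ≤ t := le_trans (by positivity) ht
  have := mul_le_mul_of_nonneg_left h10
    (mul_nonneg h.C0_nonneg (show 0 ≤ (t ^ s)⁻¹ by positivity))
  linarith

theorem ev_nobad {B : ℕ} (hB : 0 < B) {g : ℕ → ℝ} (hg : ∀ n : ℕ, (n : ℝ) ^ s⁻¹ ≤ g n)
    (hsum : Summable fun k : ℕ => ((2 ^ k : ℕ) : ℝ) / g (2 ^ k) ^ s) {ζ : ℝ} (hζ : 0 < ζ) :
    ∀ᵐ ω ∂P, ∀ᶠ k : ℕ in atTop, ∀ j : ℕ, 2 * j * LL B (2 * 2 ^ k) ≤ 2 * (2 * 2 ^ k) + 1 →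
      ω ∉ Bad r (-(2 * 2 ^ k : ℕ) + (2 * j * LL B (2 * 2 ^ k) : ℕ)) (4 * LL B (2 * 2 ^ k))
        (ζ * min (g (2 ^ k)) (2 ^ k : ℕ)) := by
  have hL : ∀ n, 0 < LL B n := fun n => hB.trans_le (le_LL B n)
  have h0 : ∀ᶠ n : ℕ in atTop, P.real (⋃ j ∈ range ((2 * (2 * n) + 1) / (2 * LL B (2 * n)) + 1),
      Bad r (-(2 * n : ℕ) + (2 * j * LL B (2 * n) : ℕ)) (4 * LL B (2 * n)) (ζ * min (g n) n)) ≤
        16 * C0 κ θ s / ζ ^ s * (n / g n ^ s + n / (n : ℝ) ^ s) := by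
    filter_upwards [ev_le_sc h.hs (2 * B) 6 (4 ^ 6 / ζ), ev_sc_g h.hs hg,
      ev_LL_le (2 * B) 6 (4 ^ 6 / ζ) one_pos, ev_LL_lin (2 * B) (show (0 : ℝ) < 1 / 2 by norm_num),
      eventually_gt_atTop 0] with n h1 h2 h3 h4 hn
    have h5 : (LL B (2 * n) : ℝ) ≤ LL (2 * B) n := by exact_mod_cast LL_two B hn
    have hn0 : (0 : ℝ) < n := by exact_mod_cast hn
    have hg0 : 0 < g n := (Real.rpow_pos_of_pos hn0 _).trans_le (hg n)
    rw [Real.rpow_one] at h3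
    refine (h.anybad (hL _) ?_ ?_).trans ?_
    · have : (4 : ℝ) * LL B (2 * n) ≤ 2 * n := by linarith
      exact_mod_cast this
    · have h6 := le_min (h1.trans h2) h3
      rw [div_mul_eq_mul_div, div_le_iff₀' hζ] at h6
      refine le_trans ?_ h6
      push_cast
      rw [mul_pow]
      exact mul_le_mul_of_nonneg_left (pow_le_pow_left₀ (by positivity) h5 6) (by positivity)
    · have h6 : (min (g n) n ^ s)⁻¹ ≤ (g n ^ s)⁻¹ + ((n : ℝ) ^ s)⁻¹ := by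
        rcases min_choice (g n) n with h7 | h7 <;> rw [h7]
        · exact le_add_of_nonneg_right (by positivity)
        · exact le_add_of_nonneg_left (by positivity)
      have h7 := mul_le_mul_of_nonneg_left h6 (mul_nonneg (mul_nonneg h.C0_nonneg hn0.le)
        (show 0 ≤ (ζ ^ s)⁻¹ by positivity))
      rw [Real.mul_rpow hζ.le (le_min hg0.le hn0.le), mul_inv]
      simp only [div_eq_mul_inv]
      push_cast
      linarith
  have h1 : Tendsto (fun k : ℕ => 2 ^ k) atTop atTop := tendsto_pow_atTop_atTop_of_one_lt one_lt_two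
  filter_upwards [bc1 ((hsum.add (summable_two h.hs)).mul_left (16 * C0 κ θ s / ζ ^ s))
    (h1.eventually h0)] with ω hω
  filter_upwards [hω] with k hk j hj hb
  refine hk (Set.mem_iUnion₂.2 ⟨j, mem_range.2 (Nat.lt_succ_of_le
    ((Nat.le_div_iff_mul_le (by have := hL (2 * 2 ^ k); omega)).2 ?_)), hb⟩)
  rwa [← mul_assoc, mul_comm j 2]

end IE

theorem int_upper {Ω : Type*} [mΩ : MeasurableSpace Ω] {P : Measure Ω} [IsProbabilityMeasure P]
    {κ θ s am v δ : ℝ} {e : Ω → ℤ → ℝ × ℝ} {F : Set ℤ → MeasurableSpace Ω}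
    (he : ∀ ω, Ell (e ω)) (h : IE P (fun x ω => rr (e ω) x) F κ θ s)
    (ha : IA P (fun x ω => aa (e ω) x) F κ am) (hv : 0 < v) (hδ : 0 < δ)
    (hu : (v + δ) * (am / (1 - θ)) < 1) {g : ℕ → ℝ} (hg : ∀ n : ℕ, (n : ℝ) ^ s⁻¹ ≤ g n)
    (hmono : Monotone g) (hsum : Summable fun k : ℕ => ((2 ^ k : ℕ) : ℝ) / g (2 ^ k) ^ s)
    {K : ℝ} (hK : 0 < K) : ∀ᵐ ω ∂P, ∀ᶠ n : ℕ in atTop, ∀ A : Set ℤ,
      (∀ x ∈ A, (x : ℝ) / n < v + δ) → law (e ω) A n 0 ≤ Real.exp (-(K * (n / g n))) := by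
  have hu1 := u_le_one h ha hv hδ hu
  have hκ0 : 0 < κ := zero_lt_one.trans_le h.hκ
  obtain ⟨B, hB, hB0⟩ := (((tendsto_pow_atTop_nhds_zero_of_lt_one h.hθ0.le h.hθ).eventually_le_const
    (show (0 : ℝ) < 1 / 32 by norm_num)).and (eventually_gt_atTop 0)).exists
  have h16 : 0 ≤ (v + δ) * (am / (1 - θ)) := mul_nonneg (by linarith)
    (div_nonneg (zero_le_one.trans (h.one_le_am ha)) (sub_nonneg.2 h.hθ.le))
  obtain ⟨γ, hγ⟩ : ∃ γ, γ = (1 - (v + δ) * (am / (1 - θ))) / 4 := ⟨_, rfl⟩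
  have hγ0 : 0 < γ := by linarith
  have hα0 : 0 < Real.log (1 + γ / 3) / 2 := half_pos (Real.log_pos (by linarith))
  obtain ⟨ζ, hζ⟩ : ∃ ζ, ζ = Real.log (1 + γ / 3) / 2 * γ / (15 * κ * K) := ⟨_, rfl⟩
  have hζ0 : 0 < ζ := hζ ▸ by positivity
  have t1 : Tendsto (fun n : ℕ => 2 * 2 ^ Nat.log 2 n) atTop atTop :=
    (tendsto_grid two_pos).comp tendsto_natlog
  have t2 : Tendsto (fun n : ℕ => 2 * n) atTop atTop :=
    tendsto_atTop_mono (fun n => Nat.le_mul_of_pos_left n two_pos) tendsto_id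
  filter_upwards [h.ev_nobad hB0 hg hsum hζ0, h.ev_prod hB,
    h.ev_lln ha (show 0 < (v + δ) / 2 by linarith) (half_pos hγ0)] with ω h2 h3 h4
  filter_upwards [tendsto_natlog.eventually h2, t1.eventually h3, t2.eventually h4,
    t1.eventually (ev_LL_lin B one_pos), eventually_gt_atTop 0,
    t1.eventually (tendsto_natCast_atTop_atTop.eventually_ge_atTop (90 * κ * ζ / γ))]
    with n h5 h6 h7 h8 hn h9 A hA
  have h10 : 2 ^ Nat.log 2 n ≤ n := Nat.pow_log_le_self 2 hn.ne'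
  have h11 : n < 2 * 2 ^ Nat.log 2 n := by
    rw [← pow_succ']
    exact Nat.lt_pow_succ_log_self one_lt_two n
  generalize 2 ^ Nat.log 2 n = n₀ at h5 h6 h8 h9 h10 h11
  have hn0 : (0 : ℝ) < n := by exact_mod_cast hn
  have hn1 : (0 : ℝ) < n₀ := by exact_mod_cast (show 0 < n₀ by omega)
  have hg0 : 0 < g n₀ := (Real.rpow_pos_of_pos hn1 _).trans_le (hg n₀)
  have hg1 : g n₀ ≤ g n := hmono h10
  have hun : 0 ≤ (v + δ) * n := by positivity
  have hm : (⌊(v + δ) * n⌋₊ : ℝ) ≤ (v + δ) * n := Nat.floor_le hun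
  have hm' : ⌊(v + δ) * n⌋₊ ≤ n := by
    have : (⌊(v + δ) * n⌋₊ : ℝ) ≤ n := hm.trans (mul_le_of_le_one_left hn0.le hu1)
    exact_mod_cast this
  have hmin : 0 < min (g n₀) n₀ := lt_min hg0 hn1
  rw [one_mul] at h8
  refine (upper_pack (A := A) (n := n) (N := 2 * n₀) (m := ⌊(v + δ) * n⌋₊) (L := LL B (2 * n₀))
    (t := 5 * (ζ * min (g n₀) n₀)) (he ω) (fun x => ha.bd x ω) h11.le (by omega)
    (hB0.trans_le (le_LL B _)) (by exact_mod_cast h8) (by omega) (by positivity) hγ0 h16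
    (by linarith) ?_ h6 (fun j hj => not_lt.1 (h5 j hj)) ?_ fun x hx => ?_).trans
    (Real.exp_le_exp.2 (neg_le_neg ?_))
  · rw [div_le_iff₀ hγ0] at h9
    push_cast at h9 ⊢
    have h12 := mul_le_mul_of_nonneg_left (min_le_right (g n₀) n₀)
      (show 0 ≤ 90 * κ * ζ by positivity)
    nlinarith
  · simp only [tt_eq]
    have h12 := h7 ⌊(v + δ) * n⌋₊ (by push_cast; linarith)
    refine (sum_le_sum fun y _ => h.tN_mono ha (by omega) _ _).trans (h12.trans (le_of_eq ?_))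
    push_cast
    ring
  · rw [Int.natCast_floor_eq_floor hun]
    exact Int.le_floor.2 ((div_lt_iff₀ hn0).1 (hA x hx)).le
  · have e1 : Real.log (1 + γ / 3) / 2 * γ / (3 * κ * (5 * (ζ * min (g n₀) n₀))) * n =
        K * (n / min (g n₀) n₀) := by
      have h12 := hα0.ne'
      rw [hζ]
      generalize Real.log (1 + γ / 3) / 2 = α at h12
      field_simp
      ring
    rw [e1]
    exact mul_le_mul_of_nonneg_left
      (div_le_div_of_nonneg_left hn0.le hmin ((min_le_left _ _).trans hg1)) hK.le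

end Pool.Agent.RW
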