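import Pool.Agent.P.MP_4175a8_pr.Up

open Finset

namespace Pool.Agent.RW

variable {e : ℤ → ℝ × ℝ} {A : Set ℤ}

theorem law_sub (he : Ell e) {g : ℤ → ℝ} {lam : ℝ} (hlam : 0 ≤ lam)
    (hg : ∀ x, lam * g x ≤ PP e g x) (h1 : ∀ x, g x ≤ 1) (hA : ∀ x, x ∉ A → g x ≤ 0) (t : ℕ) :
    ∀ x, lam ^ t * g x ≤ law e A t x := by
  induction t with
  | zero =>
    intro x
    unfold law
    split_ifs with h
    · simpa using h1 x
    · simpa using hA x h
  | succ t ih =>
    intro x
    have h3 := PP_mono he (f := fun y => lam ^ t * g y + 0) (g := law e A t) (x := x)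
      (by simpa using ih _) (by simpa using ih _) (by simpa using ih _)
    rw [PP_lin, add_zero] at h3
    have h4 := mul_le_mul_of_nonneg_left (hg x) (pow_nonneg hlam t)
    rw [law_succ, pow_succ]
    linarith

/-- A function that is harmonic to the right of `j` and to the left of `j`. -/
noncomputable def hh (e : ℤ → ℝ × ℝ) (j x : ℤ) : ℝ :=
  (∑ k ∈ range (x - j).toNat, ∏ i ∈ range k, rr e (j + 1 + i)) +
    ∑ k ∈ range (j - x).toNat, (∏ i ∈ range k, rr e (j - 1 - i))⁻¹

theorem hh_nonneg (he : Ell e) (j x : ℤ) : 0 ≤ hh e j x :=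
  add_nonneg (sum_nonneg fun _ _ => prod_nonneg fun _ _ => (he.rr_pos _).le)
    (sum_nonneg fun _ _ => inv_nonneg.2 (prod_nonneg fun _ _ => (he.rr_pos _).le))

theorem PP_hh (he : Ell e) (j x : ℤ) :
    PP e (hh e j) x ≤ hh e j x + if x = j then 1 else 0 := by
  obtain ⟨hp, hq, hs⟩ := he x
  rcases lt_trichotomy x j with h | h | h
  · obtain ⟨d, rfl⟩ : ∃ d : ℕ, x = j - 1 - d := ⟨(j - 1 - x).toNat, by omega⟩
    have e1 : (j - 1 - d + 1 - j).toNat = 0 := by omega
    have e2 : (j - 1 - d - 1 - j).toNat = 0 := by omega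
    have e3 : (j - 1 - d - j).toNat = 0 := by omega
    have e4 : (j - (j - 1 - d + 1)).toNat = d := by omega
    have e5 : (j - (j - 1 - d - 1)).toNat = d + 1 + 1 := by omega
    have e6 : (j - (j - 1 - d)).toNat = d + 1 := by omega
    rw [if_neg h.ne]
    simp only [PP, hh, e1, e2, e3, e4, e5, e6, sum_range_succ, prod_range_succ, range_zero,
      sum_empty]
    have hQ : 0 < ∏ i ∈ range d, rr e (j - 1 - i) := prod_pos fun _ _ => he.rr_pos _
    have e7 : (e (j - 1 - d)).2 * ((∏ i ∈ range d, rr e (j - 1 - i)) * rr e (j - 1 - d))⁻¹ =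
        (e (j - 1 - d)).1 * (∏ i ∈ range d, rr e (j - 1 - i))⁻¹ := by
      rw [rr]
      field_simp
    nlinarith [e7]
  · subst h
    simp [PP, hh, hs]
  · obtain ⟨d, rfl⟩ : ∃ d : ℕ, x = j + 1 + d := ⟨(x - j - 1).toNat, by omega⟩
    have e1 : (j + 1 + d + 1 - j).toNat = d + 1 + 1 := by omega
    have e2 : (j + 1 + d - 1 - j).toNat = d := by omega
    have e3 : (j + 1 + d - j).toNat = d + 1 := by omega
    have e4 : (j - (j + 1 + d + 1)).toNat = 0 := by omega
    have e5 : (j - (j + 1 + d - 1)).toNat = 0 := by omega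
    have e6 : (j - (j + 1 + d)).toNat = 0 := by omega
    rw [if_neg h.ne']
    simp only [PP, hh, e1, e2, e3, e4, e5, e6, sum_range_succ, prod_range_succ, range_zero,
      sum_empty]
    have e7 : (e (j + 1 + d)).1 * ((∏ i ∈ range d, rr e (j + 1 + i)) * rr e (j + 1 + d)) =
        (e (j + 1 + d)).2 * ∏ i ∈ range d, rr e (j + 1 + i) := by
      rw [rr]
      field_simp
    nlinarith [e7]

theorem stay (he : Ell e) {j : ℤ} {M : ℝ} {L k : ℕ} (hM : 1 ≤ M) (hk : k ≤ L)
    (hr : M ≤ ∏ i ∈ range k, rr e (j + 1 + i)) (hl : ∏ i ∈ range L, rr e (j - 1 - i) ≤ M⁻¹)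
    (hA : ∀ x, j - L ≤ x → x ≤ j + L → x ∈ A) (t : ℕ) : (1 - M⁻¹) ^ t ≤ law e A t j := by
  have hM0 : 0 < M := zero_lt_one.trans_le hM
  have hi : 0 < M⁻¹ := inv_pos.2 hM0
  have hi1 : M⁻¹ ≤ 1 := inv_le_one_of_one_le₀ hM
  have hj : hh e j j = 0 := by simp [hh]
  have key := law_sub (A := A) he (g := fun x => max 0 (-M⁻¹ * hh e j x + 1)) (lam := 1 - M⁻¹)
    (by linarith) (fun x => ?_) (fun x => ?_) (fun x hx => ?_) t j
  · simpa [hj] using key
  · have h1 := PP_mono he (f := fun y => -M⁻¹ * hh e j y + 1)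
      (g := fun x => max 0 (-M⁻¹ * hh e j x + 1)) (x := x) (le_max_right _ _) (le_max_right _ _)
      (le_max_right _ _)
    have h2 := PP_mono he (f := fun _ => 0)
      (g := fun x => max 0 (-M⁻¹ * hh e j x + 1)) (x := x) (le_max_left _ _) (le_max_left _ _)
      (le_max_left _ _)
    rw [PP_lin] at h1
    have h3 := mul_le_mul_of_nonneg_left (PP_hh he j x) hi.le
    have h4 : PP e (fun _ => 0) x = 0 := by simp [PP]
    rcases le_total 0 (-M⁻¹ * hh e j x + 1) with h | h
    · rw [max_eq_right h]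
      split_ifs at h3 with h5
      · subst h5
        rw [hj] at h3 ⊢
        nlinarith
      · nlinarith
    · rw [max_eq_left h]
      linarith
  · exact max_le zero_le_one (by nlinarith [hh_nonneg he j x])
  · refine max_le le_rfl ?_
    have hpos : ∀ (k : ℕ) (f : ℕ → ℤ), 0 < ∏ i ∈ range k, rr e (f i) := fun k f =>
      prod_pos fun _ _ => he.rr_pos _
    have h1 : M ≤ hh e j x := by
      by_cases h : j - L ≤ x
      · have h2 : j + L < x := not_le.1 fun h2 => hx (hA x h h2)
        refine le_add_of_le_of_nonneg (hr.trans ?_)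
          (sum_nonneg fun _ _ => inv_nonneg.2 (hpos _ _).le)
        exact single_le_sum (f := fun k => ∏ i ∈ range k, rr e (j + 1 + i))
          (fun _ _ => (hpos _ _).le) (mem_range.2 (by omega))
      · refine le_add_of_nonneg_of_le (sum_nonneg fun _ _ => (hpos _ _).le) (le_trans ?_
          (single_le_sum (f := fun k => (∏ i ∈ range k, rr e (j - 1 - i))⁻¹) (a := L)
            (fun _ _ => inv_nonneg.2 (hpos _ _).le) (mem_range.2 (by omega))))
        exact (le_inv_comm₀ hM0 (hpos _ _)).2 hl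
    have h2 := mul_le_mul_of_nonneg_left h1 hi.le
    rw [inv_mul_cancel₀ hM0.ne'] at h2
    linarith

/-- The probability of not having reached `j`. -/
noncomputable def kil (e : ℤ → ℝ × ℝ) (j : ℤ) : ℕ → ℤ → ℝ
  | 0, x => if x < j then 1 else 0
  | t + 1, x => if x < j then PP e (kil e j t) x else 0

theorem kil_mem (he : Ell e) (j : ℤ) (t : ℕ) : ∀ x, 0 ≤ kil e j t x ∧ kil e j (t + 1) x ≤ kil e j t x := by
  induction t with
  | zero =>
    intro x
    have h0 : ∀ y, kil e j 0 y ≤ 1 := fun y => by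
      unfold kil
      split_ifs <;> norm_num
    have h1 := PP_mono he (f := kil e j 0) (g := fun _ => 1) (x := x) (h0 _) (h0 _) (h0 _)
    have h2 : PP e (fun _ => 1) x = 1 := by
      unfold PP
      ring
    rw [h2] at h1
    by_cases h : x < j
    · simpa [kil, h] using h1
    · simp [kil, h]
  | succ t ih =>
    intro x
    have h1 := PP_mono he (f := fun _ => 0) (g := kil e j t) (x := x) (ih _).1 (ih _).1 (ih _).1
    have h2 := PP_mono he (f := kil e j (t + 1)) (g := kil e j t) (x := x) (ih _).2 (ih _).2 (ih _).2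
    have h4 : PP e (fun _ => 0) x = 0 := by simp [PP]
    rw [h4] at h1
    by_cases h : x < j
    · refine ⟨by simpa [kil, h] using h1, ?_⟩
      rw [kil, if_pos h]
      conv_rhs => rw [kil, if_pos h]
      exact h2
    · simp [kil, h]

theorem law_ge_kil (he : Ell e) {j : ℤ} {lam : ℝ} (h0 : 0 ≤ lam) (h1 : lam ≤ 1)
    (hj : ∀ t, lam ^ t ≤ law e A t j) (t : ℕ) :
    ∀ x, x ≤ j → lam ^ t * (1 - kil e j t x) ≤ law e A t x := by
  induction t with
  | zero =>
    intro x hx
    rcases hx.eq_or_lt with h | h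
    · simpa [kil, h] using hj 0
    · simpa [kil, h] using law_nonneg he 0 x
  | succ t ih =>
    intro x hx
    rcases hx.eq_or_lt with h | h
    · simpa [kil, h] using hj (t + 1)
    · have h3 := PP_mono he (f := fun y => -lam ^ t * kil e j t y + lam ^ t) (g := law e A t)
        (x := x) (by linarith [ih (x + 1) (by omega)]) (by linarith [ih (x - 1) (by omega)])
        (by linarith [ih x hx])
      rw [PP_lin] at h3
      rw [law_succ, kil, if_pos h, pow_succ]
      have h4 := law_nonneg (A := A) he (t + 1) x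
      rw [law_succ] at h4
      have h5 := pow_nonneg h0 t
      rcases le_total 0 (1 - PP e (kil e j t) x) with h6 | h6
      · nlinarith [mul_nonneg h5 h6]
      · nlinarith [mul_nonneg (mul_nonneg h5 h0) (neg_nonneg.2 h6)]

theorem kil_le (he : Ell e) (n j : ℕ) :
    (n + 1 : ℝ) * kil e j n 0 ≤ ∑ y ∈ range j, tt e n (n + y + 1) := by
  have hτ : ∀ i, 0 ≤ tt e n i := tau_nonneg (fun i => zero_le_one.trans (he.one_le_aa _))
    fun i => (he.rr_pos _).le
  set E : ℤ → ℝ := fun x => ∑ i ∈ Ico (x + n + 1).toNat (n + j + 1), tt e n i with hE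
  have hE0 : ∀ x, 0 ≤ E x := fun x => sum_nonneg fun i _ => hτ i
  have hP : ∀ x : ℤ, -(n : ℤ) ≤ x → x < j → PP e E x + 1 = E x := by
    intro x h1 h2
    obtain ⟨i, rfl⟩ : ∃ i : ℕ, x = -n + i := ⟨(x + n).toNat, by omega⟩
    have e1 : (-(n : ℤ) + i + 1 + n + 1).toNat = i + 1 + 1 := by omega
    have e2 : (-(n : ℤ) + i - 1 + n + 1).toNat = i := by omega
    have e3 : (-(n : ℤ) + i + n + 1).toNat = i + 1 := by omega
    obtain ⟨hp0, hq0, hpq⟩ := he (-n + i)
    simp only [PP, hE, e1, e2, e3]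
    rw [sum_eq_sum_Ico_succ_bot (a := i) (by omega), sum_eq_sum_Ico_succ_bot (a := i + 1) (by omega)]
    have ea : (e (-n + i)).1 * aa e (-n + i) = 1 := mul_inv_cancel₀ hp0.ne'
    have eb : (e (-n + i)).1 * rr e (-n + i) = (e (-n + i)).2 := mul_div_cancel₀ _ hp0.ne'
    have ec : (e (-n + i)).1 * tt e n (i + 1) = 1 + (e (-n + i)).2 * tt e n i := by
      rw [tt, tau, mul_add, ← mul_assoc, ea, eb]
    linarith
  have key : ∀ t : ℕ, ∀ x : ℤ, -(n : ℤ) + t ≤ x → ∑ i ∈ range (t + 1), kil e j i x ≤ E x := by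
    intro t
    induction t with
    | zero =>
      intro x hx
      by_cases h : x < j
      · have h1 := PP_mono he (f := fun _ => 0) (g := E) (x := x) (hE0 _) (hE0 _) (hE0 _)
        have h4 : PP e (fun _ => 0) x = 0 := by simp [PP]
        have := hP x (by simpa using hx) h
        simp only [zero_add, range_one, sum_singleton, kil, if_pos h]
        linarith
      · simpa [kil, h] using hE0 x
    | succ t ih =>
      intro x hx
      push_cast at hx
      rw [sum_range_succ']
      by_cases h : x < j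
      · have h1 := PP_mono he (f := fun y => ∑ i ∈ range (t + 1), kil e j i y) (g := E) (x := x)
          (ih _ (by omega)) (ih _ (by omega)) (ih _ (by omega))
        have h2 : PP e (fun y => ∑ i ∈ range (t + 1), kil e j i y) x =
            ∑ i ∈ range (t + 1), PP e (kil e j i) x := by
          simp only [PP, mul_sum, sum_add_distrib]
        have := hP x (by omega) h
        simp only [kil, if_pos h]
        linarith
      · simpa [kil, h] using hE0 x
  have h1 := key n 0 (by simp)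
  have h2 : ∀ i ∈ range (n + 1), kil e j n 0 ≤ kil e j i 0 := fun i hi =>
    antitone_nat_of_succ_le (f := fun t => kil e j t 0) (fun t => (kil_mem he j t 0).2)
      (Nat.lt_succ_iff.1 (mem_range.1 hi))
  have h3 := card_nsmul_le_sum _ _ _ h2
  rw [card_range, nsmul_eq_mul] at h3
  push_cast at h3
  have e0 : ((0 : ℤ) + n + 1).toNat = n + 1 := by omega
  have e1 : n + j + 1 - (n + 1) = j := by omega
  simp only [hE, e0, sum_Ico_eq_sum_range, e1] at h1
  refine (h3.trans h1).trans_eq (sum_congr rfl fun y _ => ?_)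
  rw [add_right_comm]

theorem lower_det (he : Ell e) {n j L k : ℕ} {M : ℝ} (hM : 1 ≤ M) (hk : k ≤ L)
    (hr : M ≤ ∏ i ∈ range k, rr e (j + 1 + i)) (hl : ∏ i ∈ range L, rr e (j - 1 - i) ≤ M⁻¹)
    (hA : ∀ x : ℤ, j - L ≤ x → x ≤ j + L → x ∈ A) :
    (1 - M⁻¹) ^ n * (1 - (∑ y ∈ range j, tt e n (n + y + 1)) / (n + 1)) ≤ law e A n 0 := by
  have hi : 0 < M⁻¹ := inv_pos.2 (zero_lt_one.trans_le hM)
  have hi1 : M⁻¹ ≤ 1 := inv_le_one_of_one_le₀ hM
  have h1 := law_ge_kil he (lam := 1 - M⁻¹) (by linarith) (by linarith)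
    (stay he hM hk hr hl hA) n 0 (by positivity)
  refine le_trans (mul_le_mul_of_nonneg_left ?_ (pow_nonneg (by linarith) n)) h1
  have h2 := kil_le he n j
  have : kil e j n 0 ≤ (∑ y ∈ range j, tt e n (n + y + 1)) / (n + 1) := by
    rw [le_div_iff₀ (by positivity), mul_comm]
    exact h2
  linarith

end Pool.Agent.RW
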