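import Pool.Agent.P.MP_4175a8_pr.Deep

open Finset MeasureTheory ProbabilityTheory Filter

namespace Pool.Agent.RW

theorem tt_eq {Ω : Type*} (e : Ω → ℤ → ℝ × ℝ) (ω : Ω) (n y : ℕ) :
    tt (e ω) n (n + y + 1) =
      tN (fun x ω => aa (e ω) x) (fun x ω => rr (e ω) x) (n + y + 1) y ω := by
  rw [tt, tau_eq_sum]
  refine sum_congr rfl fun k hk => ?_
  have := mem_range.1 hk
  simp only [tm, pr, bw]
  rw [show -(n : ℤ) + ((n + y - k : ℕ) : ℤ) = y - k by omega]
  congr 1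
  refine prod_congr rfl fun i hi => ?_
  have := mem_range.1 hi
  rw [show -(n : ℤ) + ((n + y - i : ℕ) : ℤ) = y - i by omega]

section

variable {Ω : Type*} [mΩ : MeasurableSpace Ω] {P : Measure Ω} [IsProbabilityMeasure P]
  {κ θ s am v δ : ℝ} {e : Ω → ℤ → ℝ × ℝ} {F : Set ℤ → MeasurableSpace Ω}
  (he : ∀ ω, Ell (e ω)) (h : IE P (fun x ω => rr (e ω) x) F κ θ s)
  (ha : IA P (fun x ω => aa (e ω) x) F κ am) (hv : 0 < v) (hδ : 0 < δ)
  (hu : (v + δ) * (am / (1 - θ)) < 1)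
include he h ha hv hδ hu

omit he in
theorem u_le_one : v + δ ≤ 1 := by
  have h1 : 1 ≤ am / (1 - θ) :=
    (one_le_div (sub_pos.2 h.hθ)).2 (by linarith [h.one_le_am ha, h.hθ0])
  nlinarith

theorem main_lower : ∃ C, ∀ᵐ ω ∂P, ∀ᶠ n : ℕ in atTop, ∀ A : Set ℤ,
    (∀ x : ℤ, (x : ℝ) / n ∈ Set.Ioo (v - δ) (v + δ) → x ∈ A) →
      Real.exp (-(C * (n / sc s n))) ≤ law (e ω) A n 0 := by
  obtain ⟨B, c, hc, hB, h1⟩ := h.ev_trap hv hδ
  have hu1 := u_le_one h ha hv hδ hu
  set γ := (1 - (v + δ) * (am / (1 - θ))) / 2 with hγ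
  have hγ0 : 0 < γ := by linarith
  refine ⟨2 / c + 1, ?_⟩
  filter_upwards [h1, h.ev_prod hB, h.ev_lln ha (show 0 < v + δ by linarith) hγ0] with ω h2 h3 h4
  filter_upwards [h2, h3, h4, ev_le_sc h.hs B 0 (2 / c), ev_sc_le h.hs hγ0,
    ev_sc_le h.hs (inv_pos.2 hc), ev_LL_lin B (show 0 < min (δ / 4) 1 by positivity), ev_ll,
    eventually_gt_atTop 0] with n ⟨x, hx1, hx2, k, hk, hr⟩ h5 h6 h7 h8 h9 h10 h11 hn A hA
  have hn1 : (1 : ℝ) ≤ n := by exact_mod_cast hn
  have hn0 : (0 : ℝ) < n := by linarith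
  have hsc := sc_pos (s := s) hn h11
  set M := c * sc s n with hM
  rw [pow_zero, mul_one, div_le_iff₀' hc, ← hM] at h7
  rw [le_inv_mul_iff₀ hc, ← hM] at h9
  have hL1 : (LL B n : ℝ) ≤ δ / 4 * n :=
    h10.trans (mul_le_mul_of_nonneg_right (min_le_left _ _) hn0.le)
  have hL2 : LL B n ≤ n := by
    have := h10.trans (mul_le_mul_of_nonneg_right (min_le_right _ _) hn0.le)
    rw [one_mul] at this
    exact_mod_cast this
  have hδn : 0 < δ * n := by positivity
  have hx3 : (x : ℝ) ≤ (v + δ) * n := by linarith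
  have hx4 : x ≤ n := by
    have : (x : ℝ) ≤ n := hx3.trans (mul_le_of_le_one_left hn0.le hu1)
    exact_mod_cast this
  have h12 := lower_det (A := A) (n := n) (j := x) (M := M) (he ω) (by linarith) hk hr (by
      have h13 := h5 (x - LL B n) (by omega) (by omega)
      have e1 : ∏ i ∈ range (LL B n), rr (e ω) (x - 1 - i) =
          pr (fw (fun x ω => rr (e ω) x) (x - LL B n)) (LL B n) ω := by
        rw [pr, ← prod_range_reflect]
        refine prod_congr rfl fun i hi => ?_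
        have := mem_range.1 hi
        rw [show (x : ℤ) - 1 - ((LL B n - 1 - i : ℕ) : ℤ) = x - LL B n + i by omega]
      rw [e1]
      exact h13.trans (inv_anti₀ (by linarith) (by nlinarith))) (fun z hz1 hz2 => by
      have hz3 : (x : ℝ) - LL B n ≤ z := by exact_mod_cast hz1
      have hz4 : (z : ℝ) ≤ x + LL B n := by exact_mod_cast hz2
      exact hA z ⟨(lt_div_iff₀ hn0).2 (by linarith), (div_lt_iff₀ hn0).2 (by linarith)⟩)
  refine le_trans ?_ h12
  have h13 : γ ≤ 1 - (∑ y ∈ range x, tt (e ω) n (n + y + 1)) / (n + 1) := by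
    simp only [tt_eq]
    have h14 := h6 x hx3
    have h15 : (v + δ) * (am / (1 - θ)) + γ = 1 - γ := by linarith
    have h16 : 0 ≤ (v + δ) * (am / (1 - θ)) := mul_nonneg (by linarith)
      (div_nonneg (zero_le_one.trans (h.one_le_am ha)) (sub_nonneg.2 h.hθ.le))
    rw [le_sub_comm, div_le_iff₀ (by linarith)]
    rw [h15] at h14
    nlinarith
  have h14 : Real.exp (-(n / sc s n)) ≤ γ := by
    have h15 : γ⁻¹ ≤ n / sc s n := by rwa [le_div_iff₀ hsc, inv_mul_le_iff₀ hγ0]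
    rw [Real.exp_neg]
    exact inv_le_of_inv_le₀ hγ0 (by linarith [Real.add_one_le_exp (n / sc s n)])
  have hM0 : 0 < M := by linarith
  have hi : M⁻¹ ≤ 1 / 2 := by
    rw [one_div]
    exact inv_anti₀ two_pos h7
  have hi0 : 0 < M⁻¹ := inv_pos.2 hM0
  have h15 : Real.exp (-(2 * M⁻¹)) ≤ 1 - M⁻¹ := by
    rw [Real.exp_neg, inv_le_iff_one_le_mul₀ (Real.exp_pos _)]
    nlinarith [Real.add_one_le_exp (2 * M⁻¹)]
  have h16 := pow_le_pow_left₀ (Real.exp_pos _).le h15 n
  rw [← Real.exp_nat_mul] at h16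
  have e2 : -((2 / c + 1) * (n / sc s n)) = n * -(2 * M⁻¹) + -(n / sc s n) := by
    rw [hM]
    field_simp
    ring
  rw [e2, Real.exp_add]
  exact mul_le_mul h16 (h14.trans h13) (Real.exp_pos _).le (pow_nonneg (by linarith) n)

theorem main_upper : ∃ c, 0 < c ∧ ∀ᵐ ω ∂P, ∃ᶠ n : ℕ in atTop, ∀ A : Set ℤ,
    (∀ x ∈ A, (x : ℝ) / n < v + δ) → law (e ω) A n 0 ≤ Real.exp (-(c * (n / sc s n))) := by
  have hu1 := u_le_one h ha hv hδ hu
  have hκ0 : 0 < κ := zero_lt_one.trans_le h.hκ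
  obtain ⟨B, hB, hB0⟩ := (((tendsto_pow_atTop_nhds_zero_of_lt_one h.hθ0.le h.hθ).eventually_le_const
    (show (0 : ℝ) < 1 / 32 by norm_num)).and (eventually_gt_atTop 0)).exists
  have h16 : 0 ≤ (v + δ) * (am / (1 - θ)) := mul_nonneg (by linarith)
    (div_nonneg (zero_le_one.trans (h.one_le_am ha)) (sub_nonneg.2 h.hθ.le))
  have hK : 0 < 64 * C0 κ θ s + 1 := by linarith [h.C0_nonneg]
  have h1 := h.ev_nodeep hB0
  generalize 64 * C0 κ θ s + 1 = K at hK h1
  obtain ⟨γ, hγ⟩ : ∃ γ, γ = (1 - (v + δ) * (am / (1 - θ))) / 4 := ⟨_, rfl⟩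
  have hγ0 : 0 < γ := by linarith
  have hγ1 : γ ≤ 1 := by linarith
  set α := Real.log (1 + γ / 3) / 2 with hα
  have hα0 : 0 < α := half_pos (Real.log_pos (by linarith))
  refine ⟨α * γ / (15 * κ * K), by positivity, ?_⟩
  filter_upwards [h1, h.ev_prod hB, h.ev_lln ha (show 0 < v + δ by linarith) hγ0] with ω h2 h3 h4
  refine (h2.and_eventually (h3.and (h4.and ((ev_sc_le h.hs
    (show 0 < γ / 6 / (15 * κ * K) by positivity)).and ((ev_LL_lin B one_pos).and
      (ev_ll.and (eventually_ge_atTop 2))))))).mono ?_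
  rintro n ⟨h5, h6, h7, h8, h9, h10, hn⟩ A hA
  have hn2 : (2 : ℝ) ≤ n := by exact_mod_cast hn
  have hn0 : (0 : ℝ) < n := by linarith
  have hsc := sc_pos (s := s) (by omega : 0 < n) h10
  have hL : 0 < LL B n := hB0.trans_le (le_LL B n)
  rw [one_mul] at h9
  have hLn : LL B n ≤ n := by exact_mod_cast h9
  have hun : 0 ≤ (v + δ) * n := by positivity
  have hm : (⌊(v + δ) * n⌋₊ : ℝ) ≤ (v + δ) * n := Nat.floor_le hun
  have hp : ∀ i, i + LL B n ≤ 2 * n + 1 →
      ∏ j ∈ range (LL B n), rr (e ω) (-n + (i + j : ℕ)) ≤ ((n : ℝ) ^ 2)⁻¹ := fun i hi => by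
    refine le_trans (le_of_eq ?_) (h6 (-n + i) (by omega) (by omega))
    simp only [pr, fw, Nat.cast_add, add_assoc]
  set t := 3 * κ * (5 * (K * sc s n)) with ht
  have ht0 : 0 < t := by positivity
  have hw := window (a := fun i => aa (e ω) (-n + i)) (ρ := fun i => rr (e ω) (-n + i))
    (t := 5 * (K * sc s n)) (N := 2 * n + 1) hL (fun i => zero_le_one.trans (ha.one_le _ ω))
    (fun i => ha.bd _ ω) (fun i => (h.pos _ ω).le) (by positivity) (by
      rw [one_div]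
      exact inv_anti₀ two_pos (by nlinarith)) (by
      rw [← div_eq_mul_inv, div_le_one (by positivity)]
      nlinarith) hp fun j hj => by
      refine le_trans (le_of_eq ?_) (not_lt.1 (h5 j hj))
      simp only [Nat.cast_add, add_assoc]
  have h11 := upper_det (A := A) (μ := α / t) (m := ⌊(v + δ) * n⌋₊) (he ω) hL (by omega) (by
      have : (⌊(v + δ) * n⌋₊ : ℝ) ≤ n := hm.trans (mul_le_of_le_one_left hn0.le hu1)
      exact_mod_cast this) (by positivity) (by positivity) hγ1 hp hw (by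
      have e1 : 2 * (α / t) * t = Real.log (1 + γ / 3) := by
        rw [hα]
        field_simp
      have h12 : 2 * ((n : ℝ) ^ 2)⁻¹ * t ≤ γ / 3 := by
        rw [div_mul_eq_mul_div, le_div_iff₀ (by positivity)] at h8
        rw [mul_right_comm, ← div_eq_mul_inv, div_le_iff₀ (by positivity)]
        have : γ * n ≤ γ * n ^ 2 := mul_le_mul_of_nonneg_left (by nlinarith) hγ0.le
        linarith
      rw [← ht, e1, Real.exp_log (by linarith)]
      nlinarith) fun x hx => by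
      have h12 := (div_lt_iff₀ hn0).1 (hA x hx)
      rw [Int.natCast_floor_eq_floor hun]
      exact Int.le_floor.2 h12.le
  refine h11.trans (Real.exp_le_exp.2 ?_)
  simp only [tt_eq]
  have h12 := mul_le_mul_of_nonneg_left (h7 _ hm) (show 0 ≤ α / t * (1 + γ) by positivity)
  have e2 : α * γ / (15 * κ * K) * (n / sc s n) = α / t * (γ * n) := by
    rw [ht]
    field_simp
    ring
  have h13 : (1 + γ) * ((v + δ) * (am / (1 - θ)) + γ) ≤ 1 - γ := by nlinarith
  have h14 := mul_le_mul_of_nonneg_left h13 (show 0 ≤ α / t * n by positivity)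
  rw [e2]
  linarith

end

end Pool.Agent.RW
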