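import Pool.Agent.P.MP_4175a8_pr.Main

open Finset MeasureTheory ProbabilityTheory Filter Topology

namespace Pool.Agent.RW

/-- The damped crossing recursion. -/
noncomputable def ps (a ρ : ℕ → ℝ) (μ : ℝ) : ℕ → ℝ
  | 0 => 0
  | i + 1 => (a i + ρ i * ps a ρ μ i) / (1 + μ * (a i + ρ i * ps a ρ μ i))

section

variable {a ρ : ℕ → ℝ} {μ : ℝ} (ha : ∀ i, 0 ≤ a i) (hρ : ∀ i, 0 ≤ ρ i) (hμ : 0 ≤ μ)
include ha hρ hμ

theorem ps_nonneg (i : ℕ) : 0 ≤ ps a ρ μ i := by
  induction i with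
  | zero => exact le_rfl
  | succ i ih =>
    have := add_nonneg (ha i) (mul_nonneg (hρ i) ih)
    exact div_nonneg this (by positivity)

theorem ps_succ (i : ℕ) : 1 - μ * ps a ρ μ (i + 1) = (1 + μ * (a i + ρ i * ps a ρ μ i))⁻¹ := by
  have := add_nonneg (ha i) (mul_nonneg (hρ i) (ps_nonneg ha hρ hμ i))
  rw [ps]
  field_simp
  ring

theorem ps_ge {K : ℝ} {l : ℕ} (y : ℕ)
    (hK : ∀ k ≤ l, tau (fun i => a (y + i)) (fun i => ρ (y + i)) k ≤ K) : ∀ k ≤ l,
    tau (fun i => a (y + i)) (fun i => ρ (y + i)) k / (1 + μ * K) ^ k ≤ ps a ρ μ (y + k) := by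
  have hK0 : 0 ≤ K := hK 0 (Nat.zero_le l)
  have hb : 1 ≤ 1 + μ * K := le_add_of_nonneg_right (mul_nonneg hμ hK0)
  intro k
  induction k with
  | zero => exact fun _ => by simpa [tau] using ps_nonneg ha hρ hμ y
  | succ k ih =>
    intro hk
    have h1 := mul_le_mul_of_nonneg_left (ih (by omega)) (hρ (y + k))
    have h2 := one_le_pow₀ (n := k) hb
    have h3 := div_le_self (ha (y + k)) h2
    have h4 := hK (k + 1) hk
    have h5 := tau_nonneg (fun i => ha (y + i)) (fun i => hρ (y + i)) (k + 1)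
    have h6 := div_le_self h5 h2
    have h7 : tau (fun i => a (y + i)) (fun i => ρ (y + i)) (k + 1) / (1 + μ * K) ^ k ≤
        a (y + k) + ρ (y + k) * ps a ρ μ (y + k) := by
      rw [tau, add_div, mul_div_assoc]
      linarith
    have h8 := div_nonneg h5 (zero_le_one.trans h2)
    rw [← add_assoc, ps, pow_succ, ← div_div]
    generalize tau (fun i => a (y + i)) (fun i => ρ (y + i)) (k + 1) / (1 + μ * K) ^ k = z
      at h6 h7 h8
    generalize a (y + k) + ρ (y + k) * ps a ρ μ (y + k) = w at h7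
    have h9 : 0 ≤ w := h8.trans h7
    rw [div_le_div_iff₀ (by positivity) (by positivity)]
    nlinarith [mul_le_mul_of_nonneg_left (h6.trans h4) (mul_nonneg hμ h9)]

end

theorem tau_le {a ρ : ℕ → ℝ} {κ : ℝ} (hκ : 1 ≤ κ) (ha : ∀ i, a i ≤ κ) (hρ0 : ∀ i, 0 ≤ ρ i)
    (hρ : ∀ i, ρ i ≤ κ) (k : ℕ) : tau a ρ k ≤ k * κ ^ k := by
  induction k with
  | zero => simp [tau]
  | succ k ih =>
    have h1 := one_le_pow₀ (n := k) hκ
    have h2 := mul_le_mul_of_nonneg_left ih (hρ0 k)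
    have h3 := mul_le_mul_of_nonneg_right (hρ k) (show 0 ≤ k * κ ^ k by positivity)
    have h4 := mul_le_mul_of_nonneg_left h1 (zero_le_one.trans hκ)
    have := ha k
    rw [tau, pow_succ]
    push_cast
    linarith

theorem speed_det {e : ℤ → ℝ × ℝ} {A : Set ℤ} (he : Ell e) {μ : ℝ} (hμ : 0 ≤ μ) (n m : ℕ)
    (hA : ∀ x ∈ A, (m : ℤ) ≤ x) : law e A n 0 ≤ Real.exp (μ * n - μ * ∑ y ∈ range m,
      ps (fun i => aa e (-n + i)) (fun i => rr e (-n + i)) μ (n + y + 1)) := by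
  set a : ℕ → ℝ := fun i => aa e (-n + i) with ha
  set ρ : ℕ → ℝ := fun i => rr e (-n + i) with hρ
  have ha0 : ∀ i, 0 ≤ a i := fun i => zero_le_one.trans (he.one_le_aa _)
  have hρ0 : ∀ i, 0 ≤ ρ i := fun i => (he.rr_pos _).le
  have hψ := ps_nonneg ha0 hρ0 hμ
  have hσ : ∀ i, 0 ≤ a i + ρ i * ps a ρ μ i := fun i =>
    add_nonneg (ha0 i) (mul_nonneg (hρ0 i) (hψ i))
  have h0 : ∀ j, 0 ≤ 1 - μ * ps a ρ μ (j + 1) := fun j => by
    rw [ps_succ ha0 hρ0 hμ]
    have := hσ j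
    positivity
  have h1 : ∀ j, 1 - μ * ps a ρ μ j ≤ 1 := fun j => sub_le_self _ (mul_nonneg hμ (hψ j))
  set F : ℕ → ℝ := fun i => ∏ j ∈ Ico i (n + m), (1 - μ * ps a ρ μ (j + 1)) with hF
  have hF0 : ∀ i, 0 ≤ F i := fun i => prod_nonneg fun j _ => h0 j
  have hF1 : ∀ i, F i ≤ 1 := fun i => prod_le_one (fun j _ => h0 j) fun j _ => h1 _
  have hFs : ∀ i, i < n + m → F i = (1 - μ * ps a ρ μ (i + 1)) * F (i + 1) := fun i hi =>
    prod_eq_prod_Ico_succ_bot hi _
  have hFe : ∀ i, n + m ≤ i → F i = 1 := fun i hi => by simp only [hF, Ico_eq_empty_of_le hi, prod_empty]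
  have key := law_super (A := A) he (f := fun x => F (x + n).toNat) (lam := 1 + μ)
    (c := 1) (n := n) (by linarith) (fun x hx1 hx2 => ?_) (fun x => hF0 _)
    (fun x hx hx1 hx2 => (hFe _ (by have := hA x hx; omega)).ge) n 0 (by simp) (by simp)
  · have e0 : ((0 : ℤ) + n).toNat = n := by omega
    simp only [e0, one_mul] at key
    refine key.trans ?_
    rw [sub_eq_add_neg, Real.exp_add, mul_comm μ, Real.exp_nat_mul, mul_sum, ← sum_neg_distrib,
      Real.exp_sum]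
    refine mul_le_mul (pow_le_pow_left₀ (by linarith) (by linarith [Real.add_one_le_exp μ]) n) ?_
      (hF0 n) (by positivity)
    simp only [hF, prod_Ico_eq_prod_range, Nat.add_sub_cancel_left]
    exact prod_le_prod (fun j _ => h0 _) fun j _ => by
      linarith [Real.add_one_le_exp (-(μ * ps a ρ μ (n + j + 1)))]
  · obtain ⟨i, rfl⟩ : ∃ i : ℕ, x = -n + i := ⟨(x + n).toNat, by omega⟩
    have e1 : (-(n : ℤ) + i + 1 + n).toNat = i + 1 := by omega
    have e2 : (-(n : ℤ) + i - 1 + n).toNat = i - 1 := by omega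
    have e3 : (-(n : ℤ) + i + n).toNat = i := by omega
    obtain ⟨hp0, hq0, hpq⟩ := he (-n + i)
    simp only [PP, e1, e2, e3]
    rcases lt_or_ge i (n + m) with hi | hi
    · have h2 : F (i - 1) = (1 - μ * ps a ρ μ i) * F i := by
        rcases i with _ | i
        · simp [ps]
        · exact hFs i (by omega)
      have ea : (e (-n + i)).1 * a i = 1 := mul_inv_cancel₀ hp0.ne'
      have eb : (e (-n + i)).1 * ρ i = (e (-n + i)).2 := mul_div_cancel₀ _ hp0.ne'
      have h3 : F (i + 1) = (1 + μ * (a i + ρ i * ps a ρ μ i)) * F i := by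
        have := hσ i
        rw [hFs i hi, ps_succ ha0 hρ0 hμ, mul_inv_cancel_left₀ (by positivity)]
      rw [h2, h3, ← eb]
      refine le_of_eq ?_
      linear_combination μ * F i * ea
    · rw [hFe i hi, hFe (i + 1) (by omega)]
      nlinarith [mul_le_mul_of_nonneg_left (hF1 (i - 1)) hq0.le]

theorem tau_eq_tN {Ω : Type*} (e : Ω → ℤ → ℝ × ℝ) (ω : Ω) (n y l : ℕ) (hl : l ≤ n) :
    tau (fun i => aa (e ω) (-n + (n + y + 1 - l + i : ℕ)))
      (fun i => rr (e ω) (-n + (n + y + 1 - l + i : ℕ))) l =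
      tN (fun x ω => aa (e ω) x) (fun x ω => rr (e ω) x) l y ω := by
  rcases l with _ | l
  · simp [tau, tN]
  rw [tau_eq_sum]
  refine sum_congr rfl fun k hk => ?_
  have := mem_range.1 hk
  simp only [tm, pr, bw]
  rw [show -(n : ℤ) + ((n + y + 1 - (l + 1) + (l - k) : ℕ) : ℤ) = y - k by omega]
  congr 1
  refine prod_congr rfl fun i hi => ?_
  have := mem_range.1 hi
  rw [show -(n : ℤ) + ((n + y + 1 - (l + 1) + (l - i) : ℕ) : ℤ) = y - i by omega]

theorem speed_le {Ω : Type*} [mΩ : MeasurableSpace Ω] {P : Measure Ω} [IsProbabilityMeasure P]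
    {κ θ s am u : ℝ} {e : Ω → ℤ → ℝ × ℝ} {F : Set ℤ → MeasurableSpace Ω}
    (he : ∀ ω, Ell (e ω)) (h : IE P (fun x ω => rr (e ω) x) F κ θ s)
    (ha : IA P (fun x ω => aa (e ω) x) F κ am) (hu : 0 < u) {A : ℕ → Set ℤ}
    (hA : ∀ n, 0 < n → ∀ x ∈ A n, u * n ≤ x)
    (hV : ∀ᵐ ω ∂P, Tendsto (fun n => law (e ω) (A n) n 0) atTop (𝓝 1)) :
    u * (am / (1 - θ)) ≤ 1 := by
  by_contra hc
  rw [not_le] at hc
  have h1 : Tendsto (fun l => u * ∑ k ∈ range l, am * θ ^ k) atTop (𝓝 (u * (am / (1 - θ)))) := by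
    rw [div_eq_mul_inv]
    exact ((hasSum_geometric_of_lt_one h.hθ0.le h.hθ).mul_left am).tendsto_sum_nat.const_mul u
  obtain ⟨l, hl⟩ := (h1.eventually_const_lt hc).exists
  obtain ⟨c, hcd⟩ : ∃ c, c = ∑ k ∈ range l, am * θ ^ k := ⟨_, rfl⟩
  rw [← hcd] at hl
  obtain ⟨γ, hγ⟩ : ∃ γ, γ = (u * c - 1) / (2 * u) := ⟨_, rfl⟩
  have hγ0 : 0 < γ := hγ ▸ div_pos (by linarith) (by linarith)
  have hb : 1 < u * (c - γ) := by
    have : u * γ = (u * c - 1) / 2 := by
      rw [hγ]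
      field_simp
    linarith
  have hcγ : 0 < c - γ := (mul_pos_iff_of_pos_left hu).1 (by linarith)
  set K : ℝ := l * κ ^ l with hK
  have hκ0 : 0 ≤ κ := zero_le_one.trans h.hκ
  have h2 : Tendsto (fun μ : ℝ => (1 + μ * K) ^ l) (𝓝[>] 0) (𝓝 1) := by
    have : Continuous fun μ : ℝ => (1 + μ * K) ^ l := by fun_prop
    simpa using (this.tendsto 0).mono_left nhdsWithin_le_nhds
  obtain ⟨μ, hμ1, hμ⟩ := ((h2.eventually_lt_const hb).and self_mem_nhdsWithin).exists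
  have hμ0 : 0 < μ := hμ
  have hD : 0 < (1 + μ * K) ^ l := by positivity
  have hζ : 0 < μ * (u * (c - γ) / (1 + μ * K) ^ l - 1) :=
    mul_pos hμ0 (sub_pos.2 ((one_lt_div hD).2 hμ1))
  have h3 := bc1 (P := P) (E := fun j => {ω | (γ * ⌈u * (1 * 2 ^ j : ℕ)⌉₊) ^ 2 ≤
      (∑ y ∈ range ⌈u * (1 * 2 ^ j : ℕ)⌉₊,
        tN (fun x ω => aa (e ω) x) (fun x ω => rr (e ω) x) l y ω -
        ⌈u * (1 * 2 ^ j : ℕ)⌉₊ * ∑ k ∈ range l, am * θ ^ k) ^ 2})
    (summable_geometric_two.mul_left (2 * l * K ^ 2 / (γ ^ 2 * u))) (Eventually.of_forall fun j => by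
      have h4 : 0 < u * (1 * 2 ^ j : ℕ) := by positivity
      refine (h.cheb2 ha hγ0 (Nat.ceil_pos.2 h4) l).trans ((div_le_div_of_nonneg_left
        (by positivity) (by positivity) (mul_le_mul_of_nonneg_left (Nat.le_ceil _)
          (sq_nonneg γ))).trans (le_of_eq ?_))
      push_cast
      rw [one_div, inv_pow, ← hK]
      field_simp)
  obtain ⟨ω, h4, h5⟩ := (h3.and hV).exists
  have h6 := (tendsto_natCast_atTop_atTop.const_mul_atTop hζ).eventually_ge_atTop 1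
  obtain ⟨j, h7, h8, h9, h10⟩ := (h4.and ((tendsto_grid one_pos).eventually
    ((h5.eventually_const_lt (show Real.exp (-1) < 1 by simp)).and
      (h6.and (eventually_gt_atTop l))))).exists
  generalize 1 * 2 ^ j = n at h7 h8 h9 h10
  have h11 := Nat.le_ceil (u * n)
  have h12 := speed_det (A := A n) (he ω) hμ0.le n ⌈u * n⌉₊ fun x hx => by
    have h13 := hA n (by omega) x hx
    rw [Int.natCast_ceil_eq_ceil (by positivity)]
    exact Int.ceil_le.2 h13
  generalize ⌈u * n⌉₊ = m at h7 h11 h12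
  simp only [Set.mem_ofPred_eq, ← hcd, not_le] at h7
  have h13 := (abs_lt_of_sq_lt_sq' h7 (by positivity)).1
  have h14 : (∑ y ∈ range m, tN (fun x ω => aa (e ω) x) (fun x ω => rr (e ω) x) l y ω) /
      (1 + μ * K) ^ l ≤ ∑ y ∈ range m,
        ps (fun i => aa (e ω) (-n + i)) (fun i => rr (e ω) (-n + i)) μ (n + y + 1) := by
    rw [sum_div]
    refine sum_le_sum fun y _ => ?_
    have h15 := ps_ge (a := fun i => aa (e ω) (-n + i)) (ρ := fun i => rr (e ω) (-n + i))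
      (fun i => zero_le_one.trans (ha.one_le _ ω)) (fun i => (h.pos _ ω).le) hμ0.le (K := K)
      (l := l) (n + y + 1 - l) (fun k hk => (tau_le h.hκ (fun i => ha.bd _ ω)
        (fun i => (h.pos _ ω).le) (fun i => h.bd _ ω) k).trans (mul_le_mul (by exact_mod_cast hk)
          (pow_le_pow_right₀ h.hκ hk) (by positivity) (by positivity))) l le_rfl
    rwa [tau_eq_tN e ω n y l h10.le, show n + y + 1 - l + l = n + y + 1 by omega] at h15
  have h15 : u * (c - γ) / (1 + μ * K) ^ l * n ≤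
      (∑ y ∈ range m, tN (fun x ω => aa (e ω) x) (fun x ω => rr (e ω) x) l y ω) /
        (1 + μ * K) ^ l := by
    rw [div_mul_eq_mul_div]
    refine div_le_div_of_nonneg_right ?_ hD.le
    nlinarith [mul_le_mul_of_nonneg_left h11 hcγ.le]
  have h16 := Real.exp_lt_exp.1 (h8.trans_le h12)
  nlinarith [mul_le_mul_of_nonneg_left (h15.trans h14) hμ0.le]

end Pool.Agent.RW
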