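import Pool.Agent.P.MP_4175a8_pr.Base

open Finset MeasureTheory ProbabilityTheory

namespace Pool.Agent.RW

/-- The number of `x < l` with `u < y x`. -/
noncomputable def cnt (y : ℕ → ℝ) (l : ℕ) (u : ℝ) : ℕ := ((range l).filter fun x => u < y x).card

theorem cnt_le (y : ℕ → ℝ) (l : ℕ) (u : ℝ) : cnt y l u ≤ l :=
  (card_filter_le _ _).trans_eq (card_range l)

theorem level {y : ℕ → ℝ} {l : ℕ} {t : ℝ} (ht : 0 < t)
    (h : ∀ i, 2 ^ i ≤ l → cnt y l (t / 4 ^ i) < 2 ^ i) : ∑ x ∈ range l, y x ≤ 5 * t := by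
  have h0 : ∀ x ∈ range l, y x ≤ t := by
    intro x hx
    have h1 := h 0 (by have := mem_range.1 hx; omega)
    simp only [pow_zero, div_one, Nat.lt_one_iff, cnt, card_eq_zero, filter_eq_empty_iff] at h1
    exact not_lt.1 (h1 hx)
  have h1 : ∀ I, ∀ x ∈ range l, y x ≤ t / 4 ^ I +
      ∑ i ∈ range I, if t / 4 ^ (i + 1) < y x then t / 4 ^ i else 0 := by
    intro I x hx
    induction I with
    | zero => simpa using h0 x hx
    | succ I ih =>
      rw [sum_range_succ]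
      have h2 : 0 ≤ ∑ i ∈ range I, if t / 4 ^ (i + 1) < y x then t / 4 ^ i else 0 :=
        sum_nonneg fun i _ => by split_ifs <;> positivity
      have h3 : 0 ≤ t / 4 ^ (I + 1) := by positivity
      split_ifs with h4
      · linarith
      · linarith [not_lt.1 h4]
  refine (sum_le_sum (h1 l)).trans ?_
  rw [sum_add_distrib, sum_comm, sum_const, card_range, nsmul_eq_mul]
  have h2 : (l : ℝ) * (t / 4 ^ l) ≤ t := by
    have : (l : ℝ) ≤ 4 ^ l := by exact_mod_cast (Nat.lt_pow_self (by norm_num)).le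
    rw [← mul_div_assoc, div_le_iff₀ (by positivity), mul_comm]
    exact mul_le_mul_of_nonneg_left this ht.le
  have h3 : ∀ i ∈ range l, (∑ x ∈ range l, if t / 4 ^ (i + 1) < y x then t / 4 ^ i else 0) ≤
      2 * t * (1 / 2) ^ i := by
    intro i _
    rw [← sum_filter, sum_const, nsmul_eq_mul]
    have h4 : cnt y l (t / 4 ^ (i + 1)) ≤ 2 ^ (i + 1) := by
      by_cases h5 : 2 ^ (i + 1) ≤ l
      · exact (h _ h5).le
      · exact (cnt_le _ _ _).trans (not_le.1 h5).le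
    have h5 : (cnt y l (t / 4 ^ (i + 1)) : ℝ) ≤ 2 ^ (i + 1) := by exact_mod_cast h4
    refine (mul_le_mul_of_nonneg_right h5 (by positivity)).trans_eq ?_
    rw [show (4 : ℝ) = 2 * 2 by norm_num, mul_pow, one_div, inv_pow, pow_succ]
    field_simp
  have h4 := sum_le_sum h3
  rw [← mul_sum] at h4
  have h5 := sum_geometric_two_le l
  nlinarith

theorem real_sum_gt {Ω : Type*} [MeasurableSpace Ω] (P : Measure Ω) [IsFiniteMeasure P]
    (y : Ω → ℕ → ℝ) (l : ℕ) {t : ℝ} (ht : 0 < t) :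
    P.real {ω | 5 * t < ∑ x ∈ range l, y ω x} ≤
      ∑ i ∈ (range l).filter fun i => 2 ^ i ≤ l, P.real {ω | 2 ^ i ≤ cnt (y ω) l (t / 4 ^ i)} := by
  refine le_trans (rmono fun ω hω => ?_) (measureReal_biUnion_finset_le _ _)
  by_contra hn
  simp only [mem_filter, mem_range, Set.mem_iUnion, Set.mem_ofPred_eq, not_exists, not_le] at hn
  exact not_le.2 hω (level ht fun i hi => hn i ⟨(Nat.lt_two_pow_self).trans_le hi, hi⟩)

/-- among at least `m` indices there are a first one and one at distance at least `m - 1` -/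
theorem cnt_first {y : ℕ → ℝ} {l m : ℕ} {u : ℝ} (hm : 0 < m) (h : m ≤ cnt y l u) :
    ∃ x < l, u < y x ∧ (∀ i < x, y i ≤ u) ∧ ∃ k ∈ Ico (m - 1) l, u < y (x + k) := by
  set S := (range l).filter fun x => u < y x with hS
  have hne : S.Nonempty := card_pos.1 (hm.trans_le h)
  have h1 := mem_filter.1 (S.min'_mem hne)
  have h2 := mem_filter.1 (S.max'_mem hne)
  have h3 : S ⊆ Icc (S.min' hne) (S.max' hne) := fun x hx =>
    mem_Icc.2 ⟨S.min'_le x hx, S.le_max' x hx⟩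
  have h4 := h.trans (card_le_card h3)
  rw [Nat.card_Icc] at h4
  have h5 := mem_range.1 h1.1
  have h6 := mem_range.1 h2.1
  refine ⟨S.min' hne, h5, h1.2, fun i hi => not_lt.1 fun h7 => ?_,
    S.max' hne - S.min' hne, mem_Ico.2 ⟨by omega, by omega⟩, ?_⟩
  · exact not_le.2 hi (S.min'_le i (mem_filter.2 ⟨mem_range.2 (hi.trans h5), h7⟩))
  · rw [show S.min' hne + (S.max' hne - S.min' hne) = S.max' hne by omega]
    exact h2.2

noncomputable def C1 (κ θ : ℝ) : ℝ := κ / (θ * (1 - θ))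

noncomputable def C2 (θ s : ℝ) : ℝ := ∑' i : ℕ, ((4 : ℝ) ^ i) ^ s * θ ^ 2 ^ i

noncomputable def C3 (κ θ s : ℝ) : ℝ := 5 ^ s * C1 κ θ * C2 θ s

noncomputable def C0 (κ θ s : ℝ) : ℝ := C3 κ θ s * (4 * C1 κ θ * C2 θ s + C3 κ θ s * 2 ^ s)

theorem summable_C2 {θ : ℝ} (h0 : 0 ≤ θ) (h1 : θ < 1) (s : ℝ) :
    Summable fun i : ℕ => ((4 : ℝ) ^ i) ^ s * θ ^ 2 ^ i := by
  obtain ⟨p, hp⟩ := exists_nat_ge s
  have h2 : Summable fun n : ℕ => (n : ℝ) ^ (2 * p) * θ ^ n :=
    summable_pow_mul_geometric_of_norm_lt_one _ (by rwa [Real.norm_of_nonneg h0])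
  refine Summable.of_nonneg_of_le (fun i => by positivity) (fun i => ?_)
    (h2.comp_injective (Nat.pow_right_injective (le_refl 2)))
  simp only [Function.comp]
  refine mul_le_mul_of_nonneg_right ?_ (by positivity)
  refine (Real.rpow_le_rpow_of_exponent_le (one_le_pow₀ (by norm_num)) hp).trans_eq ?_
  push_cast
  rw [Real.rpow_natCast, show (4 : ℝ) = 2 ^ 2 by norm_num, ← pow_mul, ← pow_mul, ← pow_mul]
  congr 1
  ring

theorem sum_le_C2 {θ : ℝ} (h0 : 0 ≤ θ) (h1 : θ < 1) (s : ℝ) (S : Finset ℕ) :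
    ∑ i ∈ S, ((4 : ℝ) ^ i) ^ s * θ ^ 2 ^ i ≤ C2 θ s :=
  (summable_C2 h0 h1 s).sum_le_tsum S fun i _ => by positivity

theorem inv_div_rpow {t c : ℝ} (ht : 0 < t) (hc : 0 < c) (s : ℝ) :
    ((t / c) ^ s)⁻¹ = c ^ s * (t ^ s)⁻¹ := by
  rw [Real.div_rpow ht.le hc.le, inv_div, div_eq_mul_inv]

namespace IE

variable {Ω : Type*} [mΩ : MeasurableSpace Ω] {P : Measure Ω} [IsProbabilityMeasure P]
  {κ θ s : ℝ}

section consts

variable {ι : Type*} {r : ι → Ω → ℝ} {F : Set ι → MeasurableSpace Ω} (h : IE P r F κ θ s)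
include h

omit [IsProbabilityMeasure P] in
theorem C1_pos : 0 < C1 κ θ :=
  div_pos (zero_lt_one.trans_le h.hκ) (mul_pos h.hθ0 (sub_pos.2 h.hθ))

omit [IsProbabilityMeasure P] in
theorem C2_nonneg : 0 ≤ C2 θ s := by simpa using sum_le_C2 h.hθ0.le h.hθ s ∅

omit [IsProbabilityMeasure P] in
theorem C3_nonneg : 0 ≤ C3 κ θ s :=
  mul_nonneg (mul_nonneg (by positivity) h.C1_pos.le) h.C2_nonneg

omit [IsProbabilityMeasure P] in
theorem C0_nonneg : 0 ≤ C0 κ θ s :=
  mul_nonneg h.C3_nonneg (add_nonneg (mul_nonneg (mul_nonneg (by norm_num) h.C1_pos.le)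
    h.C2_nonneg) (mul_nonneg h.C3_nonneg (by positivity)))

omit [IsProbabilityMeasure P] in
theorem C1_eq {m : ℕ} (hm : 0 < m) (c : ℝ) :
    θ ^ (m - 1) / ((c * κ)⁻¹ * (1 - θ)) = c * C1 κ θ * θ ^ m := by
  obtain ⟨m, rfl⟩ := Nat.exists_eq_succ_of_ne_zero hm.ne'
  have := h.hθ0.ne'
  have := (sub_pos.2 h.hθ).ne'
  rw [C1, Nat.succ_sub_one, pow_succ, div_mul_eq_div_div, div_inv_eq_mul]
  field_simp

end consts

variable {r : ℕ → Ω → ℝ} {F : Set ℕ → MeasurableSpace Ω} (h : IE P r F κ θ s)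
include h

omit [IsProbabilityMeasure P] in
theorem mset_shift (j m l : ℕ) (c : ℝ) : MeasurableSet[F (Set.Ici j)]
    {ω | ∃ k ∈ Ico m l, c ≤ pr (fun i => r (j + i)) k ω} := by
  have e : {ω | ∃ k ∈ Ico m l, c ≤ pr (fun i => r (j + i)) k ω} =
      ⋃ k, ⋃ (_ : k ∈ Ico m l), {ω | c ≤ pr (fun i => r (j + i)) k ω} := by
    ext ω
    simp
  rw [e]
  exact MeasurableSet.iUnion fun k => MeasurableSet.iUnion fun _ =>
    measurableSet_le measurable_const (h.mprS j k)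

theorem count0 {u : ℝ} (hu : 0 < u) {m : ℕ} (hm : 0 < m) (l : ℕ) :
    P.real {ω | m ≤ cnt (fun k => pr r k ω) l u} ≤ C1 κ θ * (u ^ s)⁻¹ * θ ^ m := by
  have hκ0 : 0 < κ := zero_lt_one.trans_le h.hκ
  have hC := h.C1_eq hm 1
  rw [one_mul, one_mul] at hC
  have hθ1 := sub_pos.2 h.hθ
  have hθ0 := h.hθ0
  rcases lt_or_ge u 1 with hu1 | hu1
  · have h1 : {ω | m ≤ cnt (fun k => pr r k ω) l u} ⊆
        {ω | ∃ k ∈ Ico (m - 1) (l + l), u ≤ pr r k ω} := by
      intro ω hω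
      obtain ⟨x, hx, -, -, k, hk, hk'⟩ := cnt_first hm hω
      have := mem_Ico.1 hk
      exact ⟨x + k, mem_Ico.2 ⟨by omega, by omega⟩, hk'.le⟩
    refine (rmono h1).trans ((h.tail hu _ _).trans ?_)
    rw [mul_right_comm, ← hC, ← div_eq_mul_inv, div_div]
    refine div_le_div_of_nonneg_left (by positivity) (by positivity) ?_
    have h2 : u ^ s ≤ u := by
      simpa using Real.rpow_le_rpow_of_exponent_ge hu hu1.le h.hs.le
    have h3 : κ⁻¹ ≤ 1 := inv_le_one_of_one_le₀ h.hκ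
    have h4 : κ⁻¹ * u ^ s ≤ 1 * u := mul_le_mul h3 h2 (by positivity) zero_le_one
    nlinarith
  · set E : ℕ → Set Ω := fun x => {ω | u < pr r x ω ∧ ∀ i < x, pr r i ω ≤ u} with hE
    set G : ℕ → Set Ω := fun x => {ω | ∃ k ∈ Ico (m - 1) l, κ⁻¹ ≤ pr (fun i => r (x + i)) k ω}
    have hEm : ∀ x, MeasurableSet[F (Set.Iio x)] (E x) := by
      intro x
      have e : E x = {ω | u < pr r x ω} ∩ ⋂ i, ⋂ (_ : i < x), {ω | pr r i ω ≤ u} := by
        ext ω
        simp [hE]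
      rw [e]
      exact (measurableSet_lt measurable_const (h.mpr le_rfl)).inter
        (MeasurableSet.iInter fun i => MeasurableSet.iInter fun hi =>
          measurableSet_le (h.mpr hi.le) measurable_const)
    have h1 : {ω | m ≤ cnt (fun k => pr r k ω) l u} ⊆ ⋃ x ∈ range l, E x ∩ G x := by
      intro ω hω
      obtain ⟨x, hx, h2, h3, k, hk, hk'⟩ := cnt_first hm hω
      refine Set.mem_iUnion₂.2 ⟨x, mem_range.2 hx, ⟨h2, h3⟩, k, hk, ?_⟩
      have hx0 : x ≠ 0 := by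
        rintro rfl
        simp only [pr, range_zero, prod_empty] at h2
        linarith
      obtain ⟨x, rfl⟩ := Nat.exists_eq_succ_of_ne_zero hx0
      have h4 : pr r (x + 1) ω ≤ u * κ := by
        rw [pr_succ]
        exact mul_le_mul (h3 x (Nat.lt_succ_self x)) (h.bd x ω) (h.pos x ω).le hu.le
      simp only [pr_add] at hk'
      have h5 := mul_le_mul_of_nonneg_right h4 ((h.shift (x + 1)).pr_pos k ω).le
      rw [inv_le_iff_one_le_mul₀' hκ0]
      have h6 := hk'.le.trans h5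
      rw [mul_assoc] at h6
      exact (le_mul_iff_one_le_right hu).1 h6
    refine (rmono h1).trans ((measureReal_biUnion_finset_le _ _).trans ?_)
    have h2 : ∀ x ∈ range l, P.real (E x ∩ G x) ≤ P.real (E x) * (C1 κ θ * θ ^ m) := by
      intro x _
      rw [h.real_inter (Set.Iio_disjoint_Ici le_rfl) (hEm x) (h.mset_shift x _ _ _), ← hC]
      exact mul_le_mul_of_nonneg_left ((h.shift x).tail (inv_pos.2 hκ0) _ _) measureReal_nonneg
    refine (sum_le_sum h2).trans ?_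
    rw [← sum_mul, ← measureReal_biUnion_finset _ fun x _ => h.le _ _ (hEm x), mul_right_comm,
      mul_comm]
    · refine mul_le_mul_of_nonneg_left (le_trans (rmono fun ω hω => ?_) (h.doob0 hu l))
        (mul_nonneg h.C1_pos.le (by positivity))
      obtain ⟨x, hx, h3⟩ := Set.mem_iUnion₂.1 hω
      exact ⟨x, (mem_range.1 hx).le, h3.1.le⟩
    · intro x _ y _ hxy
      refine Set.disjoint_left.2 fun ω h3 h4 => ?_
      rcases lt_or_gt_of_ne hxy with h5 | h5
      · exact not_le.2 h3.1 (h4.2 x h5)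
      · exact not_le.2 h4.1 (h3.2 y h5)

theorem tailR {u : ℝ} (hu : 0 < u) (l : ℕ) :
    P.real {ω | u < ∑ k ∈ range l, pr r k ω} ≤ C3 κ θ s * (u ^ s)⁻¹ := by
  have h1 := real_sum_gt P (fun ω k => pr r k ω) l (t := u / 5) (by positivity)
  rw [mul_div_cancel₀ _ (by norm_num)] at h1
  refine h1.trans ((sum_le_sum fun i _ => h.count0 (by positivity) (by positivity) l).trans ?_)
  have e : ∀ i : ℕ, C1 κ θ * ((u / 5 / 4 ^ i) ^ s)⁻¹ * θ ^ 2 ^ i =
      5 ^ s * C1 κ θ * (u ^ s)⁻¹ * (((4 : ℝ) ^ i) ^ s * θ ^ 2 ^ i) := by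
    intro i
    rw [inv_div_rpow (by positivity) (by positivity), inv_div_rpow hu (by norm_num)]
    ring
  simp only [e]
  rw [← mul_sum, C3, mul_right_comm _ (C2 θ s)]
  exact mul_le_mul_of_nonneg_left (sum_le_C2 h.hθ0.le h.hθ s _)
    (mul_nonneg (mul_nonneg (by positivity) h.C1_pos.le) (by positivity))

end IE

end Pool.Agent.RW
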