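import Pool.Agent.P.MP_4175a8_pr.Tail

open Finset MeasureTheory ProbabilityTheory

namespace Pool.Agent.RW

theorem meas_tau {Ω : Type*} {m : MeasurableSpace Ω} {a ρ : ℕ → Ω → ℝ} (x : ℕ)
    (ha : ∀ i < x, Measurable (a i)) (hρ : ∀ i < x, Measurable (ρ i)) :
    Measurable fun ω => tau (fun i => a i ω) (fun i => ρ i ω) x := by
  induction x with
  | zero => exact measurable_const
  | succ x ih =>
    exact (ha x (Nat.lt_succ_self x)).add ((hρ x (Nat.lt_succ_self x)).mul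
      (ih (fun i hi => ha i (by omega)) fun i hi => hρ i (by omega)))

/-- The variables from `y` on. -/
abbrev fw {Ω : Type*} (r : ℤ → Ω → ℝ) (y : ℤ) (i : ℕ) : Ω → ℝ := r (y + i)

/-- The variables from `y` down. -/
abbrev bw {Ω : Type*} (r : ℤ → Ω → ℝ) (y : ℤ) (i : ℕ) : Ω → ℝ := r (y - i)

/-- The chain started afresh at `y`. -/
def ZZ {Ω : Type*} (r : ℤ → Ω → ℝ) (y : ℤ) (x : ℕ) (ω : Ω) : ℝ :=
  tau (fun _ => 1) (fun i => r (y + i) ω) x

/-- The event that the block of length `l` at `y` holds a deep trap. -/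
def Bad {Ω : Type*} (r : ℤ → Ω → ℝ) (y : ℤ) (l : ℕ) (t : ℝ) : Set Ω :=
  {ω | 5 * t < DD (fun i => r (y + i) ω) l}

namespace IE

variable {Ω : Type*} [mΩ : MeasurableSpace Ω] {P : Measure Ω} [IsProbabilityMeasure P]
  {κ θ s : ℝ} {r : ℤ → Ω → ℝ} {F : Set ℤ → MeasurableSpace Ω} (h : IE P r F κ θ s)
include h

omit [IsProbabilityMeasure P] in
theorem fwd (y : ℤ) : IE P (fw r y) (fun S => F ((fun i : ℕ => y + i) '' S)) κ θ s :=
  h.comp (fun i : ℕ => y + i) fun a b hab => by simpa using hab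

omit [IsProbabilityMeasure P] in
theorem bwd (y : ℤ) : IE P (bw r y) (fun S => F ((fun i : ℕ => y - i) '' S)) κ θ s :=
  h.comp (fun i : ℕ => y - i) fun a b hab => by simpa using hab

omit [IsProbabilityMeasure P] in
theorem mZZ {S : Set ℤ} {y : ℤ} {x : ℕ} (hS : ∀ i < x, y + i ∈ S) :
    Measurable[F S] (ZZ r y x) :=
  meas_tau (a := fun _ _ => 1) (ρ := fun i => r (y + i)) x (fun _ _ => measurable_const)
    fun i hi => h.measS (hS i hi)

omit [IsProbabilityMeasure P] in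
theorem mfw {S : Set ℤ} {y : ℤ} {x : ℕ} (hS : ∀ i < x, y + i ∈ S) :
    Measurable[F S] (pr (fw r y) x) := meas_pr fun i hi => h.measS (hS i hi)

omit [IsProbabilityMeasure P] in
theorem mBad {S : Set ℤ} {y : ℤ} {l : ℕ} (hS : ∀ i < l, y + i ∈ S) (t : ℝ) :
    MeasurableSet[F S] (Bad r y l t) :=
  measurableSet_lt measurable_const (Finset.measurable_sum (f := fun x => ZZ r y (x + 1)) _
    fun x hx => h.mZZ fun i hi => hS i (by have := mem_range.1 hx; omega))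

theorem tailZ {u : ℝ} (hu : 0 < u) (y : ℤ) (x : ℕ) :
    P.real {ω | u < ZZ r y x ω} ≤ C3 κ θ s * (u ^ s)⁻¹ := by
  rcases x with _ | x
  · have e : {ω | u < ZZ r y 0 ω} = ∅ := by
      ext ω
      simpa [ZZ, tau] using hu.le
    rw [e, measureReal_empty]
    exact mul_nonneg h.C3_nonneg (by positivity)
  · have e : ∀ ω, ZZ r y (x + 1) ω = ∑ k ∈ range (x + 1), pr (bw r (y + x)) k ω := by
      intro ω
      rw [ZZ, tau_eq_sum]
      refine sum_congr rfl fun k hk => ?_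
      rw [one_mul]
      refine prod_congr rfl fun i hi => ?_
      have := mem_range.1 hk
      have := mem_range.1 hi
      rw [show y + ((x - i : ℕ) : ℤ) = y + x - i by omega]
    simp only [e]
    exact (h.bwd (y + x)).tailR hu _

theorem countZ {u : ℝ} (hu : 1 ≤ u) {m : ℕ} (hm : 0 < m) (y : ℤ) (l : ℕ) :
    P.real {ω | m ≤ cnt (fun x => ZZ r y (x + 1) ω) l u} ≤ l * (C3 κ θ s * (u ^ s)⁻¹ *
      (4 * C1 κ θ * θ ^ m + l * (C3 κ θ s * (2 ^ s * (u ^ s)⁻¹)))) := by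
  have hκ0 : 0 < κ := zero_lt_one.trans_le h.hκ
  have hu0 : 0 < u := zero_lt_one.trans_le hu
  set G : ℕ → Set Ω := fun x => {ω | ∃ k ∈ Ico (m - 1) l, (4 * κ)⁻¹ ≤ pr (fw r (y + x + 1)) k ω} ∪
    ⋃ k ∈ range l, {ω | u / 2 < ZZ r (y + x + 1) k ω} with hG
  have h1 : {ω | m ≤ cnt (fun x => ZZ r y (x + 1) ω) l u} ⊆
      ⋃ x ∈ range l, {ω | u < ZZ r y (x + 1) ω} ∩ G x := by
    intro ω hω
    obtain ⟨x, hx, h2, h3, k, hk, hk'⟩ := cnt_first hm hω
    refine Set.mem_iUnion₂.2 ⟨x, mem_range.2 hx, h2, ?_⟩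
    have h4 : ZZ r y x ω ≤ u := by
      rcases x with _ | x
      · simpa [ZZ, tau] using hu0.le
      · exact h3 x (Nat.lt_succ_self x)
    have h4' : 0 ≤ ZZ r y x ω := tau_nonneg (fun _ => zero_le_one) (fun _ => (h.pos _ ω).le) _
    have h5 : ZZ r y (x + 1) ω ≤ 2 * κ * u := by
      have h6 : ZZ r y (x + 1) ω = 1 + r (y + x) ω * ZZ r y x ω := rfl
      have h7 := mul_le_mul (h.bd (y + x) ω) h4 h4' hκ0.le
      have h8 := one_le_mul_of_one_le_of_one_le h.hκ hu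
      linarith
    have h6 : ZZ r y (x + k + 1) ω =
        ZZ r (y + x + 1) k ω + pr (fw r (y + x + 1)) k ω * ZZ r y (x + 1) ω := by
      rw [add_right_comm, ZZ, tau_add]
      simp only [ZZ, pr, fw, Nat.cast_add, Nat.cast_one, add_assoc]
    by_cases h7 : u / 2 < ZZ r (y + x + 1) k ω
    · exact Or.inr (Set.mem_iUnion₂.2 ⟨k, mem_range.2 (mem_Ico.1 hk).2, h7⟩)
    · refine Or.inl ⟨k, hk, ?_⟩
      have h8 := mul_le_mul_of_nonneg_left h5 ((h.fwd (y + x + 1)).pr_pos k ω).le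
      simp only [h6] at hk'
      rw [inv_le_iff_one_le_mul₀' (by positivity)]
      refine le_of_mul_le_mul_left ?_ hu0
      linarith [not_lt.1 h7]
  refine (rmono h1).trans ((measureReal_biUnion_finset_le _ _).trans ?_)
  have h2 : ∀ x ∈ range l, P.real ({ω | u < ZZ r y (x + 1) ω} ∩ G x) ≤ C3 κ θ s * (u ^ s)⁻¹ *
      (4 * C1 κ θ * θ ^ m + l * (C3 κ θ s * (2 ^ s * (u ^ s)⁻¹))) := by
    intro x _
    have hS : ∀ k, ∀ i < k, y + x + 1 + (i : ℕ) ∈ Set.Ici (y + x + 1) := fun k i _ => by simp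
    have hGm : MeasurableSet[F (Set.Ici (y + x + 1))] (G x) := by
      refine MeasurableSet.union ?_ (Finset.measurableSet_biUnion _ fun k _ =>
        measurableSet_lt measurable_const (h.mZZ (hS k)))
      have e : {ω | ∃ k ∈ Ico (m - 1) l, (4 * κ)⁻¹ ≤ pr (fw r (y + x + 1)) k ω} =
          ⋃ k ∈ Ico (m - 1) l, {ω | (4 * κ)⁻¹ ≤ pr (fw r (y + x + 1)) k ω} := by
        ext ω
        simp
      rw [e]
      exact Finset.measurableSet_biUnion _ fun k _ =>
        measurableSet_le measurable_const (h.mfw (hS k))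
    rw [h.real_inter (Set.Iio_disjoint_Ici le_rfl) (measurableSet_lt measurable_const
      (h.mZZ fun i hi => show y + i < y + x + 1 by omega)) hGm]
    refine mul_le_mul (h.tailZ hu0 _ _) ((measureReal_union_le _ _).trans (add_le_add ?_ ?_))
      measureReal_nonneg (mul_nonneg h.C3_nonneg (by positivity))
    · rw [← h.C1_eq hm 4]
      exact (h.fwd _).tail (by positivity) _ _
    · refine (measureReal_biUnion_finset_le _ _).trans
        ((sum_le_sum fun k _ => h.tailZ (half_pos hu0) _ k).trans_eq ?_)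
      rw [sum_const, card_range, nsmul_eq_mul, inv_div_rpow hu0 two_pos]
  refine (sum_le_sum h2).trans_eq ?_
  rw [sum_const, card_range, nsmul_eq_mul]

theorem tailD {l : ℕ} {t : ℝ} (hl : 0 < l) (ht : (l : ℝ) ^ 6 ≤ t) (y : ℤ) :
    P.real (Bad r y l t) ≤ C0 κ θ s * l * (t ^ s)⁻¹ := by
  have hl1 : (1 : ℝ) ≤ l := by exact_mod_cast hl
  have ht0 : 0 < t := lt_of_lt_of_le (by positivity) ht
  have hs0 : 0 ≤ s := zero_le_one.trans h.hs.le
  have h3 := h.C3_nonneg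
  have h1 := h.C1_pos.le
  refine (real_sum_gt P (fun ω x => ZZ r y (x + 1) ω) l ht0).trans ?_
  have key : ∀ i ∈ (range l).filter fun i => 2 ^ i ≤ l,
      P.real {ω | 2 ^ i ≤ cnt (fun x => ZZ r y (x + 1) ω) l (t / 4 ^ i)} ≤
        l * C3 κ θ s * (t ^ s)⁻¹ * (4 * C1 κ θ) * (((4 : ℝ) ^ i) ^ s * θ ^ 2 ^ i) +
          C3 κ θ s * (t ^ s)⁻¹ * (C3 κ θ s * 2 ^ s) := by
    intro i hi
    have h4 : (2 : ℝ) ^ i ≤ l := by exact_mod_cast (mem_filter.1 hi).2
    have h5 : (4 : ℝ) ^ i ≤ l ^ 2 := by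
      rw [show (4 : ℝ) = 2 ^ 2 by norm_num, ← pow_mul, mul_comm, pow_mul]
      exact pow_le_pow_left₀ (by positivity) h4 2
    have h6 : t / l ^ 2 ≤ t / 4 ^ i := div_le_div_of_nonneg_left ht0.le (by positivity) h5
    have h7 : (l : ℝ) ^ 4 ≤ t / l ^ 2 := by
      rw [le_div_iff₀ (by positivity), ← pow_add]
      exact ht
    have h8 : 1 ≤ t / 4 ^ i := (one_le_pow₀ hl1).trans (h7.trans h6)
    refine (h.countZ h8 (by positivity) y l).trans ?_
    have h9 : t * l ^ 2 ≤ t / 4 ^ i * (t / 4 ^ i) := by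
      refine le_trans ?_ (mul_le_mul h6 (h7.trans h6) (by positivity) (by positivity))
      rw [div_mul_eq_mul_div, mul_div_assoc]
      refine mul_le_mul_of_nonneg_left (le_of_eq ?_) ht0.le
      field_simp
    have h10 : t ^ s * l ^ 2 ≤ (t / 4 ^ i) ^ s * (t / 4 ^ i) ^ s := by
      rw [← Real.mul_rpow (by positivity) (by positivity)]
      refine le_trans ?_ (Real.rpow_le_rpow (by positivity) h9 hs0)
      rw [Real.mul_rpow ht0.le (by positivity)]
      refine mul_le_mul_of_nonneg_left ?_ (by positivity)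
      simpa using Real.rpow_le_rpow_of_exponent_le (one_le_pow₀ (n := 2) hl1) h.hs.le
    have h11 : (l : ℝ) ^ 2 * (((t / 4 ^ i) ^ s)⁻¹ * ((t / 4 ^ i) ^ s)⁻¹) ≤ (t ^ s)⁻¹ := by
      rw [← mul_inv, ← div_eq_mul_inv, div_le_iff₀ (by positivity), inv_mul_eq_div,
        le_div_iff₀ (by positivity), mul_comm]
      exact h10
    have h12 := mul_le_mul_of_nonneg_left h11
      (show 0 ≤ C3 κ θ s * (C3 κ θ s * 2 ^ s) by positivity)
    have e := inv_div_rpow ht0 (show (0 : ℝ) < 4 ^ i by positivity) s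
    have e2 : (l : ℝ) * (C3 κ θ s * ((t / 4 ^ i) ^ s)⁻¹ * (4 * C1 κ θ * θ ^ 2 ^ i)) =
        l * C3 κ θ s * (t ^ s)⁻¹ * (4 * C1 κ θ) * (((4 : ℝ) ^ i) ^ s * θ ^ 2 ^ i) := by
      rw [e]
      ring
    nlinarith [e2, h12]
  refine (sum_le_sum key).trans ?_
  rw [sum_add_distrib, ← mul_sum, sum_const, nsmul_eq_mul]
  have h4 := mul_le_mul_of_nonneg_left (sum_le_C2 h.hθ0.le h.hθ s
    ((range l).filter fun i => 2 ^ i ≤ l))
    (show 0 ≤ l * C3 κ θ s * (t ^ s)⁻¹ * (4 * C1 κ θ) by positivity)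
  have h5 : (((range l).filter fun i => 2 ^ i ≤ l).card : ℝ) ≤ l := by
    exact_mod_cast (card_filter_le _ _).trans_eq (card_range l)
  have h6 := mul_le_mul_of_nonneg_right h5
    (show 0 ≤ C3 κ θ s * (t ^ s)⁻¹ * (C3 κ θ s * 2 ^ s) by positivity)
  rw [C0]
  nlinarith [h4, h6]

end IE

end Pool.Agent.RW
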