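import Pool.Agent.P.MP_4175a8_pr.Comb

open Finset MeasureTheory ProbabilityTheory

namespace Pool.Agent.RW

theorem fw_add {Ω : Type*} (r : ℤ → Ω → ℝ) (y : ℤ) (i k : ℕ) (ω : Ω) :
    pr (fw r y) (i + k) ω = pr (fw r y) i ω * pr (fw r (y + i)) k ω := by
  rw [pr_add]
  simp only [pr, fw, Nat.cast_add, add_assoc]

/-- A rise of height `M` starts at `y`. -/
def AA {Ω : Type*} (r : ℤ → Ω → ℝ) (y : ℤ) (M : ℝ) (L : ℕ) : Set Ω :=
  {ω | ∃ k ≤ L, M ≤ pr (fw r y) k ω ∧ ∀ i ≤ k, 1 ≤ pr (fw r y) i ω}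

namespace IE

variable {Ω : Type*} [mΩ : MeasurableSpace Ω] {P : Measure Ω} [IsProbabilityMeasure P]
  {κ θ s : ℝ} {r : ℤ → Ω → ℝ} {F : Set ℤ → MeasurableSpace Ω} (h : IE P r F κ θ s)
  {M : ℝ} {L J₀ : ℕ}
include h

omit [IsProbabilityMeasure P] in
theorem mAA {S : Set ℤ} {y : ℤ} (hS : ∀ i < L, y + i ∈ S) : MeasurableSet[F S] (AA r y M L) := by
  have e : AA r y M L = ⋃ k, ⋃ (_ : k ≤ L), {ω | M ≤ pr (fw r y) k ω} ∩
      ⋂ i, ⋂ (_ : i ≤ k), {ω | 1 ≤ pr (fw r y) i ω} := by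
    ext ω
    simp only [AA, Set.mem_ofPred_eq, Set.mem_iUnion, Set.mem_inter_iff, Set.mem_iInter,
      exists_prop]
  rw [e]
  exact MeasurableSet.iUnion fun k => MeasurableSet.iUnion fun hk =>
    (measurableSet_le measurable_const (h.mfw fun i hi => hS i (by omega))).inter
      (MeasurableSet.iInter fun i => MeasurableSet.iInter fun hi =>
        measurableSet_le measurable_const (h.mfw fun j hj => hS j (by omega)))

theorem trapA (hJ : θ ^ J₀ / (1 - θ) ≤ (κ ^ s)⁻¹ / 4) (hM : 1 ≤ M)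
    (hL : M ^ (s - 1) * θ ^ L ≤ 1 / 2) (y : ℤ) :
    ((κ * M) ^ s)⁻¹ / 4 ≤ ∑ i ∈ range J₀, P.real (AA r (y + i) M L) := by
  have hM0 : 0 < M := zero_lt_one.trans_le hM
  have hκ0 : 0 < κ := zero_lt_one.trans_le h.hκ
  have hf := h.fwd y
  have h1 : {ω | ∃ k ≤ L, M ≤ pr (fw r y) k ω} ⊆ (⋃ i ∈ range J₀, AA r (y + i) M L) ∪
      ⋃ i ∈ Ico J₀ (L + 1), {ω | pr (fw r y) i ω ≤ 1} ∩
        {ω | ∃ k ≤ L, M ≤ pr (fw r y) (i + k) ω} := by
    rintro ω ⟨k, hk, hk'⟩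
    obtain ⟨i, hi, hmin⟩ := exists_min_image (range (k + 1)) (fun i => pr (fw r y) i ω)
      nonempty_range_add_one
    have hik : i ≤ k := Nat.lt_succ_iff.1 (mem_range.1 hi)
    have h2 : pr (fw r y) i ω ≤ 1 := by simpa [pr] using hmin 0 (mem_range.2 (Nat.succ_pos k))
    have h3 := hf.pr_pos i ω
    have e : i + (k - i) = k := by omega
    rcases lt_or_ge i J₀ with h4 | h4
    · refine Or.inl (Set.mem_iUnion₂.2 ⟨i, mem_range.2 h4, k - i, by omega, ?_, fun j hj => ?_⟩)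
      · rw [← e, fw_add] at hk'
        exact hk'.trans (mul_le_of_le_one_left ((h.fwd _).pr_pos _ ω).le h2)
      · have h5 := hmin (i + j) (mem_range.2 (by omega))
        simp only [fw_add] at h5
        exact (le_mul_iff_one_le_right h3).1 h5
    · exact Or.inr (Set.mem_iUnion₂.2 ⟨i, mem_Ico.2 ⟨h4, by omega⟩, h2, k - i, by omega,
        by rwa [e]⟩)
  have h2 := (rmono (P := P) h1).trans ((measureReal_union_le _ _).trans
    (add_le_add (measureReal_biUnion_finset_le _ _) (measureReal_biUnion_finset_le _ _)))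
  have h3 : ∀ i ∈ Ico J₀ (L + 1), P.real ({ω | pr (fw r y) i ω ≤ 1} ∩
      {ω | ∃ k ≤ L, M ≤ pr (fw r y) (i + k) ω}) ≤ (M ^ s)⁻¹ * θ ^ i := by
    intro i _
    have h4 := hf.doob hM0 L i _ (measurableSet_le (hf.mpr le_rfl) (measurable_const (a := (1 : ℝ))))
    have h5 : ∫ ω in {ω | pr (fw r y) i ω ≤ 1}, pr (fw r y) i ω ^ s ∂P ≤
        ∫ ω in {ω | pr (fw r y) i ω ≤ 1}, pr (fw r y) i ω ∂P :=
      setIntegral_mono_on (hf.int_prs i).integrableOn (hf.int_pr i).integrableOn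
        (measurableSet_le (hf.mpr' i) measurable_const) fun ω hω => by
          simpa using Real.rpow_le_rpow_of_exponent_ge (hf.pr_pos i ω) hω h.hs.le
    have h6 := setIntegral_le_integral (s := {ω | pr (fw r y) i ω ≤ 1}) (hf.int_pr i)
      (ae_of_all _ fun ω => (hf.pr_pos i ω).le)
    rw [hf.e_pr] at h6
    rw [le_inv_mul_iff₀ (Real.rpow_pos_of_pos hM0 s)]
    exact h4.trans (h5.trans h6)
  have h4 := sum_le_sum h3
  rw [← mul_sum] at h4
  have h5 := mul_le_mul_of_nonneg_left ((geom_tail h.hθ0.le h.hθ J₀ (L + 1)).trans hJ)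
    (show 0 ≤ (M ^ s)⁻¹ by positivity)
  have h6 := hf.rdoob hM L
  have h7 : ((κ * M) ^ s)⁻¹ / 2 ≤ P.real {ω | ∃ k ≤ L, M ≤ pr (fw r y) k ω} := by
    rw [div_eq_mul_inv, inv_mul_le_iff₀ (by positivity)]
    linarith
  have e : (M ^ s)⁻¹ * ((κ ^ s)⁻¹ / 4) = ((κ * M) ^ s)⁻¹ / 4 := by
    rw [Real.mul_rpow hκ0.le hM0.le, mul_inv]
    ring
  linarith

theorem pairA (hM : 0 < M) (y : ℤ) (d : ℕ) : P.real (AA r y M L ∩ AA r (y + d) M L) ≤
    ((M ^ s)⁻¹ + θ ^ d) * P.real (AA r (y + d) M L) := by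
  have hf := h.fwd y
  have h1 : AA r y M L ⊆ {ω | ∃ k ≤ d, M ≤ pr (fw r y) k ω} ∪ {ω | 1 ≤ pr (fw r y) d ω} := by
    rintro ω ⟨k, -, h2, h3⟩
    rcases le_total k d with h4 | h4
    · exact Or.inl ⟨k, h4, h2⟩
    · exact Or.inr (h3 d h4)
  have hle : F ((fun i : ℕ => y + i) '' Set.Iio d) ≤ F (Set.Iio (y + d)) := h.mono _ _ (by
    rintro _ ⟨i, hi, rfl⟩
    simpa using hi)
  refine (rmono (Set.inter_subset_inter_left _ h1)).trans ?_
  rw [h.real_inter (Set.Iio_disjoint_Ici le_rfl) (hle _ ((hf.mset_ex le_rfl).union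
    (measurableSet_le measurable_const (hf.mpr le_rfl)))) (h.mAA fun i _ => by simp)]
  refine mul_le_mul_of_nonneg_right ((measureReal_union_le _ _).trans
    (add_le_add (hf.doob0 hM d) ?_)) measureReal_nonneg
  simpa using hf.markov one_pos d

theorem blockA (hJ0 : 0 < J₀) (hJ : θ ^ J₀ / (1 - θ) ≤ (κ ^ s)⁻¹ / 4) (hM : 1 ≤ M)
    (hL : M ^ (s - 1) * θ ^ L ≤ 1 / 2) (hJL : 2 * J₀ ≤ L) (hLM : L * (M ^ s)⁻¹ ≤ 1 / 4) (y : ℤ) :
    L * (M ^ s)⁻¹ / (32 * J₀ ^ 2 * κ ^ s) ≤ P.real {ω | ∃ j < L, ω ∈ AA r (y + j) M L} := by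
  have hM0 : 0 < M := zero_lt_one.trans_le hM
  have hκ0 : 0 < κ := zero_lt_one.trans_le h.hκ
  have hJ1 : (0 : ℝ) < J₀ := by exact_mod_cast hJ0
  have h1 : ∀ m : ℕ, ∃ i < J₀, ((κ * M) ^ s)⁻¹ / 4 / J₀ ≤
      P.real (AA r (y + (2 * m * J₀ + i : ℕ)) M L) := by
    intro m
    have h2 := h.trapA hJ hM hL (y + (2 * m * J₀ : ℕ))
    obtain ⟨i, hi, h3⟩ := exists_le_of_sum_le (s := range J₀) (nonempty_range_iff.2 hJ0.ne')
      (f := fun _ => ((κ * M) ^ s)⁻¹ / 4 / J₀)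
      (g := fun i : ℕ => P.real (AA r (y + (2 * m * J₀ : ℕ) + i) M L)) (by
        rw [sum_const, card_range, nsmul_eq_mul, mul_div_cancel₀ _ hJ1.ne']
        exact h2)
    exact ⟨i, mem_range.1 hi, by rwa [Nat.cast_add, ← add_assoc]⟩
  choose ι hι hP using h1
  set E : ℕ → Set Ω := fun m => AA r (y + (2 * m * J₀ + ι m : ℕ)) M L with hE
  have hEm : ∀ m, MeasurableSet (E m) := fun m => h.le Set.univ _ (h.mAA fun _ _ => trivial)
  have hQ := Nat.div_mul_le_self L (2 * J₀)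
  have hQ' := Nat.lt_div_mul_add (a := L) (show 0 < 2 * J₀ by omega)
  have hQ1 : 1 ≤ L / (2 * J₀) := (Nat.le_div_iff_mul_le (by omega)).2 (by omega)
  set Q := L / (2 * J₀)
  have hκs : (κ ^ s)⁻¹ ≤ 1 :=
    inv_le_one_of_one_le₀ (Real.one_le_rpow h.hκ (zero_le_one.trans h.hs.le))
  have h2 := bonf (P := P) (E := E) Q hEm fun m hm => by
    have h3 : ∀ i ∈ range m, P.real (E i ∩ E m) ≤
        ((M ^ s)⁻¹ + θ ^ (J₀ + (m - 1 - i))) * P.real (E m) := by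
      intro i hi
      obtain ⟨c, rfl⟩ := Nat.exists_eq_add_of_lt (mem_range.1 hi)
      have h4 := hι i
      have h5 : c ≤ c * J₀ := Nat.le_mul_of_pos_right c hJ0
      have e1 : 2 * (i + c + 1) * J₀ = 2 * i * J₀ + 2 * (c * J₀) + 2 * J₀ := by ring
      have h6 := h.pairA (L := L) hM0 (y + (2 * i * J₀ + ι i : ℕ))
        (2 * (c * J₀) + 2 * J₀ + ι (i + c + 1) - ι i)
      rw [add_assoc y, ← Nat.cast_add, show 2 * i * J₀ + ι i +
        (2 * (c * J₀) + 2 * J₀ + ι (i + c + 1) - ι i) = 2 * (i + c + 1) * J₀ + ι (i + c + 1) by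
          omega] at h6
      refine h6.trans (mul_le_mul_of_nonneg_right (add_le_add le_rfl
        (pow_le_pow_of_le_one h.hθ0.le h.hθ.le (by omega))) measureReal_nonneg)
    refine (sum_le_sum h3).trans ?_
    rw [← sum_mul, sum_add_distrib, sum_const, card_range, nsmul_eq_mul,
      sum_range_reflect (fun i => θ ^ (J₀ + i)) m]
    have h4 := geom_tail h.hθ0.le h.hθ J₀ (J₀ + m)
    rw [sum_Ico_eq_sum_range, Nat.add_sub_cancel_left] at h4
    have h5 : (m : ℝ) ≤ L := by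
      have : Q ≤ Q * (2 * J₀) := Nat.le_mul_of_pos_right Q (by omega)
      exact_mod_cast (show m ≤ L by omega)
    have h6 := mul_le_mul_of_nonneg_right h5 (show 0 ≤ (M ^ s)⁻¹ by positivity)
    have h7 : 0 ≤ P.real (E m) := measureReal_nonneg
    nlinarith
  have h3 := sum_le_sum (s := range Q) fun m _ => hP m
  rw [sum_const, card_range, nsmul_eq_mul] at h3
  have h4 : (NN E Q)ᶜ ⊆ {ω | ∃ j < L, ω ∈ AA r (y + j) M L} := by
    intro ω hω
    simp only [NN, Set.mem_compl_iff, Set.mem_ofPred_eq, not_forall, not_not] at hω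
    obtain ⟨m, hm, h5⟩ := hω
    refine ⟨_, ?_, h5⟩
    have h6 := hι m
    have h7 : (m + 1) * (2 * J₀) ≤ Q * (2 * J₀) := Nat.mul_le_mul_right _ hm
    nlinarith
  have h5 := rmono (P := P) h4
  rw [probReal_compl_eq_one_sub (mNN fun i _ => hEm i)] at h5
  have h6 : (L : ℝ) ≤ 4 * J₀ * Q := by
    have : 2 * J₀ ≤ Q * (2 * J₀) := Nat.le_mul_of_pos_left _ hQ1
    exact_mod_cast (show L ≤ 4 * J₀ * Q by nlinarith)
  have h7 : L * (M ^ s)⁻¹ / (32 * J₀ ^ 2 * κ ^ s) ≤ Q * (((κ * M) ^ s)⁻¹ / 4 / J₀) / 2 := by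
    refine (div_le_div_of_nonneg_right (mul_le_mul_of_nonneg_right h6 (by positivity))
      (by positivity)).trans_eq ?_
    rw [Real.mul_rpow hκ0.le hM0.le]
    field_simp
    norm_num
  simp only [hE] at h2 h5
  linarith

theorem notrap (hJ0 : 0 < J₀) (hJ : θ ^ J₀ / (1 - θ) ≤ (κ ^ s)⁻¹ / 4) (hM : 1 ≤ M)
    (hL : M ^ (s - 1) * θ ^ L ≤ 1 / 2) (hJL : 2 * J₀ ≤ L) (hLM : L * (M ^ s)⁻¹ ≤ 1 / 4) (y : ℤ)
    (J : ℕ) : P.real {ω | ¬ ∃ j < 2 * J * L, ∃ k ≤ L, M ≤ pr (fw r (y + j)) k ω} ≤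
      Real.exp (-(J * (L * (M ^ s)⁻¹ / (32 * J₀ ^ 2 * κ ^ s)))) := by
  set E : ℕ → Set Ω := fun m => {ω | ∃ j < L, ω ∈ AA r (y + (2 * m * L : ℕ) + j) M L} with hE
  have hEm : ∀ m (S : Set ℤ), (∀ i < 2 * L, y + (2 * m * L : ℕ) + i ∈ S) →
      MeasurableSet[F S] (E m) := by
    intro m S hS
    have e : E m = ⋃ j, ⋃ (_ : j < L), AA r (y + (2 * m * L : ℕ) + (j : ℕ)) M L := by
      ext ω
      simp [hE]
    rw [e]
    refine MeasurableSet.iUnion fun j => MeasurableSet.iUnion fun hj => h.mAA fun i hi => ?_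
    have := hS (j + i) (by omega)
    rwa [Nat.cast_add, ← add_assoc] at this
  have h1 := prod_ind (P := P) (E := E) (q := fun _ => L * (M ^ s)⁻¹ / (32 * J₀ ^ 2 * κ ^ s)) J
    (fun m => h.le Set.univ _ (hEm m _ fun _ _ => trivial)) fun m _ => by
      rw [h.real_inter (Set.Iio_disjoint_Ici (le_refl (y + (2 * m * L : ℕ)))).symm
        (hEm m _ fun i _ => by simp) (mNN fun i hi => hEm i _ fun j hj => ?_)]
      · exact mul_le_mul_of_nonneg_right (h.blockA hJ0 hJ hM hL hJL hLM _) measureReal_nonneg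
      · have h2 : (i + 1) * L ≤ m * L := Nat.mul_le_mul_right _ hi
        have h3 : 2 * i * L + j < 2 * m * L := by nlinarith
        simp only [Set.mem_Iio]
        omega
  rw [sum_const, card_range, nsmul_eq_mul] at h1
  refine le_trans (rmono (T := NN E J) fun ω hω m hm hω' => hω ?_) h1
  obtain ⟨j, hj, k, hk, h2, -⟩ := hω'
  have h3 : (m + 1) * L ≤ J * L := Nat.mul_le_mul_right _ hm
  exact ⟨2 * m * L + j, by nlinarith, k, hk, by rwa [Nat.cast_add, ← add_assoc]⟩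

end IE

end Pool.Agent.RW
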