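import Pool.Agent.P.MP_4175a8_pr.Det

open Finset

namespace Pool.Agent.RW

/-- A nondegenerate environment. -/
def Ell (e : ℤ → ℝ × ℝ) : Prop := ∀ x, 0 < (e x).1 ∧ 0 < (e x).2 ∧ (e x).1 + (e x).2 ≤ 1

noncomputable def aa (e : ℤ → ℝ × ℝ) (x : ℤ) : ℝ := (e x).1⁻¹

noncomputable def rr (e : ℤ → ℝ × ℝ) (x : ℤ) : ℝ := (e x).2 / (e x).1

/-- The transition operator. -/
def PP (e : ℤ → ℝ × ℝ) (f : ℤ → ℝ) (x : ℤ) : ℝ :=
  (e x).1 * f (x + 1) + (e x).2 * f (x - 1) + (1 - (e x).1 - (e x).2) * f x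

variable {e : ℤ → ℝ × ℝ} {A : Set ℤ}

theorem law_succ (n : ℕ) (x : ℤ) : law e A (n + 1) x = PP e (law e A n) x := rfl

theorem PP_mono (he : Ell e) {f g : ℤ → ℝ} {x : ℤ} (h1 : f (x + 1) ≤ g (x + 1))
    (h2 : f (x - 1) ≤ g (x - 1)) (h3 : f x ≤ g x) : PP e f x ≤ PP e g x := by
  obtain ⟨hp, hq, hs⟩ := he x
  unfold PP
  have h0 : 0 ≤ 1 - (e x).1 - (e x).2 := by linarith
  have := mul_le_mul_of_nonneg_left h1 hp.le
  have := mul_le_mul_of_nonneg_left h2 hq.le
  have := mul_le_mul_of_nonneg_left h3 h0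
  linarith

theorem PP_lin (c d : ℝ) (f : ℤ → ℝ) (x : ℤ) :
    PP e (fun y => c * f y + d) x = c * PP e f x + d := by
  unfold PP
  ring

theorem Ell.one_le_aa (he : Ell e) (x : ℤ) : 1 ≤ aa e x := by
  obtain ⟨hp, hq, hs⟩ := he x
  exact (one_le_inv₀ hp).2 (by linarith)

theorem Ell.rr_pos (he : Ell e) (x : ℤ) : 0 < rr e x := div_pos (he x).2.1 (he x).1

theorem law_nonneg (he : Ell e) (n : ℕ) (x : ℤ) : 0 ≤ law e A n x := by
  induction n generalizing x with
  | zero =>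
    unfold law
    split_ifs <;> norm_num
  | succ n ih =>
    have := PP_mono he (f := fun _ => 0) (g := law e A n) (x := x) (ih _) (ih _) (ih _)
    rw [law_succ]
    simpa [PP] using this

theorem law_super (he : Ell e) {f : ℤ → ℝ} {lam c : ℝ} {n : ℕ} (hlam : 0 ≤ lam)
    (hf : ∀ x : ℤ, -(n : ℤ) ≤ x → x ≤ n → PP e f x ≤ lam * f x)
    (h0 : ∀ x : ℤ, 0 ≤ f x) (hA : ∀ x ∈ A, -(n : ℤ) ≤ x → x ≤ n → c ≤ f x) (t : ℕ) :
    ∀ x : ℤ, -(n : ℤ) + t ≤ x → x + t ≤ n → c * law e A t x ≤ lam ^ t * f x := by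
  induction t with
  | zero =>
    intro x h1 h2
    unfold law
    split_ifs with h
    · simpa using hA x h (by simpa using h1) (by simpa using h2)
    · simpa using h0 x
  | succ t ih =>
    intro x h1 h2
    push_cast at h1 h2
    have h3 := PP_mono he (f := fun y => c * law e A t y + 0) (g := fun y => lam ^ t * f y + 0)
      (x := x) (by simpa using ih _ (by omega) (by omega)) (by simpa using ih _ (by omega) (by omega))
      (by simpa using ih _ (by omega) (by omega))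
    rw [PP_lin, PP_lin, add_zero, add_zero] at h3
    have h4 := mul_le_mul_of_nonneg_left (hf x (by omega) (by omega)) (pow_nonneg hlam t)
    rw [law_succ, pow_succ]
    linarith

/-- The inflated recursion. -/
def sig (a ρ : ℕ → ℝ) (μ : ℝ) : ℕ → ℝ
  | 0 => 0
  | i + 1 => (a i + ρ i * sig a ρ μ i) * (1 + 2 * μ * tau a ρ (i + 1))

theorem sig_nonneg {a ρ : ℕ → ℝ} {μ : ℝ} (ha : ∀ i, 0 ≤ a i) (hρ : ∀ i, 0 ≤ ρ i) (hμ : 0 ≤ μ)
    (i : ℕ) : 0 ≤ sig a ρ μ i := by
  induction i with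
  | zero => exact le_rfl
  | succ i ih =>
    have := tau_nonneg ha hρ (i + 1)
    exact mul_nonneg (add_nonneg (ha i) (mul_nonneg (hρ i) ih)) (by positivity)

theorem prod_one_add_le (S : Finset ℕ) {f : ℕ → ℝ} (hf : ∀ i, 0 ≤ f i) :
    ∏ i ∈ S, (1 + f i) ≤ Real.exp (∑ i ∈ S, f i) := by
  rw [Real.exp_sum]
  exact prod_le_prod (fun i _ => by linarith [hf i]) fun i _ => by
    linarith [Real.add_one_le_exp (f i)]

theorem sig_le {a ρ : ℕ → ℝ} {μ ν t γ : ℝ} {L N : ℕ} (hL : 0 < L) (hLN : L ≤ N)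
    (ha : ∀ i, 1 ≤ a i) (hρ : ∀ i, 0 ≤ ρ i) (hμ : 0 ≤ μ) (hν : 0 ≤ ν) (hγ : γ ≤ 1)
    (hp : ∀ i, i + L ≤ N → ∏ j ∈ range L, ρ (i + j) ≤ ν)
    (hw : ∀ y, y + L ≤ N → ∑ j ∈ range L, tau a ρ (y + j + 1) ≤ t)
    (hc : Real.exp (2 * μ * t) * (1 + 2 * ν * t) ≤ 1 + γ) :
    ∀ i, i ≤ N → sig a ρ μ i ≤ (1 + γ) * tau a ρ i := by
  have ha0 : ∀ i, 0 ≤ a i := fun i => zero_le_one.trans (ha i)
  have hτ := tau_nonneg ha0 hρ
  have hσ := sig_nonneg ha0 hρ hμ
  have ht : 0 ≤ t := (sum_nonneg fun j _ => hτ _).trans (hw 0 (by omega))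
  have hu : ∀ y k, ∑ j ∈ range k, tau a ρ (y + j + 1) ≤ t → sig a ρ μ (y + k) ≤
      Real.exp (2 * μ * t) * (tau a ρ (y + k) + (∏ j ∈ range k, ρ (y + j)) * sig a ρ μ y) := by
    intro y k hk
    have h1 := unroll (σ := sig a ρ μ) (g := fun i => 1 + 2 * μ * tau a ρ (i + 1))
      (c := fun k => tau a ρ (y + k)) y ha0 hρ
      (fun i => le_add_of_nonneg_right (mul_nonneg (by positivity) (hτ _))) (hτ _)
      (fun i => le_rfl) (fun i => le_rfl) k
    refine h1.trans (mul_le_mul_of_nonneg_right ?_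
      (add_nonneg (hτ _) (mul_nonneg (prod_nonneg fun j _ => hρ _) (hσ _))))
    refine (prod_one_add_le (range k) (f := fun j => 2 * μ * tau a ρ (y + j + 1))
      fun i => mul_nonneg (by positivity) (hτ _)).trans (Real.exp_le_exp.2 ?_)
    rw [← mul_sum]
    exact mul_le_mul_of_nonneg_left hk (by positivity)
  have hE := Real.exp_pos (2 * μ * t)
  have hνt : 0 ≤ ν * t := mul_nonneg hν ht
  have hsingle : ∀ i, i ≤ N → tau a ρ i ≤ t := by
    intro i hi
    rcases Nat.eq_zero_or_pos i with h | h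
    · rw [h]
      exact ht
    · rcases le_total L i with h1 | h1
      · refine le_trans ?_ (hw (i - L) (by omega))
        have e : i = i - L + (L - 1) + 1 := by omega
        conv_lhs => rw [e]
        exact single_le_sum (f := fun j => tau a ρ (i - L + j + 1)) (fun j _ => hτ _)
          (mem_range.2 (by omega))
      · refine le_trans ?_ (hw 0 (by omega))
        have e : i = 0 + (i - 1) + 1 := by omega
        conv_lhs => rw [e]
        exact single_le_sum (f := fun j => tau a ρ (0 + j + 1)) (fun j _ => hτ _)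
          (mem_range.2 (by omega))
  intro i
  induction i using Nat.strong_induction_on with
  | _ i ih =>
    intro hi
    rcases le_total i L with h | h
    · have h1 := hu 0 i (le_trans (sum_le_sum_of_subset_of_nonneg (range_mono h)
        fun j _ _ => hτ _) (hw 0 (by omega)))
      simp only [zero_add, sig, mul_zero, add_zero] at h1
      refine h1.trans (mul_le_mul_of_nonneg_right ?_ (hτ _))
      nlinarith
    · have h1 := hu (i - L) L (hw _ (by omega))
      have e : i - L + L = i := by omega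
      rw [e] at h1
      have h2 := ih (i - L) (by omega) (by omega)
      have h3 := hsingle (i - L) (by omega)
      have h4 : sig a ρ μ (i - L) ≤ 2 * t := by nlinarith [hτ (i - L)]
      have h5 := mul_le_mul (hp (i - L) (by omega)) h4 (hσ _) hν
      have h6 : 1 ≤ tau a ρ i := by
        have e : i = i - 1 + 1 := by omega
        rw [e, tau]
        nlinarith [ha (i - 1), mul_nonneg (hρ (i - 1)) (hτ (i - 1))]
      have h7 : tau a ρ i + (∏ j ∈ range L, ρ (i - L + j)) * sig a ρ μ (i - L) ≤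
          (1 + 2 * ν * t) * tau a ρ i := by nlinarith
      calc _ ≤ _ := h1
        _ ≤ Real.exp (2 * μ * t) * ((1 + 2 * ν * t) * tau a ρ i) :=
          mul_le_mul_of_nonneg_left h7 hE.le
        _ ≤ _ := by
          rw [← mul_assoc]
          exact mul_le_mul_of_nonneg_right hc (hτ _)

/-- Expected crossing times with a reflecting site at `-n`. -/
noncomputable def tt (e : ℤ → ℝ × ℝ) (n : ℕ) : ℕ → ℝ :=
  tau (fun i => aa e (-n + i)) fun i => rr e (-n + i)

theorem upper_det (he : Ell e) {μ ν t γ : ℝ} {n m L : ℕ} (hL : 0 < L) (hLn : L ≤ 2 * n + 1)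
    (hm : m ≤ n) (hμ : 0 ≤ μ) (hν : 0 ≤ ν) (hγ : γ ≤ 1)
    (hp : ∀ i, i + L ≤ 2 * n + 1 → ∏ j ∈ range L, rr e (-n + (i + j : ℕ)) ≤ ν)
    (hw : ∀ y, y + L ≤ 2 * n + 1 → ∑ j ∈ range L, tt e n (y + j + 1) ≤ t)
    (hc : Real.exp (2 * μ * t) * (1 + 2 * ν * t) ≤ 1 + γ) (hA : ∀ x ∈ A, x ≤ m) :
    law e A n 0 ≤ Real.exp (-μ * n + μ * (1 + γ) * ∑ y ∈ range m, tt e n (n + y + 1)) := by
  set a : ℕ → ℝ := fun i => aa e (-n + i) with ha
  set ρ : ℕ → ℝ := fun i => rr e (-n + i) with hρ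
  have ha1 : ∀ i, 1 ≤ a i := fun i => he.one_le_aa _
  have ha0 : ∀ i, 0 ≤ a i := fun i => zero_le_one.trans (ha1 i)
  have hρ0 : ∀ i, 0 ≤ ρ i := fun i => (he.rr_pos _).le
  have hs := sig_le hL hLn ha1 hρ0 hμ hν hγ hp hw hc
  have hτ := tau_nonneg ha0 hρ0
  have hσ := sig_nonneg ha0 hρ0 hμ
  set F : ℕ → ℝ := fun i => ∏ j ∈ Ico i (2 * n + 2), (1 + μ * sig a ρ μ j) with hF
  have h1 : ∀ j, 1 ≤ 1 + μ * sig a ρ μ j := fun j => le_add_of_nonneg_right (mul_nonneg hμ (hσ j))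
  have hF1 : ∀ i, 1 ≤ F i := fun i => one_le_prd _ h1
  have hFs : ∀ i, i < 2 * n + 2 → F i = (1 + μ * sig a ρ μ i) * F (i + 1) := fun i hi =>
    prod_eq_prod_Ico_succ_bot hi _
  have hFk : ∀ i k, i + k ≤ 2 * n + 2 →
      F i = (∏ j ∈ range k, (1 + μ * sig a ρ μ (i + j))) * F (i + k) := by
    intro i k
    induction k with
    | zero => simp
    | succ k ih =>
      intro h
      rw [ih (by omega), hFs (i + k) (by omega), prod_range_succ, ← add_assoc]
      ring
  have key := law_super (A := A) he (f := fun x => F (x + n + 1).toNat) (lam := Real.exp (-μ))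
    (c := F (n + 1 + m)) (n := n) (Real.exp_pos _).le (fun x hx1 hx2 => ?_)
    (fun x => zero_le_one.trans (hF1 _)) (fun x hx hx1 hx2 => ?_) n 0 (by simp) (by simp)
  · have e0 : ((0 : ℤ) + n + 1).toNat = n + 1 := by omega
    simp only [e0] at key
    rw [hFk (n + 1) m (by omega), ← Real.exp_nat_mul, ← mul_assoc, mul_comm] at key
    have h2 := le_of_mul_le_mul_right key (zero_lt_one.trans_le (hF1 _))
    refine h2.trans ?_
    rw [Real.exp_add, mul_comm (n : ℝ)]
    refine mul_le_mul_of_nonneg_left ((prod_one_add_le (range m)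
      (f := fun j => μ * sig a ρ μ (n + 1 + j)) fun j => mul_nonneg hμ (hσ _)).trans
      (Real.exp_le_exp.2 ?_)) (Real.exp_pos _).le
    rw [mul_sum]
    refine sum_le_sum fun j hj => ?_
    have h3 := hs (n + 1 + j) (by have := mem_range.1 hj; omega)
    have e1 : n + j + 1 = n + 1 + j := by omega
    rw [e1, mul_assoc]
    exact mul_le_mul_of_nonneg_left h3 hμ
  · obtain ⟨i, rfl⟩ : ∃ i : ℕ, x = -n + i := ⟨(x + n).toNat, by omega⟩
    have e1 : (-(n : ℤ) + i + 1 + n + 1).toNat = i + 1 + 1 := by omega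
    have e2 : (-(n : ℤ) + i - 1 + n + 1).toNat = i := by omega
    have e3 : (-(n : ℤ) + i + n + 1).toNat = i + 1 := by omega
    obtain ⟨hp0, hq0, hpq⟩ := he (-n + i)
    simp only [PP, e1, e2, e3]
    rw [hFs i (by omega), hFs (i + 1) (by omega)]
    have hG := hF1 (i + 1 + 1)
    set G := F (i + 1 + 1)
    set p := (e (-n + i)).1
    set q := (e (-n + i)).2
    have h2 := hs (i + 1) (by omega)
    have h3 : sig a ρ μ (i + 1) ≤ 2 * tau a ρ (i + 1) := by nlinarith [hτ (i + 1)]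
    have h4 : p * sig a ρ μ (i + 1) = (1 + q * sig a ρ μ i) * (1 + 2 * μ * tau a ρ (i + 1)) := by
      have ea : p * a i = 1 := mul_inv_cancel₀ hp0.ne'
      have eb : p * ρ i = q := mul_div_cancel₀ _ hp0.ne'
      rw [sig, ← mul_assoc, mul_add p, ← mul_assoc p, ea, eb]
    set s1 := sig a ρ μ (i + 1)
    set s0 := sig a ρ μ i
    have hs0 : 0 ≤ s0 := hσ _
    have hs1 : 0 ≤ s1 := hσ _
    have h5 : (1 + q * s0) * (1 + μ * s1) ≤ p * s1 := by
      rw [h4]
      exact mul_le_mul_of_nonneg_left (by nlinarith) (by positivity)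
    have h6 : p + q * ((1 + μ * s0) * (1 + μ * s1)) + (1 - p - q) * (1 + μ * s1) ≤
        (1 - μ) * (1 + μ * s1) := by nlinarith [mul_le_mul_of_nonneg_left h5 hμ]
    have h7 : (1 - μ) * (1 + μ * s1) ≤ Real.exp (-μ) * (1 + μ * s1) :=
      mul_le_mul_of_nonneg_right (by linarith [Real.add_one_le_exp (-μ)]) (by positivity)
    nlinarith [mul_le_mul_of_nonneg_right (h6.trans h7) (zero_le_one.trans hG)]
  · have h2 := hA x hx
    have h3 := hFk (x + n + 1).toNat (n + 1 + m - (x + n + 1).toNat) (by omega)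
    have e1 : (x + n + 1).toNat + (n + 1 + m - (x + n + 1).toNat) = n + 1 + m := by omega
    rw [e1] at h3
    simp only [h3]
    exact le_mul_of_one_le_left (zero_le_one.trans (hF1 _)) (one_le_prd _ fun j => h1 _)

end Pool.Agent.RW
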